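import Mathlib

/-!
Conic programs, distance to ill-posedness, condition number, Gaussian perturbation.
-/

set_option autoImplicit false

open MeasureTheory ProbabilityTheory Matrix
open scoped ENNReal

namespace Pool.Agent.H468Z.Conic

/-- `C` is a closed convex cone: closed, contains `0`, stable under sums and under
multiplication by nonnegative scalars. -/
structure IsClosedConvexCone {J : Type} (C : Set (J → ℝ)) : Prop where
  isClosed : IsClosed C
  zero_mem : (0 : J → ℝ) ∈ C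
  add_mem : ∀ u ∈ C, ∀ v ∈ C, u + v ∈ C
  smul_mem : ∀ t : ℝ, 0 ≤ t → ∀ v ∈ C, t • v ∈ C

/-- The dual cone `C* = {u : uᵀ v ≥ 0 for all v ∈ C}`. -/
def dualCone {J : Type} [Fintype J] (C : Set (J → ℝ)) : Set (J → ℝ) :=
  {u | ∀ v ∈ C, 0 ≤ u ⬝ᵥ v}

/-- The positions of the entries of the data `(A, b, c)`. -/
abbrev Idx (m n : ℕ) : Type := (Fin m × Fin n) ⊕ (Fin m ⊕ Fin n)

/-- The data `(A, b, c)`, as the family of all its entries. -/
abbrev Data (m n : ℕ) : Type := Idx m n → ℝ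

variable {m n : ℕ}

/-- The matrix `A`. -/
def matA (d : Data m n) : Matrix (Fin m) (Fin n) ℝ := Matrix.of fun i j => d (Sum.inl (i, j))

/-- The vector `b`. -/
def vecB (d : Data m n) : Fin m → ℝ := fun i => d (Sum.inr (Sum.inl i))

/-- The vector `c`. -/
def vecC (d : Data m n) : Fin n → ℝ := fun j => d (Sum.inr (Sum.inr j))

/-- The Frobenius norm of all entries of `(A, b, c)` taken together. -/
noncomputable def frob (d : Data m n) : ℝ := Real.sqrt (∑ k, d k ^ 2)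

/-- (P) is feasible: there is `x ∈ C₂` with `A x - b ∈ C₁`. -/
def PrimalFeasible (C₁ : Set (Fin m → ℝ)) (C₂ : Set (Fin n → ℝ)) (d : Data m n) : Prop :=
  ∃ x ∈ C₂, matA d *ᵥ x - vecB d ∈ C₁

/-- (D) is feasible: there is `y ∈ C₁*` with `c - Aᵀ y ∈ C₂*`. -/
def DualFeasible (C₁ : Set (Fin m → ℝ)) (C₂ : Set (Fin n → ℝ)) (d : Data m n) : Prop :=
  ∃ y ∈ dualCone C₁, vecC d - (matA d)ᵀ *ᵥ y ∈ dualCone C₂

/-- Every perturbation of Frobenius norm at most `δ` leaves the feasibility status of (P) and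
the feasibility status of (D) unchanged. -/
def Stable (C₁ : Set (Fin m → ℝ)) (C₂ : Set (Fin n → ℝ)) (d : Data m n) (δ : ℝ) : Prop :=
  ∀ e : Data m n, frob e ≤ δ →
    (PrimalFeasible C₁ C₂ (d + e) ↔ PrimalFeasible C₁ C₂ d) ∧
      (DualFeasible C₁ C₂ (d + e) ↔ DualFeasible C₁ C₂ d)

/-- The distance to ill-posedness `ρ(A, b, c) ∈ [0, ∞]`. -/
noncomputable def rho (C₁ : Set (Fin m → ℝ)) (C₂ : Set (Fin n → ℝ)) (d : Data m n) : ℝ≥0∞ :=
  ⨆ (δ : ℝ) (_ : 0 ≤ δ) (_ : Stable C₁ C₂ d δ), ENNReal.ofReal δ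

/-- The condition number `C(A, b, c) = ‖A, b, c‖_F / ρ(A, b, c)`, which is `+∞` when `ρ = 0`. -/
noncomputable def condNum (C₁ : Set (Fin m → ℝ)) (C₂ : Set (Fin n → ℝ)) (d : Data m n) : ℝ≥0∞ :=
  if rho C₁ C₂ d = 0 then ⊤ else ENNReal.ofReal (frob d) / rho C₁ C₂ d

/-- The law of the `σ`-Gaussian perturbation of `d₀`: independent entries `N(d₀ k, σ²)`. -/
noncomputable def perturbation (d₀ : Data m n) (σ : ℝ) : Measure (Data m n) :=
  Measure.pi fun k => gaussianReal (d₀ k) (Real.toNNReal (σ ^ 2))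

end Pool.Agent.H468Z.Conic
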