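import Pool.Agent.H468Z.ConicDefs

/-! The key measure estimate. -/

set_option autoImplicit false

open MeasureTheory ProbabilityTheory Matrix Set
open scoped ENNReal NNReal

namespace Pool.Agent.H468Z.Conic

lemma gauss_Icc (μ₀ σ : ℝ) (hσ : 0 < σ) (a κ : ℝ) :
    gaussianReal μ₀ (Real.toNNReal (σ ^ 2)) (Icc a (a + κ)) ≤ ENNReal.ofReal (κ / σ) := by
  have hv : Real.toNNReal (σ ^ 2) ≠ 0 := by
    rw [Ne, Real.toNNReal_eq_zero, not_le]; positivity
  rw [gaussianReal_apply _ hv]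
  have hb : ∀ x, gaussianPDF μ₀ (Real.toNNReal (σ ^ 2)) x ≤ ENNReal.ofReal (1 / σ) := by
    intro x
    apply ENNReal.ofReal_le_ofReal
    unfold gaussianPDFReal
    rw [Real.coe_toNNReal _ (sq_nonneg σ)]
    have h1 : Real.exp (-(x - μ₀) ^ 2 / (2 * σ ^ 2)) ≤ 1 := by
      rw [Real.exp_le_one_iff]
      apply div_nonpos_of_nonpos_of_nonneg
      · linarith [sq_nonneg (x - μ₀)]
      · positivity
    have h2 : σ ≤ √(2 * Real.pi * σ ^ 2) := by
      apply Real.le_sqrt_of_sq_le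
      nlinarith [Real.pi_gt_three, sq_nonneg σ]
    have h3 : (√(2 * Real.pi * σ ^ 2))⁻¹ ≤ 1 / σ := by
      rw [one_div]; exact inv_anti₀ hσ h2
    have h4 : 0 ≤ (√(2 * Real.pi * σ ^ 2))⁻¹ := by positivity
    nlinarith [Real.exp_pos (-(x - μ₀) ^ 2 / (2 * σ ^ 2))]
  calc ∫⁻ x in Icc a (a + κ), gaussianPDF μ₀ (Real.toNNReal (σ ^ 2)) x
      ≤ ∫⁻ _ in Icc a (a + κ), ENNReal.ofReal (1 / σ) := lintegral_mono hb
    _ = ENNReal.ofReal (1 / σ) * ENNReal.ofReal κ := by
        rw [setLIntegral_const, Real.volume_Icc, add_sub_cancel_left]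
    _ = ENNReal.ofReal (κ / σ) := by
        rw [← ENNReal.ofReal_mul (by positivity)]
        congr 1
        ring

lemma gauss_shell (μ₀ σ : ℝ) (hσ : 0 < σ) {κ : ℝ} (hκ : 0 ≤ κ) (W V : Set ℝ) (hW : Convex ℝ W)
    (hV : ∀ t ∈ V, t ∉ W ∧ ∃ w ∈ W, |t - w| ≤ κ) :
    gaussianReal μ₀ (Real.toNNReal (σ ^ 2)) V ≤ ENNReal.ofReal (2 * κ / σ) := by
  have hsub : V ⊆ Icc (sSup W) (sSup W + κ) ∪ Icc (sInf W - κ) (sInf W - κ + κ) := by
    intro t ht
    obtain ⟨htW, w, hw, htw⟩ := hV t ht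
    rw [abs_le] at htw
    rcases le_total w t with h | h
    · left
      have hub : ∀ w' ∈ W, w' ≤ t := by
        intro w' hw'
        by_contra hcon
        exact htW (hW.ordConnected.out hw hw' ⟨h, (not_le.1 hcon).le⟩)
      exact ⟨csSup_le ⟨w, hw⟩ hub, by linarith [le_csSup ⟨t, hub⟩ hw]⟩
    · right
      have hlb : ∀ w' ∈ W, t ≤ w' := by
        intro w' hw'
        by_contra hcon
        exact htW (hW.ordConnected.out hw' hw ⟨(not_le.1 hcon).le, h⟩)
      exact ⟨by linarith [csInf_le ⟨t, hlb⟩ hw], by linarith [le_csInf ⟨w, hw⟩ hlb]⟩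
  refine (measure_mono hsub).trans ((measure_union_le _ _).trans ?_)
  refine (add_le_add (gauss_Icc μ₀ σ hσ _ κ) (gauss_Icc μ₀ σ hσ _ κ)).trans ?_
  rw [← ENNReal.ofReal_add (by positivity) (by positivity)]
  apply le_of_eq
  congr 1
  ring

lemma slice_bound {ι : Type} [Fintype ι] [DecidableEq ι] (μ : ι → Measure ℝ)
    [∀ i, IsProbabilityMeasure (μ i)] (E : Set (ι → ℝ)) (hE : MeasurableSet E) (k : ι) (c : ℝ≥0∞)
    (h : ∀ d, μ k {t | Function.update d k t ∈ E} ≤ c) : Measure.pi μ E ≤ c := by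
  have h1 := lintegral_le_of_lmarginal_le (μ := μ) {k} (f := E.indicator 1) (g := fun _ => c)
    (measurable_one.indicator hE) measurable_const (by
      rw [lmarginal_singleton, lmarginal_singleton]
      intro d
      simp only [lintegral_const, measure_univ, mul_one]
      refine le_trans (le_of_eq ?_) ((lintegral_indicator_one_le _).trans (h d))
      congr 1)
  rw [lintegral_indicator_one hE] at h1
  simpa using h1

section key

variable {ι R J : Type} [Fintype ι] [DecidableEq ι] [Fintype R] [DecidableEq R] [Fintype J]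
  [DecidableEq J]

/-- the matrix read off from the data -/
def mat (k : R → J → ι) (d : ι → ℝ) : Matrix R J ℝ := Matrix.of fun r j => d (k r j)

lemma IsClosedConvexCone.convex {J : Type} {C : Set (J → ℝ)} (h : IsClosedConvexCone C) :
    Convex ℝ C := fun u hu v hv a b ha hb _ =>
  h.add_mem _ (h.smul_mem a ha u hu) _ (h.smul_mem b hb v hv)

omit [Fintype ι] [Fintype R] in
lemma mat_update (k : R → J → ι) (hk : ∀ r j r' j', k r j = k r' j' → r = r' ∧ j = j')
    (d : ι → ℝ) (r : R) (j : J) (t : ℝ) (x : J → ℝ) :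
    mat k (Function.update d (k r j) t) *ᵥ x =
      mat k d *ᵥ x + Pi.single r ((t - d (k r j)) * x j) := by
  funext r'
  simp only [mat, mulVec, dotProduct, of_apply, Pi.add_apply]
  by_cases hr : r' = r
  · subst hr
    rw [Pi.single_eq_same, ← Finset.add_sum_erase _ _ (Finset.mem_univ j),
      ← Finset.add_sum_erase _ (fun j' => d (k r' j') * x j') (Finset.mem_univ j),
      Function.update_self]
    have : ∑ j' ∈ Finset.univ.erase j, Function.update d (k r' j) t (k r' j') * x j' =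
        ∑ j' ∈ Finset.univ.erase j, d (k r' j') * x j' := by
      refine Finset.sum_congr rfl (fun j' hj' => ?_)
      rw [Function.update_of_ne (fun h => (Finset.ne_of_mem_erase hj') (hk _ _ _ _ h).2)]
    rw [this]
    ring
  · rw [Pi.single_eq_of_ne hr, add_zero]
    refine Finset.sum_congr rfl (fun j' _ => ?_)
    rw [Function.update_of_ne (fun h => hr (hk _ _ _ _ h).1)]

/-- the hybrid sets -/
def T (k : R → J → ι) (K₁ : Set (R → ℝ)) (K₂ : Set (J → ℝ)) (j : J) (s : ℝ) (u₀ : R → ℝ) (κ : ℝ)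
    (I : Finset R) : Set (ι → ℝ) :=
  {d | ∃ x ∈ K₂, x j = s ∧ (∀ j', |x j'| ≤ 1) ∧ ∃ u : R → ℝ, (∀ r, |u r| ≤ κ) ∧
    (∀ r ∉ I, u r = 0) ∧ mat k d *ᵥ x + u₀ + u ∈ K₁}

omit [Fintype ι] [DecidableEq ι] [DecidableEq R] [DecidableEq J] in
lemma isClosed_T (k : R → J → ι) {K₁ : Set (R → ℝ)} {K₂ : Set (J → ℝ)} (h₁ : IsClosed K₁)
    (h₂ : IsClosed K₂) (j : J) (s : ℝ) (u₀ : R → ℝ) (κ : ℝ) (I : Finset R) :
    IsClosed (T k K₁ K₂ j s u₀ κ I) := by
  let Q : Set ((J → ℝ) × (R → ℝ)) :=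
    (Set.pi univ fun _ => Icc (-1 : ℝ) 1) ×ˢ (Set.pi univ fun _ => Icc (-κ) κ)
  have hQ : IsCompact Q :=
    (isCompact_univ_pi fun _ => isCompact_Icc).prod (isCompact_univ_pi fun _ => isCompact_Icc)
  haveI : CompactSpace Q := isCompact_iff_compactSpace.1 hQ
  let S : Set ((ι → ℝ) × Q) := {p | p.2.1.1 ∈ K₂ ∧ p.2.1.1 j = s ∧ (∀ r ∉ I, p.2.1.2 r = 0) ∧
    mat k p.1 *ᵥ p.2.1.1 + u₀ + p.2.1.2 ∈ K₁}
  have hS : IsClosed S := by
    refine (h₂.preimage (by fun_prop)).inter ((isClosed_eq (by fun_prop) continuous_const).inter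
      (IsClosed.inter ?_ (h₁.preimage ?_)))
    · change IsClosed {p : (ι → ℝ) × Q | ∀ r ∉ I, p.2.1.2 r = 0}
      simp only [ofPred_forall]
      exact isClosed_iInter fun r => isClosed_iInter fun _ =>
        isClosed_eq (by fun_prop) continuous_const
    · refine Continuous.add (Continuous.add ?_ continuous_const) (by fun_prop)
      refine continuous_pi fun r => ?_
      simp only [mat, mulVec, dotProduct, of_apply]
      fun_prop
  have hT : T k K₁ K₂ j s u₀ κ I = Prod.fst '' S := by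
    ext d
    constructor
    · rintro ⟨x, hx, hxj, hx1, u, hu, huI, hK⟩
      exact ⟨(d, ⟨(x, u), fun j' _ => abs_le.1 (hx1 j'), fun r _ => abs_le.1 (hu r)⟩),
        ⟨hx, hxj, huI, hK⟩, rfl⟩
    · rintro ⟨⟨d', ⟨x, u⟩, hq1, hq2⟩, ⟨hx, hxj, huI, hK⟩, rfl⟩
      exact ⟨x, hx, hxj, fun j' => abs_le.2 (hq1 j' trivial), u, fun r => abs_le.2 (hq2 r trivial),
        huI, hK⟩
  rw [hT]
  exact isClosedMap_fst_of_compactSpace S hS

lemma T_step (k : R → J → ι) (hk : ∀ r j r' j', k r j = k r' j' → r = r' ∧ j = j')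
    {K₁ : Set (R → ℝ)} {K₂ : Set (J → ℝ)} (h₁ : IsClosedConvexCone K₁)
    (h₂ : IsClosedConvexCone K₂) (j : J) (s : ℝ) (hs : s * s = 1) (u₀ : R → ℝ) {κ : ℝ}
    (hκ : 0 ≤ κ) (d₀ : ι → ℝ) {σ : ℝ} (hσ : 0 < σ) (I : Finset R) (r : R) :
    Measure.pi (fun i => gaussianReal (d₀ i) (Real.toNNReal (σ ^ 2)))
      (T k K₁ K₂ j s u₀ κ (insert r I) \ T k K₁ K₂ j s u₀ κ I) ≤ ENNReal.ofReal (2 * κ / σ) := by
  refine slice_bound _ _ ((isClosed_T k h₁.isClosed h₂.isClosed j s u₀ κ _).measurableSet.diff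
    (isClosed_T k h₁.isClosed h₂.isClosed j s u₀ κ _).measurableSet) (k r j) _ (fun d => ?_)
  refine gauss_shell _ σ hσ hκ {t | Function.update d (k r j) t ∈ T k K₁ K₂ j s u₀ κ I} _ ?_ ?_
  · rintro t₁ ⟨x₁, hx₁, hx₁j, hx₁b, u₁, hu₁, hu₁I, hK₁⟩ t₂ ⟨x₂, hx₂, hx₂j, hx₂b, u₂, hu₂, hu₂I, hK₂⟩
      a b ha hb hab
    refine ⟨a • x₁ + b • x₂, h₂.convex hx₁ hx₂ ha hb hab, ?_, fun j' => ?_, a • u₁ + b • u₂,
      fun r' => ?_, fun r' hr' => ?_, ?_⟩
    · simp only [Pi.add_apply, Pi.smul_apply, smul_eq_mul, hx₁j, hx₂j]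
      rw [← add_mul, hab, one_mul]
    · have h1 := abs_le.1 (hx₁b j')
      have h2 := abs_le.1 (hx₂b j')
      simp only [Pi.add_apply, Pi.smul_apply, smul_eq_mul]
      rw [abs_le]
      constructor <;> nlinarith [h1.1, h1.2, h2.1, h2.2]
    · have h1 := abs_le.1 (hu₁ r')
      have h2 := abs_le.1 (hu₂ r')
      simp only [Pi.add_apply, Pi.smul_apply, smul_eq_mul]
      rw [abs_le]
      have h3 : κ = a * κ + b * κ := by rw [← add_mul, hab, one_mul]
      constructor <;> nlinarith [h1.1, h1.2, h2.1, h2.2]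
    · simp [hu₁I r' hr', hu₂I r' hr']
    · have h3 := h₁.convex hK₁ hK₂ ha hb hab
      rw [mat_update k hk] at h3 ⊢
      rw [mat_update k hk] at h3
      convert h3 using 1
      funext r'
      have hb' : b = 1 - a := by linarith
      simp only [mulVec_add, mulVec_smul, Pi.add_apply, Pi.smul_apply, smul_eq_mul, hx₁j, hx₂j,
        Pi.single_apply]
      split_ifs <;> rw [hb'] <;> ring
  · rintro t ⟨⟨x, hx, hxj, hxb, u, hu, huI, hK⟩, ht⟩
    refine ⟨ht, t + s * u r, ⟨x, hx, hxj, hxb, Function.update u r 0, fun r' => ?_,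
      fun r' hr' => ?_, ?_⟩, ?_⟩
    · by_cases h : r' = r
      · rw [h, Function.update_self, abs_zero]; exact hκ
      · rw [Function.update_of_ne h]; exact hu r'
    · by_cases h : r' = r
      · rw [h, Function.update_self]
      · rw [Function.update_of_ne h]
        exact huI r' (by simp [h, hr'])
    · rw [mat_update k hk] at hK ⊢
      convert hK using 1
      funext r'
      simp only [Pi.add_apply, Pi.single_apply, hxj, Function.update_apply]
      split_ifs with h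
      · rw [h]
        linear_combination (u r) * hs
      · ring
    · have h1 : t - (t + s * u r) = -(s * u r) := by ring
      have h2 : |s| = 1 := by
        have : |s| * |s| = 1 := by rw [← abs_mul, hs, abs_one]
        nlinarith [abs_nonneg s]
      rw [h1, abs_neg, abs_mul, h2, one_mul]
      exact hu r

lemma T_all (k : R → J → ι) (hk : ∀ r j r' j', k r j = k r' j' → r = r' ∧ j = j')
    {K₁ : Set (R → ℝ)} {K₂ : Set (J → ℝ)} (h₁ : IsClosedConvexCone K₁)
    (h₂ : IsClosedConvexCone K₂) (j : J) (s : ℝ) (hs : s * s = 1) (u₀ : R → ℝ) {κ : ℝ}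
    (hκ : 0 ≤ κ) (d₀ : ι → ℝ) {σ : ℝ} (hσ : 0 < σ) (I : Finset R) :
    Measure.pi (fun i => gaussianReal (d₀ i) (Real.toNNReal (σ ^ 2)))
      (T k K₁ K₂ j s u₀ κ I \ T k K₁ K₂ j s u₀ κ ∅) ≤ ENNReal.ofReal (I.card * (2 * κ / σ)) := by
  induction I using Finset.induction_on with
  | empty => simp
  | insert r I hr ih =>
    have hsub : T k K₁ K₂ j s u₀ κ (insert r I) \ T k K₁ K₂ j s u₀ κ ∅ ⊆
        (T k K₁ K₂ j s u₀ κ (insert r I) \ T k K₁ K₂ j s u₀ κ I) ∪
          (T k K₁ K₂ j s u₀ κ I \ T k K₁ K₂ j s u₀ κ ∅) := by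
      rintro d ⟨h1, h2⟩
      by_cases h : d ∈ T k K₁ K₂ j s u₀ κ I
      · exact Or.inr ⟨h, h2⟩
      · exact Or.inl ⟨h1, h⟩
    refine (measure_mono hsub).trans ((measure_union_le _ _).trans ?_)
    refine (add_le_add (T_step k hk h₁ h₂ j s hs u₀ hκ d₀ hσ I r) ih).trans ?_
    rw [← ENNReal.ofReal_add (by positivity) (by positivity), Finset.card_insert_of_notMem hr]
    apply le_of_eq
    congr 1
    push_cast
    ring

/-- the bad event -/
def E (k : R → J → ι) (K₁ : Set (R → ℝ)) (K₂ : Set (J → ℝ)) (ε : ℝ) : Set (ι → ℝ) :=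
  {d | (∃ d' : ι → ℝ, (∀ i, |d' i - d i| ≤ ε) ∧ ∃ x ∈ K₂, x ≠ 0 ∧ mat k d' *ᵥ x ∈ K₁) ∧
    ∃ y : R → ℝ, y ≠ 0 ∧ (∀ v ∈ K₁, 0 ≤ y ⬝ᵥ v) ∧ ∀ x ∈ K₂, y ⬝ᵥ (mat k d *ᵥ x) ≤ 0}

/-- a sign -/
def sg (b : Bool) : ℝ := if b then 1 else -1

lemma sg_sq (b : Bool) : sg b * sg b = 1 := by cases b <;> simp [sg]

lemma exists_sg (t : ℝ) : ∃ b, sg b * |t| = t := by
  rcases le_total 0 t with h | h
  · exact ⟨true, by simp [sg, abs_of_nonneg h]⟩
  · exact ⟨false, by simp [sg, abs_of_nonpos h]⟩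

theorem key (k : R → J → ι) (hk : ∀ r j r' j', k r j = k r' j' → r = r' ∧ j = j')
    {K₁ : Set (R → ℝ)} {K₂ : Set (J → ℝ)} (h₁ : IsClosedConvexCone K₁)
    (h₂ : IsClosedConvexCone K₂) {ε : ℝ} (hε : 0 < ε) (d₀ : ι → ℝ) {σ : ℝ} (hσ : 0 < σ) :
    Measure.pi (fun i => gaussianReal (d₀ i) (Real.toNNReal (σ ^ 2))) (E k K₁ K₂ ε) ≤
      ENNReal.ofReal (16 * (Fintype.card R : ℝ) ^ 2 * (Fintype.card J : ℝ) ^ 2 * ε / σ) := by
  set η : ℝ := ε * Fintype.card J with hη
  have hη0 : 0 ≤ η := by positivity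
  have hsub : E k K₁ K₂ ε ⊆ ⋃ p : J × Bool × R × Bool,
      (T k K₁ K₂ p.1 (sg p.2.1) (Pi.single p.2.2.1 (-(sg p.2.2.2 * η))) (2 * η) Finset.univ \
        T k K₁ K₂ p.1 (sg p.2.1) (Pi.single p.2.2.1 (-(sg p.2.2.2 * η))) (2 * η) ∅) := by
    rintro d ⟨⟨d', hd', x, hx, hx0, hK⟩, y, hy0, hy1, hy2⟩
    obtain ⟨j₁, hj₁⟩ := Function.ne_iff.1 hx0
    obtain ⟨r₀, hr₀⟩ := Function.ne_iff.1 hy0
    obtain ⟨j, -, hj⟩ := Finset.exists_max_image Finset.univ (fun j => |x j|) ⟨j₁, Finset.mem_univ _⟩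
    have hjpos : 0 < |x j| := lt_of_lt_of_le (abs_pos.2 hj₁) (hj j₁ (Finset.mem_univ _))
    obtain ⟨b, hb⟩ := exists_sg (x j)
    obtain ⟨b', hb'⟩ := exists_sg (y r₀)
    have hcard : (0 : ℝ) < Fintype.card J := by
      have : Nonempty J := ⟨j⟩
      exact_mod_cast Fintype.card_pos
    have hηpos : 0 < η := by positivity
    rw [mem_iUnion]
    refine ⟨(j, b, r₀, b'), ?_, ?_⟩
    · set x' := |x j|⁻¹ • x with hx'
      have hx'b : ∀ j', |x' j'| ≤ 1 := by
        intro j'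
        rw [hx', Pi.smul_apply, smul_eq_mul, abs_mul, abs_inv, abs_abs, inv_mul_le_iff₀ hjpos,
          mul_one]
        exact hj j' (Finset.mem_univ _)
      refine ⟨x', h₂.smul_mem _ (by positivity) x hx, ?_, hx'b,
        mat k d' *ᵥ x' - mat k d *ᵥ x' - Pi.single r₀ (-(sg b' * η)), fun r => ?_,
        fun r hr => absurd (Finset.mem_univ r) hr, ?_⟩
      · rw [hx', Pi.smul_apply, smul_eq_mul, inv_mul_eq_iff_eq_mul₀ hjpos.ne', mul_comm]
        exact hb.symm
      · have h3 : |(mat k d' *ᵥ x' - mat k d *ᵥ x') r| ≤ η := by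
          simp only [mat, mulVec, dotProduct, of_apply, Pi.sub_apply]
          rw [← Finset.sum_sub_distrib]
          refine (Finset.abs_sum_le_sum_abs _ _).trans ?_
          have : ∀ j' ∈ (Finset.univ : Finset J), |d' (k r j') * x' j' - d (k r j') * x' j'| ≤ ε := by
            intro j' _
            rw [← sub_mul, abs_mul]
            have h4 := hd' (k r j')
            have h5 := hx'b j'
            nlinarith [abs_nonneg (d' (k r j') - d (k r j')), abs_nonneg (x' j')]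
          refine (Finset.sum_le_card_nsmul _ _ _ this).trans ?_
          rw [nsmul_eq_mul, Finset.card_univ, hη, mul_comm]
        have h4 : |(Pi.single r₀ (-(sg b' * η)) : R → ℝ) r| ≤ η := by
          rw [Pi.single_apply]
          split_ifs
          · cases b' <;> simp [sg, abs_of_pos hηpos]
          · simpa using hη0
        rw [Pi.sub_apply]
        refine (abs_sub _ _).trans ?_
        linarith
      · have h3 : mat k d' *ᵥ x' ∈ K₁ := by
          rw [hx', mulVec_smul]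
          exact h₁.smul_mem _ (by positivity) _ hK
        convert h3 using 1
        simp only
        abel
    · rintro ⟨x', hx', -, -, u, -, hu, hK'⟩
      have hu0 : u = 0 := funext fun r => hu r (Finset.notMem_empty r)
      have h3 := hy1 _ hK'
      have h4 := hy2 x' hx'
      rw [hu0, add_zero, dotProduct_add, dotProduct_single] at h3
      have h5 : y r₀ * -(sg b' * η) = -(|y r₀| * η) := by
        nth_rewrite 1 [← hb']
        linear_combination (-(|y r₀| * η)) * sg_sq b'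
      have h6 : 0 < |y r₀| * η := mul_pos (abs_pos.2 hr₀) hηpos
      simp only at h3
      linarith
  refine (measure_mono hsub).trans ((measure_iUnion_fintype_le _ _).trans ?_)
  refine (Finset.sum_le_card_nsmul _ _ _ (fun p _ => T_all k hk h₁ h₂ p.1 _ (sg_sq _) _
    (show 0 ≤ 2 * η by positivity) d₀ hσ Finset.univ)).trans ?_
  rw [nsmul_eq_mul, ← ENNReal.ofReal_natCast, ← ENNReal.ofReal_mul (by positivity)]
  apply le_of_eq
  congr 1
  simp only [Finset.card_univ, Fintype.card_prod, Fintype.card_bool, hη]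
  push_cast
  ring

end key

end Pool.Agent.H468Z.Conic
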