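import Pool.Agent.H468Z.ConicTail

/-! The expectation bound. -/

set_option autoImplicit false

open MeasureTheory ProbabilityTheory Matrix Set
open scoped ENNReal NNReal

namespace Pool.Agent.H468Z.Conic

variable {m n : ℕ}

lemma frob_eq (d : Data m n) : frob d = ‖(WithLp.toLp 2 d : EuclideanSpace ℝ (Idx m n))‖ := by
  rw [EuclideanSpace.norm_eq]
  simp [frob]

lemma frob_add_le (d e : Data m n) : frob (d + e) ≤ frob d + frob e := by
  rw [frob_eq, frob_eq, frob_eq, WithLp.toLp_add]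
  exact norm_add_le _ _

lemma frob_nonneg (d : Data m n) : 0 ≤ frob d := Real.sqrt_nonneg _

lemma continuous_frob : Continuous (frob : Data m n → ℝ) := by
  unfold frob
  fun_prop

lemma measurable_rho (C₁ : Set (Fin m → ℝ)) (C₂ : Set (Fin n → ℝ)) : Measurable (rho C₁ C₂) := by
  refine measurable_of_Ioi (fun c => IsOpen.measurableSet ?_)
  rw [isOpen_iff_mem_nhds]
  intro d hd
  have hd' : c < rho C₁ C₂ d := hd
  unfold rho at hd'
  simp only [lt_iSup_iff] at hd'
  obtain ⟨δ, -, hs, hc⟩ := hd'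
  obtain ⟨δ', hδ'0, hcδ', hδ'⟩ := ENNReal.lt_iff_exists_real_btwn.1 hc
  have hlt : δ' < δ := (ENNReal.ofReal_lt_ofReal_iff_of_nonneg hδ'0).1 hδ'
  have hU : {d' : Data m n | frob (d' - d) < δ - δ'} ∈ nhds d := by
    apply IsOpen.mem_nhds
    · exact isOpen_lt (continuous_frob.comp (by fun_prop)) continuous_const
    · simp [frob, hlt]
  filter_upwards [hU] with d' hd'
  have hs' : Stable C₁ C₂ d' δ' := by
    intro e he
    have h1 := hs (d' - d) (by linarith)
    have h2 := hs (d' - d + e) (by linarith [frob_add_le (d' - d) e])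
    rw [add_sub_cancel] at h1
    rw [← add_assoc, add_sub_cancel] at h2
    exact ⟨h2.1.trans h1.1.symm, h2.2.trans h1.2.symm⟩
  exact lt_of_lt_of_le hcδ' (le_iSup_of_le δ' (le_iSup_of_le hδ'0 (le_iSup_of_le hs' le_rfl)))

lemma measurable_condNum (C₁ : Set (Fin m → ℝ)) (C₂ : Set (Fin n → ℝ)) :
    Measurable (condNum C₁ C₂) := by
  unfold condNum
  refine Measurable.ite ((measurable_rho C₁ C₂) (measurableSet_singleton 0)) measurable_const ?_
  exact (ENNReal.measurable_ofReal.comp continuous_frob.measurable).div (measurable_rho C₁ C₂)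

lemma gauss_sq (μ₀ σ : ℝ) :
    ∫⁻ x, ENNReal.ofReal (x ^ 2) ∂gaussianReal μ₀ (Real.toNNReal (σ ^ 2)) =
      ENNReal.ofReal (μ₀ ^ 2 + σ ^ 2) := by
  have hL : MemLp id 2 (gaussianReal μ₀ (Real.toNNReal (σ ^ 2))) :=
    memLp_id_gaussianReal' 2 (by simp)
  have h1 := variance_eq_sub hL
  rw [variance_id_gaussianReal, Real.coe_toNNReal _ (sq_nonneg σ)] at h1
  simp only [id, Pi.pow_apply, integral_id_gaussianReal] at h1
  rw [← ofReal_integral_eq_lintegral_ofReal (by simpa using hL.integrable_sq)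
    (Filter.Eventually.of_forall fun x => sq_nonneg x)]
  congr 1
  linarith

lemma second_moment (d₀ : Data m n) (σ : ℝ) :
    ∫⁻ d, ENNReal.ofReal (frob d ^ 2) ∂perturbation d₀ σ =
      ENNReal.ofReal (frob d₀ ^ 2 + Fintype.card (Idx m n) * σ ^ 2) := by
  have h1 : ∀ d : Data m n, frob d ^ 2 = ∑ k, d k ^ 2 := fun d =>
    Real.sq_sqrt (Finset.sum_nonneg fun _ _ => sq_nonneg _)
  simp only [h1]
  have h2 : ∀ d : Data m n, ENNReal.ofReal (∑ k, d k ^ 2) = ∑ k, ENNReal.ofReal (d k ^ 2) :=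
    fun d => ENNReal.ofReal_sum_of_nonneg fun _ _ => sq_nonneg _
  simp only [h2]
  rw [lintegral_finsetSum _ (fun k _ => by fun_prop)]
  have h3 : ∀ k : Idx m n, ∫⁻ d, ENNReal.ofReal (d k ^ 2) ∂perturbation d₀ σ =
      ENNReal.ofReal (d₀ k ^ 2 + σ ^ 2) := by
    intro k
    rw [← gauss_sq]
    exact (measurePreserving_eval
      (fun k => gaussianReal (d₀ k) (Real.toNNReal (σ ^ 2))) k).lintegral_comp
      (f := fun x : ℝ => ENNReal.ofReal (x ^ 2)) (by fun_prop)
  simp only [h3]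
  rw [← ENNReal.ofReal_sum_of_nonneg (fun _ _ => by positivity),
    Finset.sum_add_distrib, Finset.sum_const, Finset.card_univ, nsmul_eq_mul]

lemma pointwise (C₁ : Set (Fin m → ℝ)) (C₂ : Set (Fin n → ℝ)) {M L : ℝ} (hM : 1 ≤ M) (hL : 1 ≤ L)
    (d : Data m n) :
    (ENNReal.log (condNum C₁ C₂ d)).toENNReal ≤ ENNReal.ofReal (Real.log L + Real.log M) +
      (ENNReal.ofReal (1 / L ^ 2) * ENNReal.ofReal (frob d ^ 2) +
      ∑' i : ℕ, {d | rho C₁ C₂ d < ENNReal.ofReal ((1 / 2) ^ i / M)}.indicator 1 d) := by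
  classical
  by_cases hall : ∀ i : ℕ, rho C₁ C₂ d < ENNReal.ofReal ((1 / 2) ^ i / M)
  · have : ∑' i : ℕ, {d | rho C₁ C₂ d < ENNReal.ofReal ((1 / 2) ^ i / M)}.indicator
        (1 : Data m n → ℝ≥0∞) d = ⊤ := by
      have h1 : ∀ i : ℕ, {d | rho C₁ C₂ d < ENNReal.ofReal ((1 / 2) ^ i / M)}.indicator
        (1 : Data m n → ℝ≥0∞) d = 1 := fun i =>
          indicator_of_mem (s := {d | rho C₁ C₂ d < ENNReal.ofReal ((1 / 2) ^ i / M)}) (hall i) _
      simp only [h1]
      exact ENNReal.tsum_const_eq_top_of_ne_zero one_ne_zero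
    rw [this]
    simp
  · have hex : ∃ i : ℕ, ¬ rho C₁ C₂ d < ENNReal.ofReal ((1 / 2) ^ i / M) := not_forall.1 hall
    set i₀ := Nat.find hex with hi₀
    have h1 : ENNReal.ofReal ((1 / 2) ^ i₀ / M) ≤ rho C₁ C₂ d := not_lt.1 (Nat.find_spec hex)
    have h2 : (i₀ : ℝ≥0∞) ≤ ∑' i : ℕ, {d | rho C₁ C₂ d < ENNReal.ofReal ((1 / 2) ^ i / M)}.indicator
        (1 : Data m n → ℝ≥0∞) d := by
      refine le_trans (le_of_eq ?_) (ENNReal.sum_le_tsum (Finset.range i₀))
      rw [Finset.sum_congr rfl (g := fun _ => 1) (fun i hi => indicator_of_mem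
        (s := {d | rho C₁ C₂ d < ENNReal.ofReal ((1 / 2) ^ i / M)}) (not_not.1 (Nat.find_min hex (Finset.mem_range.1 hi))) _),
        Finset.sum_const, Finset.card_range, nsmul_eq_mul, mul_one]
    have hc : (0 : ℝ) < (1 / 2) ^ i₀ / M := by positivity
    have hρ : rho C₁ C₂ d ≠ 0 := ((ENNReal.ofReal_pos.2 hc).trans_le h1).ne'
    set t := max (frob d) L with ht
    have htL : L ≤ t := le_max_right _ _
    have htpos : 0 < t := by linarith
    have h3 : condNum C₁ C₂ d ≤ ENNReal.ofReal (t / ((1 / 2) ^ i₀ / M)) := by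
      rw [condNum, if_neg hρ, ENNReal.ofReal_div_of_pos hc]
      exact ENNReal.div_le_div (ENNReal.ofReal_le_ofReal (le_max_left _ _)) h1
    have h4 := EReal.toENNReal_le_toENNReal (ENNReal.log_le_log h3)
    rw [ENNReal.log_ofReal_of_pos (by positivity), EReal.real_coe_toENNReal] at h4
    refine h4.trans (le_trans ?_ (add_le_add le_rfl (add_le_add le_rfl h2)))
    have hlogL := Real.log_nonneg hL
    have hlogM := Real.log_nonneg hM
    rw [← ENNReal.ofReal_natCast, ← ENNReal.ofReal_mul (by positivity),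
      ← ENNReal.ofReal_add (by positivity) (by positivity),
      ← ENNReal.ofReal_add (by positivity) (by positivity)]
    apply ENNReal.ofReal_le_ofReal
    rw [Real.log_div htpos.ne' hc.ne', Real.log_div (by positivity) (by positivity), Real.log_pow,
      one_div, Real.log_inv]
    have h5 : Real.log 2 ≤ 1 := by linarith [Real.log_two_lt_d9]
    have h6 : (i₀ : ℝ) * Real.log 2 ≤ i₀ := by
      nlinarith [(Nat.cast_nonneg i₀ : (0 : ℝ) ≤ i₀)]
    have h7 : Real.log t ≤ Real.log L + 1 / L ^ 2 * frob d ^ 2 := by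
      rcases le_total (frob d) L with h | h
      · rw [ht, max_eq_right h]
        have : 0 ≤ 1 / L ^ 2 * frob d ^ 2 := by positivity
        linarith
      · rw [ht, max_eq_left h]
        have hf : 0 < frob d := by linarith
        have h8 := Real.log_le_sub_one_of_pos (show 0 < frob d / L by positivity)
        rw [Real.log_div hf.ne' (by positivity)] at h8
        have h9 : 1 / L ^ 2 * frob d ^ 2 = (frob d / L) ^ 2 := by ring
        rw [h9]
        nlinarith [sq_nonneg (frob d / L - 1)]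
    linarith

theorem expectation (hm : 1 ≤ m) (hn : 1 ≤ n) {C₁ : Set (Fin m → ℝ)} {C₂ : Set (Fin n → ℝ)}
    (h₁ : IsClosedConvexCone C₁) (h₂ : IsClosedConvexCone C₂) (d₀ : Data m n) (hd₀ : frob d₀ ≤ 1)
    {σ : ℝ} (hσ : 0 < σ) (hσ1 : σ ≤ 1) :
    ∫⁻ d, (ENNReal.log (condNum C₁ C₂ d)).toENNReal ∂perturbation d₀ σ ≤
      ENNReal.ofReal (12 * (1 + Real.log (m * n / σ))) := by
  have hm' : (1 : ℝ) ≤ m := by exact_mod_cast hm
  have hn' : (1 : ℝ) ≤ n := by exact_mod_cast hn
  have hmn : (1 : ℝ) ≤ (m : ℝ) * n := by nlinarith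
  set M : ℝ := 256 * ((m : ℝ) * n) ^ 2 / σ with hM
  set L : ℝ := 2 * ((m : ℝ) * n) with hL
  have hM1 : 1 ≤ M := by
    rw [hM, le_div_iff₀ hσ]; nlinarith
  have hL1 : 1 ≤ L := by linarith
  have : IsProbabilityMeasure (perturbation d₀ σ) := by
    unfold perturbation; infer_instance
  have hmeas : ∀ i : ℕ, MeasurableSet {d | rho C₁ C₂ d < ENNReal.ofReal ((1 / 2) ^ i / M)} :=
    fun i => measurable_rho C₁ C₂ measurableSet_Iio
  refine (lintegral_mono (pointwise C₁ C₂ hM1 hL1)).trans ?_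
  have hfm : Measurable fun d : Data m n => ENNReal.ofReal (frob d ^ 2) :=
    ENNReal.measurable_ofReal.comp (continuous_frob.pow 2).measurable
  rw [lintegral_add_left measurable_const, lintegral_add_left (hfm.const_mul _),
    lintegral_const_mul _ hfm, second_moment,
    lintegral_tsum (fun i => (measurable_one.indicator (hmeas i)).aemeasurable)]
  simp only [lintegral_indicator_one (hmeas _), lintegral_const, measure_univ, mul_one]
  have h3 : ∑' i : ℕ, perturbation d₀ σ {d | rho C₁ C₂ d < ENNReal.ofReal ((1 / 2) ^ i / M)} ≤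
      ENNReal.ofReal 2 := by
    have h4 : ∀ i : ℕ, perturbation d₀ σ {d | rho C₁ C₂ d < ENNReal.ofReal ((1 / 2) ^ i / M)} ≤
        ENNReal.ofReal ((1 / 2) ^ i) := by
      intro i
      refine (tail hm hn h₁ h₂ d₀ hσ (by positivity)).trans (le_of_eq ?_)
      rw [← hM, mul_div_cancel₀ _ (by positivity)]
    refine (ENNReal.tsum_le_tsum h4).trans (le_of_eq ?_)
    rw [← ENNReal.ofReal_tsum_of_nonneg (fun _ => by positivity) summable_geometric_two,
      tsum_geometric_two]
  refine (add_le_add le_rfl (add_le_add le_rfl h3)).trans ?_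
  have hlogL := Real.log_nonneg hL1
  have hlogM := Real.log_nonneg hM1
  rw [← ENNReal.ofReal_mul (by positivity), ← ENNReal.ofReal_add (by positivity) (by positivity),
    ← ENNReal.ofReal_add (by positivity) (by positivity)]
  apply ENNReal.ofReal_le_ofReal
  have h5 : 1 / L ^ 2 * (frob d₀ ^ 2 + Fintype.card (Idx m n) * σ ^ 2) ≤ 1 := by
    rw [one_div, inv_mul_le_iff₀ (by positivity), mul_one]
    simp only [Fintype.card_sum, Fintype.card_prod, Fintype.card_fin]
    push_cast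
    have h6 : frob d₀ ^ 2 ≤ 1 := pow_le_one₀ (frob_nonneg _) hd₀
    have h7 : σ ^ 2 ≤ 1 := pow_le_one₀ hσ.le hσ1
    have h8 : (m : ℝ) ≤ m * n := by nlinarith
    have h9 : (n : ℝ) ≤ m * n := by nlinarith
    have h10 : ((m : ℝ) * n + (m + n)) * σ ^ 2 ≤ 3 * (m * n) := by nlinarith
    rw [hL]
    nlinarith
  have hl2 : Real.log 2 ≤ 1 := by linarith [Real.log_two_lt_d9]
  have hlmn := Real.log_nonneg hmn
  have hlσ := Real.log_nonpos hσ.le hσ1
  have e1 : Real.log L = Real.log 2 + Real.log ((m : ℝ) * n) := by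
    rw [hL, Real.log_mul (by norm_num) (by positivity)]
  have e2 : Real.log M = 8 * Real.log 2 + 2 * Real.log ((m : ℝ) * n) - Real.log σ := by
    rw [hM, Real.log_div (by positivity) hσ.ne', Real.log_mul (by norm_num) (by positivity),
      Real.log_pow, show (256 : ℝ) = 2 ^ 8 by norm_num, Real.log_pow]
    push_cast
    ring
  rw [Real.log_div (show (m : ℝ) * n ≠ 0 by positivity) hσ.ne']
  linarith

end Pool.Agent.H468Z.Conic
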