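import Pool.Agent.H468Z.ConicKey

/-! The tail bound for the distance to ill-posedness. -/

set_option autoImplicit false

open MeasureTheory ProbabilityTheory Matrix Set
open scoped ENNReal NNReal

namespace Pool.Agent.H468Z.Conic

lemma exists_vec {R : Type} [Fintype R] [DecidableEq R] (f : (R → ℝ) →ₗ[ℝ] ℝ) (hf : f ≠ 0) :
    ∃ y : R → ℝ, y ≠ 0 ∧ ∀ v, y ⬝ᵥ v = f v := by
  have h : ∀ v, (fun i => f (fun j => if i = j then 1 else 0)) ⬝ᵥ v = f v := by
    intro v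
    rw [LinearMap.pi_apply_eq_sum_univ f v, dotProduct]
    exact Finset.sum_congr rfl (fun i _ => by rw [smul_eq_mul, mul_comm])
  refine ⟨_, fun h0 => hf (LinearMap.ext fun v => ?_), h⟩
  rw [← h v, h0, zero_dotProduct, LinearMap.zero_apply]

/-- Weak separation of a point from a convex cone in finite dimension. -/
lemma separate {R : Type} [Fintype R] [DecidableEq R] (Q : Set (R → ℝ)) (h0 : (0 : R → ℝ) ∈ Q)
    (hadd : ∀ u ∈ Q, ∀ v ∈ Q, u + v ∈ Q) (hsmul : ∀ t : ℝ, 0 ≤ t → ∀ v ∈ Q, t • v ∈ Q)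
    (b : R → ℝ) (hb : b ∉ Q) : ∃ y : R → ℝ, y ≠ 0 ∧ (∀ q ∈ Q, y ⬝ᵥ q ≤ 0) ∧ 0 ≤ y ⬝ᵥ b := by
  have hconv : Convex ℝ Q := fun u hu v hv a c ha hc _ =>
    hadd _ (hsmul a ha u hu) _ (hsmul c hc v hv)
  by_cases hint : (interior Q).Nonempty
  · obtain ⟨f, hf, hfa⟩ := geometric_hahn_banach_of_nonempty_interior_point hconv
      (fun h => hb (interior_subset h)) hint
    obtain ⟨y, hy0, hy⟩ := exists_vec (f : (R → ℝ) →ₗ[ℝ] ℝ) (fun h => hf (by
      ext v
      exact LinearMap.congr_fun h v))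
    refine ⟨y, hy0, fun q hq => ?_, ?_⟩
    · rw [hy]
      by_contra hcon
      have hpos : 0 < f q := not_le.1 hcon
      have h1 := hfa _ (hsmul ((|f b| + 1) / f q) (by positivity) q hq)
      rw [map_smul, smul_eq_mul, div_mul_cancel₀ _ hpos.ne'] at h1
      linarith [le_abs_self (f b)]
    · rw [hy]
      simpa using hfa 0 h0
  · rw [hconv.interior_nonempty_iff_affineSpan_eq_top] at hint
    have hspan : Submodule.span ℝ Q < ⊤ := by
      rw [lt_top_iff_ne_top]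
      intro h
      apply hint
      have h1 := affineSpan_insert_zero (k := ℝ) Q
      rw [insert_eq_of_mem h0, h] at h1
      exact SetLike.coe_injective (by simpa using h1)
    obtain ⟨f, hf, hker⟩ := Submodule.exists_le_ker_of_lt_top _ hspan
    obtain ⟨y, hy0, hy⟩ := exists_vec f hf
    have hq : ∀ q ∈ Q, y ⬝ᵥ q = 0 := fun q hq => by
      rw [hy]; exact hker (Submodule.subset_span hq)
    rcases le_total 0 (y ⬝ᵥ b) with h | h
    · exact ⟨y, hy0, fun q hq' => (hq q hq').le, h⟩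
    · refine ⟨-y, neg_ne_zero.2 hy0, fun q hq' => ?_, ?_⟩
      · rw [neg_dotProduct, hq q hq', neg_zero]
      · rw [neg_dotProduct]; linarith

lemma isClosedConvexCone_dual {J : Type} [Fintype J] (C : Set (J → ℝ)) :
    IsClosedConvexCone (dualCone C) where
  isClosed := by
    unfold dualCone
    simp only [ofPred_forall]
    exact isClosed_iInter fun v => isClosed_iInter fun _ =>
      isClosed_le continuous_const (by unfold dotProduct; fun_prop)
  zero_mem := fun v _ => by simp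
  add_mem := fun u hu w hw v hv => by
    rw [add_dotProduct]; exact add_nonneg (hu v hv) (hw v hv)
  smul_mem := fun t ht u hu v hv => by
    rw [smul_dotProduct]; exact mul_nonneg ht (hu v hv)

lemma IsClosedConvexCone.neg {J : Type} {C : Set (J → ℝ)} (h : IsClosedConvexCone C) :
    IsClosedConvexCone {v | -v ∈ C} where
  isClosed := h.isClosed.preimage continuous_neg
  zero_mem := by simpa using h.zero_mem
  add_mem := fun u hu v hv => by
    have := h.add_mem _ hu _ hv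
    change -(u + v) ∈ C
    rwa [neg_add]
  smul_mem := fun t ht v hv => by
    have := h.smul_mem t ht _ hv
    change -(t • v) ∈ C
    rwa [← smul_neg]

section general

variable {ι R J : Type} [Fintype ι] [DecidableEq ι] [Fintype R] [DecidableEq R] [Fintype J]
  [DecidableEq J]

/-- the homogenised cone -/
def hom (K : Set (J → ℝ)) : Set (Option J → ℝ) := {x | (fun j => x (some j)) ∈ K ∧ x none ≤ 0}

omit [Fintype J] [DecidableEq J] in
lemma IsClosedConvexCone.hom {K : Set (J → ℝ)} (h : IsClosedConvexCone K) :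
    IsClosedConvexCone (hom K) where
  isClosed := (h.isClosed.preimage (by fun_prop)).inter
    (isClosed_le (continuous_apply none) continuous_const)
  zero_mem := ⟨h.zero_mem, le_rfl⟩
  add_mem := fun _ hu _ hv => ⟨h.add_mem _ hu.1 _ hv.1, add_nonpos hu.2 hv.2⟩
  smul_mem := fun t ht _ hv => ⟨h.smul_mem t ht _ hv.1, mul_nonpos_of_nonneg_of_nonpos ht hv.2⟩

/-- feasibility of the inhomogeneous system -/
def Feas (k : R → Option J → ι) (K₁ : Set (R → ℝ)) (K₂ : Set (J → ℝ)) (d : ι → ℝ) : Prop :=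
  ∃ x ∈ K₂, mat (fun r j => k r (some j)) d *ᵥ x - (fun r => d (k r none)) ∈ K₁

omit [Fintype ι] [DecidableEq ι] [Fintype R] [DecidableEq R] [DecidableEq J] in
lemma mat_opt (k : R → Option J → ι) (d : ι → ℝ) (x : Option J → ℝ) :
    mat k d *ᵥ x = mat (fun r j => k r (some j)) d *ᵥ (fun j => x (some j)) +
      x none • (fun r => d (k r none)) := by
  funext r
  simp only [mat, mulVec, dotProduct, of_apply, Fintype.sum_option, Pi.add_apply, Pi.smul_apply,
    smul_eq_mul]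
  ring

omit [Fintype ι] [DecidableEq ι] [Fintype R] [DecidableEq R] [DecidableEq J] in
lemma feas_hom {k : R → Option J → ι} {K₁ : Set (R → ℝ)} {K₂ : Set (J → ℝ)} {d : ι → ℝ}
    (h : Feas k K₁ K₂ d) : ∃ x ∈ hom K₂, x ≠ 0 ∧ mat k d *ᵥ x ∈ K₁ := by
  obtain ⟨x, hx, hK⟩ := h
  refine ⟨fun o => o.elim (-1) x, ⟨hx, by simp⟩, fun h => ?_, ?_⟩
  · have := congrFun h none
    simp at this
  · rw [mat_opt]
    simpa [sub_eq_add_neg] using hK

omit [Fintype ι] [DecidableEq ι] [DecidableEq J] in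
lemma infeas_hom {k : R → Option J → ι} {K₁ : Set (R → ℝ)} {K₂ : Set (J → ℝ)}
    (h₁ : IsClosedConvexCone K₁) (h₂ : IsClosedConvexCone K₂) {d : ι → ℝ}
    (h : ¬ Feas k K₁ K₂ d) : ∃ y : R → ℝ, y ≠ 0 ∧ (∀ v ∈ K₁, 0 ≤ y ⬝ᵥ v) ∧
      ∀ x ∈ hom K₂, y ⬝ᵥ (mat k d *ᵥ x) ≤ 0 := by
  set B := mat (fun r j => k r (some j)) d with hB
  obtain ⟨y, hy0, hy1, hy2⟩ := separate {q | ∃ x ∈ K₂, ∃ v ∈ K₁, q = B *ᵥ x - v}
    ⟨0, h₂.zero_mem, 0, h₁.zero_mem, by simp⟩
    (by
      rintro _ ⟨x, hx, v, hv, rfl⟩ _ ⟨x', hx', v', hv', rfl⟩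
      exact ⟨x + x', h₂.add_mem _ hx _ hx', v + v', h₁.add_mem _ hv _ hv', by
        rw [mulVec_add]; abel⟩)
    (by
      rintro t ht _ ⟨x, hx, v, hv, rfl⟩
      exact ⟨t • x, h₂.smul_mem t ht _ hx, t • v, h₁.smul_mem t ht _ hv, by
        rw [mulVec_smul, smul_sub]⟩)
    (fun r => d (k r none))
    (by
      rintro ⟨x, hx, v, hv, hq⟩
      exact h ⟨x, hx, by rw [hq, ← hB]; simpa using hv⟩)
  refine ⟨y, hy0, fun v hv => ?_, fun x hx => ?_⟩
  · have := hy1 _ ⟨0, h₂.zero_mem, v, hv, rfl⟩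
    simpa using this
  · have h3 := hy1 _ ⟨_, hx.1, 0, h₁.zero_mem, rfl⟩
    rw [sub_zero] at h3
    rw [mat_opt, dotProduct_add, dotProduct_smul, smul_eq_mul, ← hB]
    have := mul_nonpos_of_nonpos_of_nonneg hx.2 hy2
    linarith

omit [Fintype ι] [DecidableEq ι] [DecidableEq R] [DecidableEq J] in
lemma swap_dot {J' : Type} [Fintype J'] (k : R → J' → ι) (d : ι → ℝ) (x : J' → ℝ) (y : R → ℝ) :
    x ⬝ᵥ (mat (fun j r => k r j) d *ᵥ y) = y ⬝ᵥ (mat k d *ᵥ x) := by
  simp only [mat, mulVec, dotProduct, of_apply, Finset.mul_sum]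
  rw [Finset.sum_comm]
  exact Finset.sum_congr rfl fun r _ => Finset.sum_congr rfl fun j _ => by ring

theorem general (k : R → Option J → ι) (hk : ∀ r j r' j', k r j = k r' j' → r = r' ∧ j = j')
    {K₁ : Set (R → ℝ)} {K₂ : Set (J → ℝ)} (h₁ : IsClosedConvexCone K₁)
    (h₂ : IsClosedConvexCone K₂) {ε : ℝ} (hε : 0 < ε) (d₀ : ι → ℝ) {σ : ℝ} (hσ : 0 < σ) :
    Measure.pi (fun i => gaussianReal (d₀ i) (Real.toNNReal (σ ^ 2)))
      {d | ∃ d' : ι → ℝ, (∀ i, |d' i - d i| ≤ ε) ∧ ¬ (Feas k K₁ K₂ d' ↔ Feas k K₁ K₂ d)} ≤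
      ENNReal.ofReal (32 * (Fintype.card R : ℝ) ^ 2 * (Fintype.card J + 1 : ℝ) ^ 2 * ε / σ) := by
  have hsub : {d | ∃ d' : ι → ℝ, (∀ i, |d' i - d i| ≤ ε) ∧ ¬ (Feas k K₁ K₂ d' ↔ Feas k K₁ K₂ d)} ⊆
      E k K₁ (hom K₂) ε ∪ E (fun j r => k r j) {w | -w ∈ dualCone (hom K₂)} (dualCone K₁) ε := by
    rintro d ⟨d', hd', hne⟩
    by_cases hd : Feas k K₁ K₂ d
    · right
      have hd2 : ¬ Feas k K₁ K₂ d' := fun h => hne (iff_of_true h hd)
      obtain ⟨y, hy0, hy1, hy2⟩ := infeas_hom h₁ h₂ hd2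
      obtain ⟨x, hx, hx0, hK⟩ := feas_hom hd
      refine ⟨⟨d', hd', y, hy1, hy0, fun x' hx' => ?_⟩, -x, neg_ne_zero.2 hx0, fun w hw => ?_,
        fun y' hy' => ?_⟩
      · rw [neg_dotProduct, dotProduct_comm, swap_dot]
        linarith [hy2 x' hx']
      · have := hw x hx
        rw [neg_dotProduct, dotProduct_comm] at this
        rwa [neg_dotProduct]
      · rw [neg_dotProduct, swap_dot]
        linarith [hy' _ hK]
    · left
      have hd2 : Feas k K₁ K₂ d' := by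
        by_contra h
        exact hne (iff_of_false h hd)
      exact ⟨⟨d', hd', feas_hom hd2⟩, infeas_hom h₁ h₂ hd⟩
  refine (measure_mono hsub).trans ((measure_union_le _ _).trans ?_)
  refine (add_le_add (key k hk h₁ h₂.hom hε d₀ hσ)
    (key (fun j r => k r j) (fun j r j' r' h => (hk r j r' j' h).symm)
      (isClosedConvexCone_dual _).neg (isClosedConvexCone_dual _) hε d₀ hσ)).trans ?_
  rw [← ENNReal.ofReal_add (by positivity) (by positivity)]
  apply le_of_eq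
  congr 1
  simp only [Fintype.card_option]
  push_cast
  ring

end general

variable {m n : ℕ}

/-- index map of the primal system -/
def kP (m n : ℕ) : Fin m → Option (Fin n) → Idx m n
  | i, some j => Sum.inl (i, j)
  | i, none => Sum.inr (Sum.inl i)

/-- index map of the dual system -/
def kD (m n : ℕ) : Fin n → Option (Fin m) → Idx m n
  | j, some i => Sum.inl (i, j)
  | j, none => Sum.inr (Sum.inr j)

lemma kP_inj : ∀ r j r' j', kP m n r j = kP m n r' j' → r = r' ∧ j = j' := by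
  rintro r (_ | j) r' (_ | j') h <;> simp_all [kP]

lemma kD_inj : ∀ r j r' j', kD m n r j = kD m n r' j' → r = r' ∧ j = j' := by
  rintro r (_ | j) r' (_ | j') h <;> simp_all [kD]

lemma primal_iff (C₁ : Set (Fin m → ℝ)) (C₂ : Set (Fin n → ℝ)) (d : Data m n) :
    PrimalFeasible C₁ C₂ d ↔ Feas (kP m n) C₁ C₂ d := Iff.rfl

lemma dual_iff (C₁ : Set (Fin m → ℝ)) (C₂ : Set (Fin n → ℝ)) (d : Data m n) :
    DualFeasible C₁ C₂ d ↔ Feas (kD m n) {w | -w ∈ dualCone C₂} (dualCone C₁) d := by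
  unfold DualFeasible Feas
  simp only [mem_ofPred_eq, neg_sub]
  rfl

lemma abs_le_frob (e : Data m n) (i : Idx m n) : |e i| ≤ frob e := by
  apply Real.abs_le_sqrt
  exact Finset.single_le_sum (f := fun k => e k ^ 2) (fun _ _ => sq_nonneg _) (Finset.mem_univ i)

theorem tail (hm : 1 ≤ m) (hn : 1 ≤ n) {C₁ : Set (Fin m → ℝ)} {C₂ : Set (Fin n → ℝ)}
    (h₁ : IsClosedConvexCone C₁) (h₂ : IsClosedConvexCone C₂) (d₀ : Data m n) {σ : ℝ}
    (hσ : 0 < σ) {ε : ℝ} (hε : 0 < ε) :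
    perturbation d₀ σ {d | rho C₁ C₂ d < ENNReal.ofReal ε} ≤
      ENNReal.ofReal (256 * ((m : ℝ) * n) ^ 2 / σ * ε) := by
  have hsub : {d | rho C₁ C₂ d < ENNReal.ofReal ε} ⊆
      {d | ∃ d' : Data m n, (∀ i, |d' i - d i| ≤ ε) ∧
        ¬ (Feas (kP m n) C₁ C₂ d' ↔ Feas (kP m n) C₁ C₂ d)} ∪
      {d | ∃ d' : Data m n, (∀ i, |d' i - d i| ≤ ε) ∧
        ¬ (Feas (kD m n) {w | -w ∈ dualCone C₂} (dualCone C₁) d' ↔
          Feas (kD m n) {w | -w ∈ dualCone C₂} (dualCone C₁) d)} := by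
    intro d hd
    have h3 : ¬ Stable C₁ C₂ d ε := by
      intro hs
      have hd' : rho C₁ C₂ d < ENNReal.ofReal ε := hd
      refine absurd hd' (not_lt.2 ?_)
      exact le_iSup_of_le ε (le_iSup_of_le hε.le (le_iSup_of_le hs le_rfl))
    unfold Stable at h3
    push Not at h3
    obtain ⟨e, he, h4⟩ := h3
    have h5 : ∀ i, |(d + e) i - d i| ≤ ε := fun i => by
      rw [Pi.add_apply, add_sub_cancel_left]
      exact (abs_le_frob e i).trans he
    by_cases hP : PrimalFeasible C₁ C₂ (d + e) ↔ PrimalFeasible C₁ C₂ d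
    · right
      refine ⟨d + e, h5, ?_⟩
      rw [← dual_iff, ← dual_iff]
      have := h4 hP
      tauto
    · left
      exact ⟨d + e, h5, hP⟩
  unfold perturbation
  refine (measure_mono hsub).trans ((measure_union_le _ _).trans ?_)
  refine (add_le_add (general _ kP_inj h₁ h₂ hε d₀ hσ)
    (general _ kD_inj (isClosedConvexCone_dual _).neg (isClosedConvexCone_dual _) hε d₀ hσ)).trans ?_
  rw [← ENNReal.ofReal_add (by positivity) (by positivity)]
  apply ENNReal.ofReal_le_ofReal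
  simp only [Fintype.card_fin]
  have hm' : (1 : ℝ) ≤ m := by exact_mod_cast hm
  have hn' : (1 : ℝ) ≤ n := by exact_mod_cast hn
  have h3 : ((n : ℝ) + 1) ^ 2 ≤ 4 * n ^ 2 := by nlinarith
  have h4 : ((m : ℝ) + 1) ^ 2 ≤ 4 * m ^ 2 := by nlinarith
  have h5 : 32 * (m : ℝ) ^ 2 * (n + 1) ^ 2 + 32 * (n : ℝ) ^ 2 * (m + 1) ^ 2 ≤
      256 * ((m : ℝ) * n) ^ 2 := by
    nlinarith [mul_le_mul_of_nonneg_left h3 (sq_nonneg (m : ℝ)),
      mul_le_mul_of_nonneg_left h4 (sq_nonneg (n : ℝ))]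
  have h6 := mul_le_mul_of_nonneg_right h5 (show 0 ≤ ε / σ by positivity)
  calc _ = (32 * (m : ℝ) ^ 2 * (n + 1) ^ 2 + 32 * (n : ℝ) ^ 2 * (m + 1) ^ 2) * (ε / σ) := by ring
    _ ≤ 256 * ((m : ℝ) * n) ^ 2 * (ε / σ) := h6
    _ = _ := by ring

end Pool.Agent.H468Z.Conic
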