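import Mathlib

/-!
Partial sums of a multiplicative function with non-vanishing Euler factors are not eventually
bounded by `1 / (8 n)`.
-/

set_option autoImplicit false

open Finset Filter Topology

namespace Pool.Agent.H468Z.MO

/-- `n ^ (-σ)` -/
noncomputable def a (σ : ℝ) (n : ℕ) : ℝ := Real.exp (-(σ * Real.log n))

/-- `n ^ (-1 - σ)` -/
noncomputable def h (σ : ℝ) (n : ℕ) : ℝ := a σ n / n

lemma a_pos (σ : ℝ) (n : ℕ) : 0 < a σ n := Real.exp_pos _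

lemma a_le_one {σ : ℝ} (hσ : 0 ≤ σ) (n : ℕ) : a σ n ≤ 1 := by
  unfold a
  rw [Real.exp_le_one_iff]
  have := mul_nonneg hσ (Real.log_natCast_nonneg n)
  linarith

lemma a_one (σ : ℝ) : a σ 1 = 1 := by simp [a]

lemma a_mul (σ : ℝ) {m n : ℕ} (hm : m ≠ 0) (hn : n ≠ 0) : a σ (m * n) = a σ m * a σ n := by
  unfold a
  rw [← Real.exp_add, Nat.cast_mul, Real.log_mul (by exact_mod_cast hm) (by exact_mod_cast hn)]
  congr 1
  ring

lemma h_zero (σ : ℝ) : h σ 0 = 0 := by simp [h]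

lemma h_one (σ : ℝ) : h σ 1 = 1 := by simp [h, a_one]

lemma h_nonneg (σ : ℝ) (n : ℕ) : 0 ≤ h σ n := div_nonneg (a_pos σ n).le (Nat.cast_nonneg n)

lemma h_mul (σ : ℝ) (m n : ℕ) : h σ (m * n) = h σ m * h σ n := by
  rcases eq_or_ne m 0 with rfl | hm
  · simp [h_zero]
  rcases eq_or_ne n 0 with rfl | hn
  · simp [h_zero]
  unfold h
  rw [a_mul σ hm hn, Nat.cast_mul, div_mul_div_comm]

lemma h_pow (σ : ℝ) (p e : ℕ) : h σ (p ^ e) = h σ p ^ e := by
  induction e with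
  | zero => simp [h_one]
  | succ e ih => rw [pow_succ, h_mul, ih, pow_succ]

lemma h_le {σ : ℝ} (hσ : 0 ≤ σ) (n : ℕ) : h σ n ≤ 1 / n :=
  div_le_div_of_nonneg_right (a_le_one hσ n) (Nat.cast_nonneg n)

lemma log_diff {n : ℕ} (hn : 1 ≤ n) :
    1 / ((n : ℝ) + 1) ≤ Real.log ((n + 1 : ℕ) : ℝ) - Real.log n ∧
      Real.log ((n + 1 : ℕ) : ℝ) - Real.log n ≤ 1 / n := by
  have hn0 : (0 : ℝ) < n := by exact_mod_cast hn
  push_cast
  constructor
  · have h1 := Real.log_le_sub_one_of_pos (show (0 : ℝ) < n / (n + 1) by positivity)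
    rw [Real.log_div hn0.ne' (by positivity)] at h1
    have h2 : (n : ℝ) / (n + 1) - 1 = -(1 / (n + 1)) := by field_simp; ring
    linarith
  · have h1 := Real.log_le_sub_one_of_pos (show (0 : ℝ) < (n + 1) / n by positivity)
    rw [Real.log_div (by positivity) hn0.ne'] at h1
    have h2 : ((n : ℝ) + 1) / n - 1 = 1 / n := by field_simp; ring
    linarith

lemma a_diff {σ : ℝ} (hσ : 0 ≤ σ) {n : ℕ} (hn : 1 ≤ n) :
    σ * h σ (n + 1) ≤ a σ n - a σ (n + 1) ∧ a σ n - a σ (n + 1) ≤ σ / n := by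
  obtain ⟨h1, h2⟩ := log_diff hn
  set d := Real.log ((n + 1 : ℕ) : ℝ) - Real.log n with hd
  have e1 : a σ n = a σ (n + 1) * Real.exp (σ * d) := by
    unfold a
    rw [← Real.exp_add, hd]
    congr 1
    ring
  have e2 : a σ (n + 1) = a σ n * Real.exp (-(σ * d)) := by
    unfold a
    rw [← Real.exp_add, hd]
    congr 1
    ring
  have hp1 := a_pos σ (n + 1)
  have hp2 := a_pos σ n
  have hd0 : 0 ≤ d := le_trans (by positivity) h1
  constructor
  · have h3 := Real.add_one_le_exp (σ * d)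
    have h4 : σ * h σ (n + 1) = a σ (n + 1) * (σ * (1 / ((n : ℝ) + 1))) := by
      unfold h
      push_cast
      ring
    have h5 : σ * (1 / ((n : ℝ) + 1)) ≤ σ * d := mul_le_mul_of_nonneg_left h1 hσ
    rw [h4]
    nth_rewrite 1 [e1]
    nlinarith
  · have h3 := Real.add_one_le_exp (-(σ * d))
    have h4 : σ * d ≤ σ / n := by
      have := mul_le_mul_of_nonneg_left h2 hσ
      rwa [mul_one_div] at this
    have h5 := a_le_one hσ n
    have h6 : 0 ≤ σ * d := mul_nonneg hσ hd0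
    rw [e2]
    nlinarith

lemma sum_h_le {σ : ℝ} (hσ : 0 < σ) (N : ℕ) : ∑ i ∈ range N, h σ i ≤ 1 + 1 / σ := by
  have key : ∀ M : ℕ, σ * ∑ i ∈ range (M + 2), h σ i ≤ σ + (1 - a σ (M + 1)) := by
    intro M
    induction M with
    | zero => simp [sum_range_succ, h_zero, h_one, a_one]
    | succ M ih =>
      rw [sum_range_succ, mul_add]
      have := (a_diff hσ.le (show 1 ≤ M + 1 by omega)).1
      linarith
  have h1 : ∑ i ∈ range N, h σ i ≤ ∑ i ∈ range (N + 2), h σ i :=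
    sum_le_sum_of_subset_of_nonneg (range_mono (by omega)) (fun i _ _ => h_nonneg σ i)
  have h2 := key N
  have h3 := a_pos σ (N + 1)
  have h4 : σ * ∑ i ∈ range (N + 2), h σ i ≤ σ * (1 + 1 / σ) := by
    rw [mul_add, mul_one, mul_one_div_cancel hσ.ne']
    linarith
  exact h1.trans (le_of_mul_le_mul_left h4 hσ)

lemma summable_h {σ : ℝ} (hσ : 0 < σ) : Summable (h σ) :=
  summable_of_sum_range_le (h_nonneg σ) (sum_h_le hσ)

lemma tsum_h_le {σ : ℝ} (hσ : 0 < σ) : ∑' n, h σ n ≤ 1 + 1 / σ :=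
  Real.tsum_le_of_sum_range_le (h_nonneg σ) (sum_h_le hσ)

lemma h_prime_lt {σ : ℝ} (hσ : 0 ≤ σ) {p : ℕ} (hp : 2 ≤ p) : h σ p ≤ 1 / 2 := by
  refine (h_le hσ p).trans ?_
  apply one_div_le_one_div_of_le (by norm_num)
  exact_mod_cast hp

lemma euler_h {σ : ℝ} (hσ : 0 < σ) :
    Tendsto (fun n : ℕ => ∏ p ∈ Nat.primesBelow n, (1 - h σ p)⁻¹) atTop (𝓝 (∑' n, h σ n)) := by
  have h1 := EulerProduct.eulerProduct (f := h σ) (h_one σ) (fun {m n} _ => h_mul σ m n)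
    (by simpa [abs_of_nonneg (h_nonneg σ _)] using summable_h hσ) (h_zero σ)
  refine h1.congr (fun n => prod_congr rfl (fun p hp => ?_))
  have hp2 := (Nat.prime_of_mem_primesBelow hp).two_le
  simp only [h_pow]
  exact tsum_geometric_of_lt_one (h_nonneg σ p) (by linarith [h_prime_lt hσ.le hp2])

section main

variable (f : ℕ → ℂ)

/-- partial sums -/
noncomputable def s (n : ℕ) : ℂ := ∑ i ∈ range (n + 1), f i

/-- the twisted function -/
noncomputable def g (σ : ℝ) (n : ℕ) : ℂ := f n * (a σ n : ℂ)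

lemma abel (σ : ℝ) (N : ℕ) : ∑ i ∈ range (N + 1), g f σ i =
    s f N * (a σ (N + 1) : ℂ) + ∑ i ∈ range (N + 1), s f i * ((a σ i - a σ (i + 1) : ℝ) : ℂ) := by
  induction N with
  | zero =>
    simp [s, g]
    ring
  | succ N ih =>
    rw [sum_range_succ, ih, sum_range_succ _ (N + 1)]
    have : s f (N + 1) = s f N + f (N + 1) := by simp [s, sum_range_succ]
    rw [this]
    simp only [g]
    push_cast
    ring

lemma abel_bound (h0 : f 0 = 0) {C : ℝ} (hC0 : 0 ≤ C) (hC : ∀ n : ℕ, (n : ℝ) * ‖s f n‖ ≤ C)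
    {σ : ℝ} (hσ : 0 ≤ σ) (N : ℕ) :
    ‖∑ i ∈ range (N + 1), s f i * ((a σ i - a σ (i + 1) : ℝ) : ℂ)‖ ≤
      2 * C * σ * (1 - 1 / ((N : ℝ) + 1)) := by
  induction N with
  | zero => simp [s, h0]
  | succ N ih =>
    rw [sum_range_succ]
    refine (norm_add_le _ _).trans ?_
    obtain ⟨h1, h2⟩ := a_diff hσ (show 1 ≤ N + 1 by omega)
    have h3 : 0 ≤ a σ (N + 1) - a σ (N + 1 + 1) :=
      le_trans (mul_nonneg hσ (h_nonneg σ _)) h1
    rw [norm_mul, Complex.norm_real, Real.norm_eq_abs, abs_of_nonneg h3]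
    have h4 := hC (N + 1)
    push_cast at h2 h4 ih ⊢
    have hN : (0 : ℝ) < (N : ℝ) + 1 := by positivity
    have h5 : ‖s f (N + 1)‖ ≤ C / ((N : ℝ) + 1) := by
      rw [le_div_iff₀ hN]; linarith
    have h6 : ‖s f (N + 1)‖ * (a σ (N + 1) - a σ (N + 1 + 1)) ≤
        C / ((N : ℝ) + 1) * (σ / ((N : ℝ) + 1)) :=
      mul_le_mul h5 h2 h3 (by positivity)
    have h7 : C / ((N : ℝ) + 1) * (σ / ((N : ℝ) + 1)) ≤
        2 * C * σ * (1 / ((N : ℝ) + 1) - 1 / ((N : ℝ) + 1 + 1)) := by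
      have h8 : 1 / ((N : ℝ) + 1) * (1 / ((N : ℝ) + 1)) ≤
          2 * (1 / ((N : ℝ) + 1) - 1 / ((N : ℝ) + 1 + 1)) := by
        rw [div_sub_div _ _ hN.ne' (by positivity), div_mul_div_comm, ← mul_div_assoc,
          div_le_div_iff₀ (by positivity) (by positivity)]
        nlinarith [(Nat.cast_nonneg N : (0 : ℝ) ≤ N)]
      have h9 : C / ((N : ℝ) + 1) * (σ / ((N : ℝ) + 1)) =
          C * σ * (1 / ((N : ℝ) + 1) * (1 / ((N : ℝ) + 1))) := by ring
      rw [h9]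
      have := mul_le_mul_of_nonneg_left h8 (mul_nonneg hC0 hσ)
      linarith
    linarith

lemma norm_g (σ : ℝ) (n : ℕ) : ‖g f σ n‖ = ‖f n‖ * a σ n := by
  rw [g, norm_mul, Complex.norm_real, Real.norm_eq_abs, abs_of_pos (a_pos σ n)]

lemma norm_g_le {σ D : ℝ} {n : ℕ} (hn : n ≠ 0) (hD : (n : ℝ) * ‖f n‖ ≤ D) :
    ‖g f σ n‖ ≤ D * h σ n := by
  have hn0 : (0 : ℝ) < n := by exact_mod_cast Nat.pos_of_ne_zero hn
  rw [norm_g, h, ← mul_div_assoc, le_div_iff₀ hn0]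
  have := mul_le_mul_of_nonneg_right hD (a_pos σ n).le
  linarith

lemma f_bound {n : ℕ} {c : ℝ} (hn : 1 ≤ n) (h1 : (n : ℝ) * ‖s f n‖ ≤ c)
    (h2 : ((n + 1 : ℕ) : ℝ) * ‖s f (n + 1)‖ ≤ c) : ((n + 1 : ℕ) : ℝ) * ‖f (n + 1)‖ ≤ 3 * c := by
  have e : f (n + 1) = s f (n + 1) - s f n := by simp [s, sum_range_succ]
  have h3 : ‖f (n + 1)‖ ≤ ‖s f (n + 1)‖ + ‖s f n‖ := by
    rw [e]; exact norm_sub_le _ _
  have hn1 : (1 : ℝ) ≤ n := by exact_mod_cast hn
  push_cast at h2 ⊢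
  have h4 := norm_nonneg (s f n)
  nlinarith

theorem main (h0 : f 0 = 0) (h1 : f 1 = 1)
    (hmul : ∀ {m n : ℕ}, Nat.Coprime m n → f (m * n) = f m * f n)
    (hp : ∀ p : ℕ, p.Prime → ∃ b : ℂ, b ≠ 0 ∧
      Tendsto (fun K : ℕ => ∑ k ∈ range K, f (p ^ k)) atTop (𝓝 b))
    (N₀ : ℕ) (hs : ∀ n ≥ N₀, (n : ℝ) * ‖s f n‖ ≤ 1 / 8) : False := by
  -- a global bound
  obtain ⟨C, hC0, hC⟩ : ∃ C : ℝ, 1 ≤ C ∧ ∀ n : ℕ, (n : ℝ) * ‖s f n‖ ≤ C := by
    refine ⟨1 + ∑ i ∈ range N₀, (i : ℝ) * ‖s f i‖, ?_, fun n => ?_⟩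
    · have : 0 ≤ ∑ i ∈ range N₀, (i : ℝ) * ‖s f i‖ := sum_nonneg (fun i _ => by positivity)
      linarith
    · have h2 : 0 ≤ ∑ i ∈ range N₀, (i : ℝ) * ‖s f i‖ := sum_nonneg (fun i _ => by positivity)
      rcases lt_or_ge n N₀ with hn | hn
      · have := single_le_sum (f := fun i : ℕ => (i : ℝ) * ‖s f i‖)
          (fun i _ => by positivity) (mem_range.2 hn)
        linarith
      · linarith [hs n hn]
  have hD : ∀ n : ℕ, (n : ℝ) * ‖f n‖ ≤ 3 * C := by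
    intro n
    rcases n with _ | _ | n
    · simp; linarith
    · simp [h1]; linarith
    · exact f_bound f (by omega) (hC _) (hC _)
  set P := N₀ + 4 with hP
  have hE : ∀ n ≥ P, (n : ℝ) * ‖f n‖ ≤ 3 / 8 := by
    intro n hn
    obtain ⟨m, rfl⟩ : ∃ m, n = m + 1 := ⟨n - 1, by omega⟩
    have := f_bound f (show 1 ≤ m by omega) (hs m (by omega)) (hs (m + 1) (by omega))
    linarith
  have hg0 : ∀ σ, g f σ 0 = 0 := fun σ => by simp [g, h0]
  have hg1 : ∀ σ, g f σ 1 = 1 := fun σ => by simp [g, h1, a_one]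
  have hgD : ∀ σ n, ‖g f σ n‖ ≤ 3 * C * h σ n := by
    intro σ n
    rcases eq_or_ne n 0 with rfl | hn
    · simp [hg0, h_zero]
    · exact norm_g_le f hn (hD n)
  have hgsum : ∀ σ > 0, Summable (fun n => ‖g f σ n‖) := fun σ hσ =>
    Summable.of_nonneg_of_le (fun _ => norm_nonneg _) (hgD σ) ((summable_h hσ).mul_left _)
  have hgmul : ∀ σ, ∀ {m n : ℕ}, Nat.Coprime m n → g f σ (m * n) = g f σ m * g f σ n := by
    intro σ m n hmn
    rcases eq_or_ne m 0 with rfl | hm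
    · simp [hg0]
    rcases eq_or_ne n 0 with rfl | hn
    · simp [hg0]
    simp only [g]
    rw [hmul hmn, a_mul σ hm hn]
    push_cast
    ring
  -- upper bound
  have hup : ∀ σ > 0, ‖∑' n, g f σ n‖ ≤ 2 * C * σ := by
    intro σ hσ
    have t1 : Tendsto (fun N : ℕ => ‖∑ i ∈ range (N + 1), g f σ i‖) atTop (𝓝 ‖∑' n, g f σ n‖) :=
      ((tendsto_add_atTop_iff_nat 1).2 (hgsum σ hσ).of_norm.hasSum.tendsto_sum_nat).norm
    have t2 : Tendsto (fun N : ℕ => C / (N : ℝ) + 2 * C * σ) atTop (𝓝 (0 + 2 * C * σ)) :=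
      (tendsto_const_div_atTop_nhds_zero_nat C).add tendsto_const_nhds
    rw [zero_add] at t2
    refine le_of_tendsto_of_tendsto t1 t2 ?_
    filter_upwards [eventually_ge_atTop 1] with N hN
    rw [abel]
    refine (norm_add_le _ _).trans (add_le_add ?_ ?_)
    · rw [norm_mul, Complex.norm_real, Real.norm_eq_abs, abs_of_pos (a_pos σ _)]
      have hN0 : (0 : ℝ) < N := by exact_mod_cast hN
      rw [le_div_iff₀ hN0]
      have h2 := hC N
      have h3 := a_le_one hσ.le (N + 1)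
      have h4 : 0 ≤ (N : ℝ) * ‖s f N‖ := by positivity
      nlinarith
    · refine (abel_bound f h0 (by linarith) hC hσ.le N).trans ?_
      have h2 : 0 ≤ 1 / ((N : ℝ) + 1) := by positivity
      have h3 : 0 ≤ 2 * C * σ := by positivity
      nlinarith
  -- local factors
  let F : ℝ → ℕ → ℂ := fun σ p => ∑' e, g f σ (p ^ e)
  have hgeo : ∀ σ ≥ 0, ∀ p : ℕ, 2 ≤ p → Summable (fun e : ℕ => h σ p ^ e) := fun σ hσ p hp =>
    summable_geometric_of_lt_one (h_nonneg σ p) (by linarith [h_prime_lt hσ hp])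
  have hFsum : ∀ σ ≥ 0, ∀ p : ℕ, 2 ≤ p → Summable (fun e : ℕ => g f σ (p ^ e)) := by
    intro σ hσ p hp
    refine Summable.of_norm_bounded ((hgeo σ hσ p hp).mul_left (3 * C)) (fun e => ?_)
    rw [← h_pow]
    exact hgD σ _
  have hbig : ∀ σ > 0, ∀ p : ℕ, P ≤ p → 1 ≤ ‖F σ p‖ ^ 2 * (1 - h σ p)⁻¹ := by
    intro σ hσ p hp
    have hp2 : 2 ≤ p := by omega
    set x := h σ p with hx
    have hx0 : 0 ≤ x := h_nonneg σ p
    have hx4 : x ≤ 1 / 4 := by
      refine (h_le hσ.le p).trans ?_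
      apply one_div_le_one_div_of_le (by norm_num)
      exact_mod_cast (show 4 ≤ p by omega)
    have e1 : F σ p = 1 + ∑' e, g f σ (p ^ (e + 1)) := by
      simp only [F]
      rw [(hFsum σ hσ.le p hp2).tsum_eq_zero_add, pow_zero, hg1]
    have hsum : HasSum (fun e : ℕ => 3 / 8 * x * x ^ e) (3 / 8 * x * (1 - x)⁻¹) :=
      (hasSum_geometric_of_lt_one hx0 (by linarith)).mul_left _
    have e2 : ‖∑' e, g f σ (p ^ (e + 1))‖ ≤ 3 / 8 * x * (1 - x)⁻¹ := by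
      refine tsum_of_norm_bounded hsum (fun e => ?_)
      have h2 : P ≤ p ^ (e + 1) := hp.trans (Nat.le_self_pow (by omega) p)
      have h3 := norm_g_le f (σ := σ) (show p ^ (e + 1) ≠ 0 by positivity) (hE _ h2)
      rw [h_pow, ← hx, pow_succ x] at h3
      linarith
    have e3 : 3 / 8 * x * (1 - x)⁻¹ ≤ x / 2 := by
      rw [← div_eq_mul_inv, div_le_iff₀ (by linarith)]
      nlinarith
    have e4 : 1 - x / 2 ≤ ‖F σ p‖ := by
      have h2 : ‖(1 : ℂ)‖ ≤ ‖F σ p‖ + ‖∑' e, g f σ (p ^ (e + 1))‖ := by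
        rw [e1]
        have := norm_sub_le (1 + ∑' e, g f σ (p ^ (e + 1))) (∑' e, g f σ (p ^ (e + 1)))
        rwa [add_sub_cancel_right] at this
      rw [norm_one] at h2
      linarith
    have e5 : (1 - x / 2) ^ 2 ≤ ‖F σ p‖ ^ 2 := pow_le_pow_left₀ (by linarith) e4 2
    rw [← div_eq_mul_inv, le_div_iff₀ (by linarith)]
    nlinarith
  have hlow : ∀ σ > 0, ‖∏ p ∈ Nat.primesBelow P, F σ p‖ ^ 2 ≤ ‖∑' n, g f σ n‖ ^ 2 * ∑' n, h σ n := by
    intro σ hσ
    have t1 := EulerProduct.eulerProduct (f := g f σ) (hg1 σ) (hgmul σ) (hgsum σ hσ) (hg0 σ)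
    have t2 := (t1.norm.pow 2).mul (euler_h hσ)
    refine ge_of_tendsto t2 ?_
    filter_upwards [eventually_ge_atTop P] with n hn
    have hsub : Nat.primesBelow P ⊆ Nat.primesBelow n := by
      intro p hp
      rw [Nat.mem_primesBelow] at hp ⊢
      exact ⟨by omega, hp.2⟩
    have hone : ∀ p ∈ Nat.primesBelow n, 1 ≤ (1 - h σ p)⁻¹ := by
      intro p hp
      have hp2 := (Nat.prime_of_mem_primesBelow hp).two_le
      have := h_prime_lt hσ.le hp2
      apply one_le_inv₀ (by linarith) |>.2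
      linarith [h_nonneg σ p]
    rw [norm_prod, norm_prod, ← prod_pow, ← prod_pow, ← prod_mul_distrib, ← prod_sdiff hsub]
    have h2 : 1 ≤ ∏ p ∈ Nat.primesBelow n \ Nat.primesBelow P, (‖F σ p‖ ^ 2 * (1 - h σ p)⁻¹) := by
      refine le_trans (prod_const_one).ge
        (prod_le_prod (fun _ _ => zero_le_one) (fun p hp => hbig σ hσ p ?_))
      rw [Finset.mem_sdiff, Nat.mem_primesBelow, Nat.mem_primesBelow] at hp
      by_contra hcon
      exact hp.2 ⟨by omega, hp.1.2⟩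
    have h3 : ∏ p ∈ Nat.primesBelow P, ‖F σ p‖ ^ 2 ≤
        ∏ p ∈ Nat.primesBelow P, (‖F σ p‖ ^ 2 * (1 - h σ p)⁻¹) := by
      refine prod_le_prod (fun p _ => by positivity) (fun p hp => ?_)
      exact le_mul_of_one_le_right (by positivity) (hone p (hsub hp))
    have h4 : 0 ≤ ∏ p ∈ Nat.primesBelow P, ‖F σ p‖ ^ 2 := prod_nonneg (fun p _ => by positivity)
    exact h3.trans (le_mul_of_one_le_left (h4.trans h3) h2)
  -- limits as σ tends to zero
  have hlim : ∀ p : ℕ, p.Prime → Tendsto (fun σ => F σ p) (𝓝[>] 0) (𝓝 (∑' e, f (p ^ e))) := by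
    intro p hpp
    refine tendsto_tsum_of_dominated_convergence (bound := fun e : ℕ => 3 * C * h 0 p ^ e)
      ((hgeo 0 le_rfl p hpp.two_le).mul_left _) (fun e => ?_) ?_
    · have hc : Continuous (fun σ : ℝ => g f σ (p ^ e)) := by
        unfold g a
        fun_prop
      have := (hc.tendsto 0).mono_left (nhdsWithin_le_nhds (s := Set.Ioi 0))
      simpa [g, a] using this
    · filter_upwards [self_mem_nhdsWithin] with σ hσ e
      refine (hgD σ _).trans ?_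
      rw [← h_pow]
      refine mul_le_mul_of_nonneg_left ?_ (by linarith)
      refine (h_le (le_of_lt hσ) _).trans ?_
      simp [h, a]
  have hne : ∀ p : ℕ, p.Prime → ∑' e, f (p ^ e) ≠ 0 := by
    intro p hpp
    obtain ⟨b, hb, hbt⟩ := hp p hpp
    have h2 := hFsum 0 le_rfl p hpp.two_le
    have h3 : Summable (fun e : ℕ => f (p ^ e)) := by simpa [g, a] using h2
    rw [tendsto_nhds_unique h3.hasSum.tendsto_sum_nat hbt]
    exact hb
  have t1 : Tendsto (fun σ => ‖∏ p ∈ Nat.primesBelow P, F σ p‖ ^ 2) (𝓝[>] 0)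
      (𝓝 (‖∏ p ∈ Nat.primesBelow P, ∑' e, f (p ^ e)‖ ^ 2)) :=
    ((tendsto_finsetProd _ (fun p hp => hlim p (Nat.prime_of_mem_primesBelow hp))).norm).pow 2
  have t2 : Tendsto (fun σ : ℝ => 4 * C ^ 2 * (σ ^ 2 + σ)) (𝓝[>] 0) (𝓝 0) := by
    have hc : Continuous (fun σ : ℝ => 4 * C ^ 2 * (σ ^ 2 + σ)) := by fun_prop
    have := (hc.tendsto 0).mono_left (nhdsWithin_le_nhds (s := Set.Ioi 0))
    simpa using this
  have hle : ‖∏ p ∈ Nat.primesBelow P, ∑' e, f (p ^ e)‖ ^ 2 ≤ 0 := by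
    refine le_of_tendsto_of_tendsto t1 t2 ?_
    filter_upwards [self_mem_nhdsWithin] with σ hσ
    have hσ' : 0 < σ := hσ
    refine (hlow σ hσ').trans ?_
    have h2 : ‖∑' n, g f σ n‖ ^ 2 ≤ (2 * C * σ) ^ 2 :=
      pow_le_pow_left₀ (norm_nonneg _) (hup σ hσ') 2
    have h3 := tsum_h_le hσ'
    have h4 : 0 ≤ ∑' n, h σ n := tsum_nonneg (h_nonneg σ)
    calc ‖∑' n, g f σ n‖ ^ 2 * ∑' n, h σ n ≤ (2 * C * σ) ^ 2 * (1 + 1 / σ) :=
          mul_le_mul h2 h3 h4 (by positivity)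
      _ = 4 * C ^ 2 * (σ ^ 2 + σ) := by field_simp; ring
  have hpos : 0 < ‖∏ p ∈ Nat.primesBelow P, ∑' e, f (p ^ e)‖ ^ 2 := by
    have : ∏ p ∈ Nat.primesBelow P, ∑' e, f (p ^ e) ≠ 0 :=
      prod_ne_zero_iff.2 (fun p hp => hne p (Nat.prime_of_mem_primesBelow hp))
    positivity
  linarith

end main

end Pool.Agent.H468Z.MO
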