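import Mathlib

/-!
Test functions in `ℝ³`, the Sobolev and Hardy inequalities, and limits of test functions.
-/

set_option autoImplicit false

open MeasureTheory Filter Topology
open scoped InnerProductSpace ENNReal NNReal

namespace Pool.Agent.H468Z.Poh

/-- Euclidean three-space. -/
abbrev E3 : Type := EuclideanSpace ℝ (Fin 3)

/-- Smooth compactly supported functions in `Ω`. -/
def Test (Ω : Set E3) (φ : E3 → ℝ) : Prop :=
  ContDiff ℝ ((⊤ : ℕ∞) : WithTop ℕ∞) φ ∧ HasCompactSupport φ ∧ tsupport φ ⊆ Ω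

lemma fatou_real {g : ℕ → E3 → ℝ} {g₀ : E3 → ℝ} {c : ℕ → ℝ} {c₀ : ℝ}
    (hg0 : ∀ n x, 0 ≤ g n x) (hint : ∀ n, Integrable (g n))
    (hlim : ∀ᵐ x, Tendsto (fun n => g n x) atTop (𝓝 (g₀ x))) (hc : Tendsto c atTop (𝓝 c₀))
    (hle : ∀ n, ∫ x, g n x ≤ c n) : Integrable g₀ ∧ ∫ x, g₀ x ≤ c₀ := by
  have hm : AEStronglyMeasurable g₀ volume :=
    aestronglyMeasurable_of_tendsto_ae atTop (fun n => (hint n).1) hlim
  have h0 : 0 ≤ᵐ[volume] g₀ := by
    filter_upwards [hlim] with x hx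
    exact ge_of_tendsto' hx (fun n => hg0 n x)
  have hc0 : 0 ≤ c₀ := ge_of_tendsto' hc (fun n => (integral_nonneg (hg0 n)).trans (hle n))
  have h1 : ∫⁻ x, ENNReal.ofReal (g₀ x) ≤ ENNReal.ofReal c₀ := by
    calc ∫⁻ x, ENNReal.ofReal (g₀ x)
        = ∫⁻ x, liminf (fun n => ENNReal.ofReal (g n x)) atTop := by
          refine lintegral_congr_ae ?_
          filter_upwards [hlim] with x hx
          exact ((ENNReal.tendsto_ofReal hx).liminf_eq).symm
      _ ≤ liminf (fun n => ∫⁻ x, ENNReal.ofReal (g n x)) atTop :=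
          lintegral_liminf_le' (fun n => (hint n).1.aemeasurable.ennreal_ofReal)
      _ ≤ liminf (fun n => ENNReal.ofReal (c n)) atTop := by
          refine liminf_le_liminf (Eventually.of_forall fun n => ?_)
          rw [← ofReal_integral_eq_lintegral_ofReal (hint n) (Eventually.of_forall (hg0 n))]
          exact ENNReal.ofReal_le_ofReal (hle n)
      _ = ENNReal.ofReal c₀ := (ENNReal.tendsto_ofReal hc).liminf_eq
  have hi : Integrable g₀ := by
    refine ⟨hm, ?_⟩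
    rw [hasFiniteIntegral_iff_ofReal h0]
    exact h1.trans_lt ENNReal.ofReal_lt_top
  refine ⟨hi, ?_⟩
  rw [← ENNReal.ofReal_le_ofReal_iff hc0, ofReal_integral_eq_lintegral_ofReal hi h0]
  exact h1

lemma norm_gradient (φ : E3 → ℝ) (x : E3) : ‖gradient φ x‖ = ‖fderiv ℝ φ x‖ := by
  rw [← toDual_gradient, LinearIsometryEquiv.norm_map]

variable {Ω : Set E3}

lemma Test.diff {φ : E3 → ℝ} (h : Test Ω φ) : Differentiable ℝ φ :=
  h.1.differentiable (by simp)

lemma Test.one {φ : E3 → ℝ} (h : Test Ω φ) : ContDiff ℝ 1 φ := h.1.of_le (by simp)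

lemma Test.cont_grad {φ : E3 → ℝ} (h : Test Ω φ) : Continuous (gradient φ) :=
  (InnerProductSpace.toDual ℝ E3).symm.continuous.comp (h.one.continuous_fderiv one_ne_zero)

lemma Test.grad_zero {φ : E3 → ℝ} {x : E3} (hx : x ∉ tsupport φ) : gradient φ x = 0 := by
  have : fderiv ℝ φ x = 0 := by
    by_contra hc
    exact hx (support_fderiv_subset ℝ hc)
  rw [← norm_eq_zero, norm_gradient, this, norm_zero]

lemma Test.supp_grad {φ : E3 → ℝ} (h : Test Ω φ) : HasCompactSupport (gradient φ) :=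
  HasCompactSupport.intro h.2.1 (fun _ hx => Test.grad_zero hx)

lemma Test.memLp_grad {φ : E3 → ℝ} (h : Test Ω φ) : MemLp (gradient φ) 2 volume :=
  h.cont_grad.memLp_of_hasCompactSupport h.supp_grad

lemma Test.sub {φ ψ : E3 → ℝ} (h : Test Ω φ) (h' : Test Ω ψ) : Test Ω (fun x => φ x - ψ x) := by
  refine ⟨h.1.sub h'.1, h.2.1.sub h'.2.1, ?_⟩
  exact (tsupport_sub φ ψ).trans (Set.union_subset h.2.2 h'.2.2)

lemma Test.const_mul {φ : E3 → ℝ} (h : Test Ω φ) (c : ℝ) : Test Ω (fun x => c * φ x) :=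
  ⟨contDiff_const.mul h.1, h.2.1.mul_left, (tsupport_mul_subset_right).trans h.2.2⟩

lemma gradient_sub' {φ ψ : E3 → ℝ} {x : E3} (h : DifferentiableAt ℝ φ x)
    (h' : DifferentiableAt ℝ ψ x) :
    gradient (fun x => φ x - ψ x) x = gradient φ x - gradient ψ x := by
  refine ext_inner_right ℝ (fun v => ?_)
  rw [inner_sub_left, inner_gradient_left, inner_gradient_left, inner_gradient_left,
    fderiv_fun_sub h h']
  rfl

lemma gradient_const_mul' {φ : E3 → ℝ} {x : E3} (h : DifferentiableAt ℝ φ x) (c : ℝ) :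
    gradient (fun x => c * φ x) x = c • gradient φ x := by
  refine ext_inner_right ℝ (fun v => ?_)
  rw [real_inner_smul_left, inner_gradient_left, inner_gradient_left, fderiv_const_mul h]
  rfl

lemma sq_norm_toLp {F : E3 → E3} (hF : MemLp F 2 volume) :
    ‖hF.toLp F‖ ^ 2 = ∫ x, ‖F x‖ ^ 2 := by
  rw [← real_inner_self_eq_norm_sq, L2.inner_def]
  refine integral_congr_ae ?_
  filter_upwards [hF.coeFn_toLp] with x hx
  rw [hx, real_inner_self_eq_norm_sq]

lemma tendsto_sq_norm {F : ℕ → E3 → E3} {F₀ : E3 → E3} (hF : ∀ n, MemLp (F n) 2 volume)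
    (hF₀ : MemLp F₀ 2 volume) (h : Tendsto (fun n => ∫ x, ‖F n x - F₀ x‖ ^ 2) atTop (𝓝 0)) :
    Tendsto (fun n => ∫ x, ‖F n x‖ ^ 2) atTop (𝓝 (∫ x, ‖F₀ x‖ ^ 2)) := by
  have h1 : Tendsto (fun n => (hF n).toLp (F n)) atTop (𝓝 (hF₀.toLp F₀)) := by
    rw [tendsto_iff_norm_sub_tendsto_zero]
    have h2 : ∀ n, ‖(hF n).toLp (F n) - hF₀.toLp F₀‖ = √(∫ x, ‖F n x - F₀ x‖ ^ 2) := by
      intro n
      rw [← MemLp.toLp_sub, ← Real.sqrt_sq (norm_nonneg _), sq_norm_toLp]
      rfl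
    simp_rw [h2]
    simpa using h.sqrt
  simp_rw [← sq_norm_toLp hF₀, ← sq_norm_toLp (hF _)]
  exact h1.norm.pow 2

lemma sobolev_test : ∃ C : ℝ, 0 ≤ C ∧ ∀ (Ω : Set E3) (φ : E3 → ℝ), Test Ω φ →
    ∫ x, φ x ^ 6 ≤ C * (∫ x, ‖gradient φ x‖ ^ 2) ^ 3 := by
  set C : ℝ≥0 := SNormLESNormFDerivOfEqConst ℝ (volume : Measure E3) ((2 : ℝ≥0) : ℝ) with hC
  refine ⟨(C : ℝ) ^ 6, by positivity, fun Ω φ h => ?_⟩
  have h1 := eLpNorm_le_eLpNorm_fderiv_of_eq (volume : Measure E3) h.one h.2.1 (p := 2) (p' := 6)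
    (by norm_num) (by simp) (by simp; norm_num)
  have m1 : MemLp φ ((6 : ℝ≥0) : ℝ≥0∞) volume := h.1.continuous.memLp_of_hasCompactSupport h.2.1
  have m2 : MemLp (fderiv ℝ φ) ((2 : ℝ≥0) : ℝ≥0∞) volume :=
    (h.one.continuous_fderiv one_ne_zero).memLp_of_hasCompactSupport (h.2.1.fderiv ℝ)
  rw [m1.eLpNorm_eq_integral_rpow_norm (by simp) (by simp),
    m2.eLpNorm_eq_integral_rpow_norm (by simp) (by simp), ← hC, ← ENNReal.ofReal_coe_nnreal (p := C),
    ← ENNReal.ofReal_mul (by positivity), ENNReal.ofReal_le_ofReal_iff (by positivity)] at h1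
  simp only [ENNReal.coe_toReal, NNReal.coe_ofNat] at h1
  have e1 : ∫ x, ‖φ x‖ ^ (6 : ℝ) = ∫ x, φ x ^ 6 := by
    refine integral_congr_ae (Eventually.of_forall fun x => ?_)
    simp only [Real.rpow_ofNat, Real.norm_eq_abs]
    exact Even.pow_abs (by norm_num) _
  have e2 : ∫ x, ‖fderiv ℝ φ x‖ ^ (2 : ℝ) = ∫ x, ‖gradient φ x‖ ^ 2 := by
    refine integral_congr_ae (Eventually.of_forall fun x => ?_)
    simp only [Real.rpow_ofNat, norm_gradient]
  rw [e1, e2] at h1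
  have p1 : 0 ≤ ∫ x, φ x ^ 6 := integral_nonneg fun x => by positivity
  have p2 : 0 ≤ ∫ x, ‖gradient φ x‖ ^ 2 := integral_nonneg fun x => by positivity
  have h2 := pow_le_pow_left₀ (by positivity) h1 6
  rw [mul_pow, ← Real.rpow_natCast, ← Real.rpow_mul p1, ← Real.rpow_natCast (_ ^ (2 : ℝ)⁻¹),
    ← Real.rpow_mul p2] at h2
  norm_num at h2
  exact h2

lemma integral_fderiv_zero {g : E3 → ℝ} (hg : ContDiff ℝ 1 g) (hc : HasCompactSupport g) (v : E3) :
    ∫ x, fderiv ℝ g x v = 0 := by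
  have hi : Integrable (fun x => fderiv ℝ g x v) :=
    ((hg.continuous_fderiv one_ne_zero).clm_apply continuous_const).integrable_of_hasCompactSupport
      (hc.fderiv_apply ℝ v)
  have h := integral_mul_fderiv_eq_neg_fderiv_mul_of_integrable (μ := (volume : Measure E3))
    (f := fun _ : E3 => (1 : ℝ)) (g := g) (v := v) (by simp) (by simpa using hi)
    (by simpa using hg.continuous.integrable_of_hasCompactSupport hc) (by simp)
    (fun x _ => (hg.differentiable one_ne_zero) x)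
  simpa using h

end Pool.Agent.H468Z.Poh
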