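import Mathlib

/-!
Smooth domains in `ℝ³`, curvature at the origin, and weak solutions of
`Δu - u⁴ + u³ / |x| = 0`.
-/

set_option autoImplicit false

open MeasureTheory Filter Topology

namespace Pool.Agent.H468Z.LiLin

/-- Euclidean three-space. -/
abbrev R3 : Type := EuclideanSpace ℝ (Fin 3)

/-- `Ω = {ρ < 0}` is a smooth bounded domain with defining function `ρ`. -/
def IsSmoothDomain (Ω : Set R3) (ρ : R3 → ℝ) : Prop :=
  IsOpen Ω ∧ IsConnected Ω ∧ Bornology.IsBounded Ω ∧ ContDiff ℝ ((⊤ : ℕ∞) : WithTop ℕ∞) ρ ∧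
    Ω = {x | ρ x < 0} ∧ ∀ x ∈ frontier Ω, fderiv ℝ ρ x ≠ 0

/-- The Hessian of `ρ` at the origin is negative definite on the tangent plane `ker dρ(0)`:
the principal curvatures of the boundary of `{ρ < 0}` at the origin are negative. -/
def NegCurvedAtZero (ρ : R3 → ℝ) : Prop :=
  ∀ v : R3, v ≠ 0 → fderiv ℝ ρ 0 v = 0 → fderiv ℝ (fderiv ℝ ρ) 0 v v < 0

/-- Smooth functions with compact support in `Ω`. -/
def IsTest (Ω : Set R3) (φ : R3 → ℝ) : Prop :=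
  ContDiff ℝ ((⊤ : ℕ∞) : WithTop ℕ∞) φ ∧ HasCompactSupport φ ∧ tsupport φ ⊆ Ω

/-- `u ∈ H¹₀(Ω)` with weak gradient `G`: `(u, G)` is an `L²` limit of `(φₙ, ∇φₙ)` with `φₙ`
smooth and compactly supported in `Ω`. -/
def InH10 (Ω : Set R3) (u : R3 → ℝ) (G : R3 → R3) : Prop :=
  MemLp u 2 volume ∧ MemLp G 2 volume ∧ ∃ φ : ℕ → R3 → ℝ, (∀ n, IsTest Ω (φ n)) ∧
    Tendsto (fun n => eLpNorm (fun x => φ n x - u x) 2 volume) atTop (𝓝 0) ∧
    Tendsto (fun n => eLpNorm (fun x => gradient (φ n) x - G x) 2 volume) atTop (𝓝 0)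

/-- The weak form of `Δu - u⁴ + u³ / |x| = 0` in `Ω`. -/
def WeakEq (Ω : Set R3) (u : R3 → ℝ) (G : R3 → R3) : Prop :=
  ∀ ψ : R3 → ℝ, IsTest Ω ψ →
    ∫ x, (inner ℝ (G x) (gradient ψ x) + u x ^ 4 * ψ x - u x ^ 3 * ψ x / ‖x‖) = 0

end Pool.Agent.H468Z.LiLin
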