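import Pool.Agent.H468Z.PohMap

/-!
The displacement estimate for sheared dilations, and multiplication by `|x|^{1/4}`.
-/

set_option autoImplicit false

open MeasureTheory Filter Topology
open scoped InnerProductSpace ENNReal NNReal

namespace Pool.Agent.H468Z.Poh

variable {Ω : Set E3} {f : E3 → ℝ} {F : E3 → E3}

lemma sq_integral_le {g : ℝ → ℝ} (hg : Continuous g) :
    (∫ t in (0 : ℝ)..1, g t) ^ 2 ≤ ∫ t in (0 : ℝ)..1, g t ^ 2 := by
  set m := ∫ t in (0 : ℝ)..1, g t with hm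
  have h1 : 0 ≤ ∫ t in (0 : ℝ)..1, (g t ^ 2 - 2 * m * g t + m ^ 2) :=
    intervalIntegral.integral_nonneg zero_le_one (fun t _ => by nlinarith [sq_nonneg (g t - m)])
  rw [intervalIntegral.integral_add (Continuous.intervalIntegrable (by fun_prop) _ _)
    (Continuous.intervalIntegrable (by fun_prop) _ _),
    intervalIntegral.integral_sub (Continuous.intervalIntegrable (by fun_prop) _ _)
    (Continuous.intervalIntegrable (by fun_prop) _ _), intervalIntegral.integral_const_mul,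
    ← hm] at h1
  simp at h1
  nlinarith

lemma seg_eq (l c τ : ℝ) (x : E3) :
    x + τ • (Psi l c x - x) = Psi (1 + τ * (l - 1)) (τ * c) x := by
  refine ext3 ?_ ?_ ?_ <;> simp <;> ring

lemma dil_pointwise {φ : E3 → ℝ} (h : Test Ω φ) (l c : ℝ) (x : E3) :
    (φ (Psi l c x) - φ x) ^ 2 ≤ ‖Psi l c x - x‖ ^ 2 *
      ∫ τ in (0 : ℝ)..1, ‖gradient φ (Psi (1 + τ * (l - 1)) (τ * c) x)‖ ^ 2 := by
  set d := Psi l c x - x with hd
  have hder : ∀ τ : ℝ, HasDerivAt (fun τ : ℝ => φ (x + τ • d)) ⟪gradient φ (x + τ • d), d⟫_ℝ τ := by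
    intro τ
    have h1 : HasDerivAt (fun τ : ℝ => x + τ • d) d τ := by
      simpa using ((hasDerivAt_id τ).smul_const d).const_add x
    have h2 := (h.diff (x + τ • d)).hasFDerivAt.comp_hasDerivAt τ h1
    rw [inner_gradient_left]
    exact h2
  have hcg : Continuous (fun τ : ℝ => gradient φ (x + τ • d)) := h.cont_grad.comp (by fun_prop)
  have hc : Continuous (fun τ : ℝ => ⟪gradient φ (x + τ • d), d⟫_ℝ) := hcg.inner continuous_const
  have h1 := intervalIntegral.integral_eq_sub_of_hasDerivAt (a := 0) (b := 1)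
    (fun τ _ => hder τ) (hc.intervalIntegrable _ _)
  have e1 : x + (1 : ℝ) • d = Psi l c x := by rw [hd]; simp
  have e0 : x + (0 : ℝ) • d = x := by simp
  rw [e1, e0] at h1
  rw [← h1, ← intervalIntegral.integral_const_mul]
  refine (sq_integral_le hc).trans (intervalIntegral.integral_mono_on zero_le_one
    ((hc.pow 2).intervalIntegrable _ _) ?_ (fun τ _ => ?_))
  · simp_rw [← seg_eq]
    exact (continuous_const.mul (hcg.norm.pow 2)).intervalIntegrable _ _
  · rw [← seg_eq, ← hd, ← mul_pow, ← sq_abs]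
    refine pow_le_pow_left₀ (abs_nonneg _) ?_ 2
    rw [mul_comm]
    exact abs_real_inner_le_norm _ _

lemma dil_test (h0 : (0 : E3) ∉ Ω) (hb : ∀ x ∈ Ω, ‖x‖ ≤ 4) {φ : E3 → ℝ} (h : Test Ω φ) {l : ℝ}
    (hl : 1 ≤ l) (c : ℝ) (hinv : ∀ x, Psi l c x ∈ Ω → x ∈ Ω) :
    Integrable (fun x => (φ (Psi l c x) - φ x) ^ 2 / ‖x‖ ^ 2) ∧
      ∫ x, (φ (Psi l c x) - φ x) ^ 2 / ‖x‖ ^ 2 ≤
        (l - 1 + 4 * |c|) ^ 2 * ∫ x, ‖gradient φ x‖ ^ 2 := by
  have hI := (hardy_test h0 ((h.comp (by linarith) c hinv).sub h)).1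
  refine ⟨hI, ?_⟩
  set M := l - 1 + 4 * |c| with hM
  set K : E3 → ℝ → ℝ := fun x τ => ‖gradient φ (Psi (1 + τ * (l - 1)) (τ * c) x)‖ ^ 2 with hK
  have hKc : Continuous (Function.uncurry K) := by
    have h1 : Continuous (fun z : E3 × ℝ => Psi (1 + z.2 * (l - 1)) (z.2 * c) z.1) := by
      have := (contDiff_P (n := 0)).continuous
      unfold Psi; fun_prop
    exact (h.cont_grad.comp h1).norm.pow 2
  have hpt : ∀ x, (φ (Psi l c x) - φ x) ^ 2 / ‖x‖ ^ 2 ≤ M ^ 2 * ∫ τ in (0 : ℝ)..1, K x τ := by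
    intro x
    have hK0 : 0 ≤ ∫ τ in (0 : ℝ)..1, K x τ :=
      intervalIntegral.integral_nonneg zero_le_one (fun t _ => by simp only [hK]; positivity)
    by_cases hx : ‖x‖ ≤ 4
    · by_cases hx0 : x = 0
      · subst hx0
        simp only [norm_zero, ne_eq, OfNat.ofNat_ne_zero, not_false_eq_true, zero_pow, div_zero]
        positivity
      · rw [div_le_iff₀ (pow_pos (norm_pos_iff.2 hx0) 2)]
        refine (dil_pointwise h l c x).trans ?_
        have h1 : ‖Psi l c x - x‖ ≤ M * ‖x‖ := by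
          have e : Psi l c x - x = (l - 1) • x + (c * P x) • e2 := by
            rw [Psi]; module
          rw [e]
          refine (norm_add_le _ _).trans ?_
          rw [norm_smul, norm_smul, norm_e2, Real.norm_eq_abs, Real.norm_eq_abs,
            abs_of_nonneg (by linarith), abs_mul, abs_of_nonneg (P_nonneg x), hM]
          have h2 : P x ≤ 4 * ‖x‖ := by
            have := P_le x
            have := norm_nonneg x
            nlinarith
          have := mul_le_mul_of_nonneg_left h2 (abs_nonneg c)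
          nlinarith
        have h2 := pow_le_pow_left₀ (norm_nonneg _) h1 2
        have h3 := mul_le_mul_of_nonneg_right h2 hK0
        calc _ ≤ (M * ‖x‖) ^ 2 * ∫ τ in (0 : ℝ)..1, K x τ := h3
          _ = _ := by ring
    · have a1 : φ x = 0 := image_eq_zero_of_notMem_tsupport (fun hc => hx (hb x (h.2.2 hc)))
      have a2 : φ (Psi l c x) = 0 :=
        image_eq_zero_of_notMem_tsupport (fun hc => hx (hb x (hinv x (h.2.2 hc))))
      rw [a1, a2]
      simp only [sub_self, ne_eq, OfNat.ofNat_ne_zero, not_false_eq_true, zero_pow, zero_div]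
      positivity
  have hG : Integrable (fun x => ‖gradient φ x‖ ^ 2) := h.memLp_grad.integrable_norm_pow (by simp)
  have hG0 : 0 ≤ ∫ x, ‖gradient φ x‖ ^ 2 := integral_nonneg fun x => by positivity
  rw [← ENNReal.ofReal_le_ofReal_iff (by positivity),
    ofReal_integral_eq_lintegral_ofReal hI (Eventually.of_forall fun x => by positivity)]
  calc ∫⁻ x, ENNReal.ofReal ((φ (Psi l c x) - φ x) ^ 2 / ‖x‖ ^ 2)
      ≤ ∫⁻ x, ENNReal.ofReal (M ^ 2) * ∫⁻ τ in Set.Ioc (0 : ℝ) 1, ENNReal.ofReal (K x τ) := by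
        refine lintegral_mono (fun x => ?_)
        have hc : Continuous (K x) := hKc.uncurry_left x
        rw [← ofReal_integral_eq_lintegral_ofReal (hc.integrableOn_Icc.mono_set
          Set.Ioc_subset_Icc_self) (Eventually.of_forall fun t => by simp only [hK]; positivity),
          ← ENNReal.ofReal_mul (by positivity), ← intervalIntegral.integral_of_le zero_le_one]
        exact ENNReal.ofReal_le_ofReal (hpt x)
    _ = ENNReal.ofReal (M ^ 2) * ∫⁻ τ in Set.Ioc (0 : ℝ) 1, ∫⁻ x, ENNReal.ofReal (K x τ) := by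
        rw [lintegral_const_mul' _ _ ENNReal.ofReal_ne_top, lintegral_lintegral_swap]
        exact hKc.measurable.ennreal_ofReal.aemeasurable
    _ ≤ ENNReal.ofReal (M ^ 2) * ∫⁻ τ in Set.Ioc (0 : ℝ) 1,
          ENNReal.ofReal (∫ x, ‖gradient φ x‖ ^ 2) := by
        refine mul_le_mul_right (setLIntegral_mono' measurableSet_Ioc (fun τ hτ => ?_)) _
        have hl' : 1 ≤ 1 + τ * (l - 1) := by nlinarith [hτ.1]
        have h1 := (HI.of hG).comp (l := 1 + τ * (l - 1)) (by linarith) (τ * c)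
        rw [← ofReal_integral_eq_lintegral_ofReal h1.1
          (Eventually.of_forall fun x => by positivity), h1.2]
        refine ENNReal.ofReal_le_ofReal ?_
        have h2 : ((1 + τ * (l - 1)) ^ 3)⁻¹ ≤ 1 := inv_le_one_of_one_le₀ (one_le_pow₀ hl')
        nlinarith
    _ = ENNReal.ofReal (M ^ 2 * ∫ x, ‖gradient φ x‖ ^ 2) := by
        rw [setLIntegral_const, Real.volume_Ioc, ENNReal.ofReal_mul (by positivity)]
        simp

lemma Adm.dil (h0 : (0 : E3) ∉ Ω) (hb : ∀ x ∈ Ω, ‖x‖ ≤ 4) (h : Adm Ω f F) {l : ℝ}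
    (hl : 1 ≤ l) (c : ℝ) (hinv : ∀ x, Psi l c x ∈ Ω → x ∈ Ω) :
    Integrable (fun x => (f (Psi l c x) - f x) ^ 2 / ‖x‖ ^ 2) ∧
      ∫ x, (f (Psi l c x) - f x) ^ 2 / ‖x‖ ^ 2 ≤ (l - 1 + 4 * |c|) ^ 2 * ∫ x, ‖F x‖ ^ 2 := by
  obtain ⟨hF, φ, h1, h2, h3⟩ := h
  refine fatou_real (g := fun n x => (φ n (Psi l c x) - φ n x) ^ 2 / ‖x‖ ^ 2)
    (fun n x => by positivity) (fun n => (dil_test h0 hb (h1 n) hl c hinv).1) ?_
    ((Adm.tendsto_norm hF h1 h3).const_mul _) (fun n => (dil_test h0 hb (h1 n) hl c hinv).2)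
  filter_upwards [h2, (qmp_Psi (show 0 < l by linarith) c).ae h2] with x hx hy
  exact ((hy.sub hx).pow 2).div_const _

/-- The weight `|x|^{1/4}`. -/
noncomputable def om (x : E3) : ℝ := (‖x‖ ^ 2) ^ (1 / 8 : ℝ)

/-- The gradient of the weight. -/
noncomputable def Z (x : E3) : E3 := (om x / (4 * ‖x‖ ^ 2)) • x

lemma om_nonneg (x : E3) : 0 ≤ om x := Real.rpow_nonneg (sq_nonneg _) _

lemma om_pow (x : E3) : om x ^ 4 = ‖x‖ := by
  rw [om, ← Real.rpow_natCast, ← Real.rpow_mul (sq_nonneg _), ← Real.rpow_natCast,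
    ← Real.rpow_mul (norm_nonneg _)]
  norm_num

lemma om_sq_le {x : E3} (hx : ‖x‖ ≤ 4) : om x ^ 2 ≤ 2 := by
  have := om_pow x
  nlinarith [sq_nonneg (om x ^ 2 - 2)]

lemma continuous_om : Continuous om :=
  (continuous_norm.pow 2).rpow_const (fun _ => Or.inr (by norm_num))

lemma meas_Z : AEStronglyMeasurable Z (volume : Measure E3) := by
  refine Measurable.aestronglyMeasurable ?_
  unfold Z
  exact (continuous_om.measurable.div (by fun_prop)).smul measurable_id

lemma norm_Z_sq (x : E3) : ‖Z x‖ ^ 2 = om x ^ 2 / (16 * ‖x‖ ^ 2) := by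
  rw [Z, norm_smul, mul_pow, Real.norm_eq_abs, sq_abs]
  by_cases hx : ‖x‖ = 0
  · simp [hx]
  · field_simp
    norm_num

lemma hasFDerivAt_om {x : E3} (hx : x ≠ 0) : HasFDerivAt om (innerSL ℝ (Z x)) x := by
  have hn : ‖x‖ ^ 2 ≠ 0 := pow_ne_zero 2 (norm_ne_zero_iff.2 hx)
  have d : HasFDerivAt om _ x :=
    (hasStrictFDerivAt_norm_sq x).hasFDerivAt.rpow_const (p := 1 / 8) (Or.inl hn)
  refine d.congr_fderiv (ContinuousLinearMap.ext fun v => ?_)
  rw [Real.rpow_sub_one hn]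
  simp [Z, om]
  field_simp
  ring

lemma Test.om_mul (h0 : (0 : E3) ∉ Ω) {φ : E3 → ℝ} (h : Test Ω φ) :
    Test Ω (fun x => om x * φ x) ∧
      ∀ x, gradient (fun x => om x * φ x) x = om x • gradient φ x + φ x • Z x := by
  have h0' : (0 : E3) ∉ tsupport φ := fun hc => h0 (h.2.2 hc)
  refine ⟨⟨contDiff_mul_away (fun x hx => ?_) h.1 h0', h.2.1.mul_left,
    tsupport_mul_subset_right.trans h.2.2⟩, fun x => ?_⟩
  · exact (contDiff_norm_sq ℝ).contDiffAt.rpow_const_of_ne
      (pow_ne_zero 2 (norm_ne_zero_iff.2 hx))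
  · by_cases hx : x ∈ tsupport φ
    · have hx0 : x ≠ 0 := fun h => h0' (h ▸ hx)
      have d : HasFDerivAt (fun x => om x * φ x) _ x :=
        (hasFDerivAt_om hx0).mul (h.diff x).hasFDerivAt
      refine ext_inner_right ℝ (fun v => ?_)
      rw [inner_gradient_left, d.fderiv, inner_add_left, real_inner_smul_left,
        real_inner_smul_left, inner_gradient_left]
      simp
    · rw [Test.grad_zero hx, image_eq_zero_of_notMem_tsupport hx,
        Test.grad_zero (fun hc => hx (tsupport_mul_subset_right hc))]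
      simp

lemma om_comb_le {x A : E3} {a : ℝ} (hA : ¬ ‖x‖ ≤ 4 → A = 0 ∧ a = 0) :
    ‖om x • A + a • Z x‖ ^ 2 ≤ 4 * ‖A‖ ^ 2 + (1 / 4) * (a ^ 2 / ‖x‖ ^ 2) := by
  by_cases hx : ‖x‖ ≤ 4
  · have h1 := norm_add_le (om x • A) (a • Z x)
    have h2 := pow_le_pow_left₀ (norm_nonneg _) h1 2
    have h3 : ‖om x • A‖ ^ 2 ≤ 2 * ‖A‖ ^ 2 := by
      rw [norm_smul, mul_pow, Real.norm_eq_abs, sq_abs]
      exact mul_le_mul_of_nonneg_right (om_sq_le hx) (sq_nonneg _)
    have h4 : ‖a • Z x‖ ^ 2 ≤ (1 / 8) * (a ^ 2 / ‖x‖ ^ 2) := by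
      rw [norm_smul, mul_pow, Real.norm_eq_abs, sq_abs, norm_Z_sq]
      have h5 : a ^ 2 * (om x ^ 2 / (16 * ‖x‖ ^ 2)) = om x ^ 2 / 16 * (a ^ 2 / ‖x‖ ^ 2) := by
        ring
      rw [h5]
      exact mul_le_mul_of_nonneg_right (by linarith [om_sq_le hx]) (by positivity)
    nlinarith [sq_nonneg (‖om x • A‖ - ‖a • Z x‖)]
  · rw [(hA hx).1, (hA hx).2]; simp

lemma Adm.om_mul (hΩ : MeasurableSet Ω) (h0 : (0 : E3) ∉ Ω) (hb : ∀ x ∈ Ω, ‖x‖ ≤ 4)
    (h : Adm Ω f F) : Adm Ω (fun x => om x * f x) (fun x => om x • F x + f x • Z x) := by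
  have hz := h.grad_zero_out hΩ
  have hz' := h.zero_out
  have hm : AEStronglyMeasurable (fun x => om x • F x + f x • Z x) volume :=
    (continuous_om.aestronglyMeasurable.smul h.1.1).add (h.meas.smul meas_Z)
  have hH := h.hardy h0
  have hi := h.int_sq
  have h' := h
  obtain ⟨hF, φ, h1, h2, h3⟩ := h
  refine ⟨?_, fun n x => om x * φ n x, fun n => ((h1 n).om_mul h0).1, ?_, ?_⟩
  · rw [memLp_two_iff_integrable_sq_norm hm]
    refine int_of_le ((hi.const_mul 4).add (hH.1.const_mul (1 / 4))) (hm.norm.pow 2) ?_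
    filter_upwards [hz, hz'] with x hx hy
    rw [abs_of_nonneg (sq_nonneg _)]
    exact om_comb_le (fun hc => ⟨hx (fun h => hc (hb x h)), hy (fun h => hc (hb x h))⟩)
  · filter_upwards [h2] with x hx
    exact hx.const_mul _
  · have hlim := h3.const_mul 5
    rw [mul_zero] at hlim
    refine squeeze_zero (fun n => integral_nonneg fun x => by positivity) (fun n => ?_) hlim
    have hA := (h1 n).adm.sub h'
    have hH' := hA.hardy h0
    have i1 := ((HI.of hA.int_sq).const_mul 4).add ((HI.of hH'.1).const_mul (1 / 4))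
    refine le_trans (integral_mono_of_nonneg (Eventually.of_forall fun x => by positivity) i1.1 ?_)
      (by rw [i1.2]; linarith [hH'.2])
    filter_upwards [hA.grad_zero_out hΩ, hA.zero_out] with x hx hy
    rw [((h1 n).om_mul h0).2]
    have e : om x • gradient (φ n) x + φ n x • Z x - (om x • F x + f x • Z x) =
        om x • (gradient (φ n) x - F x) + (φ n x - f x) • Z x := by module
    rw [e]
    exact om_comb_le (fun hc => ⟨hx (fun h => hc (hb x h)), hy (fun h => hc (hb x h))⟩)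

end Pool.Agent.H468Z.Poh
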