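import Pool.Agent.H468Z.PohMain

/-!
A smooth bounded domain with negative principal curvatures at the origin and no positive solution.
-/

set_option autoImplicit false

open MeasureTheory Filter Topology
open scoped InnerProductSpace ENNReal NNReal

namespace Pool.Agent.H468Z.Poh

/-- The defining function. -/
noncomputable def rho (κ : ℝ) (x : E3) : ℝ := P x ^ 2 + (x 2 + κ * P x - 1) ^ 2 - 1

/-- The domain. -/
def Dom (κ : ℝ) : Set E3 := {x | rho κ x < 0}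

lemma contDiff_rho {n : WithTop ℕ∞} (κ : ℝ) : ContDiff ℝ n (rho κ) := by
  have := contDiff_P (n := n)
  unfold rho; fun_prop

lemma isOpen_Dom (κ : ℝ) : IsOpen (Dom κ) :=
  isOpen_lt (contDiff_rho (n := 0) κ).continuous continuous_const

lemma zero_notMem_Dom (κ : ℝ) : (0 : E3) ∉ Dom κ := by
  simp [Dom, rho, P]

lemma Dom_bdd {κ : ℝ} (hκ : 0 ≤ κ) (hκ' : κ ≤ 1) : ∀ x ∈ Dom κ, ‖x‖ ≤ 4 := by
  intro x hx
  simp only [Dom, rho, Set.mem_ofPred_eq] at hx
  have hP := P_nonneg x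
  have h1 : P x ≤ 1 := by nlinarith [sq_nonneg (x 2 + κ * P x - 1)]
  have h2 : (x 2 + κ * P x - 1) ^ 2 ≤ 1 := by nlinarith [sq_nonneg (P x)]
  have h3 := abs_le.1 ((sq_le_one_iff_abs_le_one _).1 h2)
  have h4 : κ * P x ≤ 1 := by nlinarith
  have h5 : 0 ≤ κ * P x := by positivity
  have h6 : x 2 ^ 2 ≤ 4 := by nlinarith [h3.1, h3.2]
  refine (pow_le_pow_iff_left₀ (norm_nonneg _) (by norm_num) two_ne_zero).1 ?_
  rw [norm_sq_eq_sum3]
  unfold P at h1
  linarith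

lemma Dom_inv (κ : ℝ) : ∀ l : ℝ, 1 ≤ l → ∀ x, Psi l (κ * l * (1 - l)) x ∈ Dom κ → x ∈ Dom κ := by
  intro l hl x hx
  simp only [Dom, rho, Set.mem_ofPred_eq, P_Psi, Psi_2] at hx ⊢
  have e : l * x 2 + κ * l * (1 - l) * P x + κ * (l ^ 2 * P x) = l * (x 2 + κ * P x) := by ring
  rw [e] at hx
  set z := x 2 + κ * P x
  have h1 : l * P x ^ 2 ≤ (l ^ 2 * P x) ^ 2 := by
    have : l ≤ l ^ 4 := le_self_pow₀ hl (by norm_num)
    have := mul_le_mul_of_nonneg_right this (sq_nonneg (P x))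
    nlinarith
  have h2 : l * z ^ 2 ≤ (l * z) ^ 2 := by
    have : l ≤ l ^ 2 := le_self_pow₀ hl (by norm_num)
    have := mul_le_mul_of_nonneg_right this (sq_nonneg z)
    nlinarith
  have h3 : l * (P x ^ 2 + (z - 1) ^ 2 - 1) < l * 0 := by nlinarith
  exact lt_of_mul_lt_mul_left h3 (by linarith)

lemma isConnected_Dom (κ : ℝ) : IsConnected (Dom κ) := by
  have hstar : StarConvex ℝ e2 (Dom 0) := by
    intro y hy a b ha hb hab
    simp only [Dom, rho, Set.mem_ofPred_eq, zero_mul, add_zero] at hy ⊢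
    have e1 : P (a • e2 + b • y) = b ^ 2 * P y := by simp [P]; ring
    have e3 : (a • e2 + b • y) 2 - 1 = b * (y 2 - 1) := by
      simp; linarith
    rw [e1, e3]
    have hb1 : b ≤ 1 := by linarith
    have h1 : b ^ 2 ≤ 1 := pow_le_one₀ hb hb1
    have h2 : b ^ 4 ≤ 1 := pow_le_one₀ hb hb1
    have h3 := mul_le_mul_of_nonneg_right h2 (sq_nonneg (P y))
    have h4 := mul_le_mul_of_nonneg_right h1 (sq_nonneg (y 2 - 1))
    nlinarith
  have hmem : e2 ∈ Dom 0 := by simp [Dom, rho, P]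
  have h1 := (hstar.isPathConnected hmem).isConnected.image (Psi 1 (-κ))
    (contDiff_Psi (n := 0) _ _).continuous.continuousOn
  have e : Psi 1 (-κ) '' Dom 0 = Dom κ := by
    ext x
    constructor
    · rintro ⟨y, hy, rfl⟩
      simp only [Dom, rho, Set.mem_ofPred_eq, P_Psi, Psi_2] at hy ⊢
      convert hy using 3 <;> ring
    · intro hx
      refine ⟨Psi 1 κ x, ?_, ?_⟩
      · simp only [Dom, rho, Set.mem_ofPred_eq, P_Psi, Psi_2] at hx ⊢
        convert hx using 3 <;> ring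
      · refine ext3 (by simp) (by simp) ?_
        rw [Psi_2, Psi_2, P_Psi]; ring
  rwa [e] at h1

lemma fderiv_rho (κ : ℝ) (x v : E3) : fderiv ℝ (rho κ) x v =
    4 * P x * (x 0 * v 0 + x 1 * v 1) +
      2 * (x 2 + κ * P x - 1) * (v 2 + 2 * κ * (x 0 * v 0 + x 1 * v 1)) := by
  have d2 : HasFDerivAt (fun x : E3 => x 2) (EuclideanSpace.proj 2 : E3 →L[ℝ] ℝ) x :=
    (EuclideanSpace.proj 2 : E3 →L[ℝ] ℝ).hasFDerivAt
  have d : HasFDerivAt (rho κ) _ x := (((hasFDerivAt_P x).pow 2).add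
    (((d2.add ((hasFDerivAt_P x).const_mul κ)).sub_const 1).pow 2)).sub_const 1
  rw [d.fderiv]
  simp [inner_eq_sum3]
  ring

lemma fderiv_rho_ne (κ : ℝ) : ∀ x ∈ frontier (Dom κ), fderiv ℝ (rho κ) x ≠ 0 := by
  intro x hx hc
  have h0 : rho κ x = 0 :=
    frontier_lt_subset_eq (contDiff_rho (n := 0) κ).continuous continuous_const hx
  have h1 := fderiv_rho κ x e2
  have h2 := fderiv_rho κ x (Q x)
  rw [hc] at h1 h2
  simp only [ContinuousLinearMap.zero_apply, e2_0, e2_1, e2_2, Q_0, Q_1, Q_2] at h1 h2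
  have h3 : x 2 + κ * P x - 1 = 0 := by linarith
  have h4 : x 0 * x 0 + x 1 * x 1 = P x := by rw [P]; ring
  rw [h3, h4] at h2
  rw [rho, h3] at h0
  nlinarith

lemma zero_mem_frontier (κ : ℝ) : (0 : E3) ∈ frontier (Dom κ) := by
  rw [(isOpen_Dom κ).frontier_eq]
  refine ⟨?_, zero_notMem_Dom κ⟩
  have hlim : Tendsto (fun t : ℝ => t • e2) (𝓝[>] 0) (𝓝 0) := by
    have : Tendsto (fun t : ℝ => t • e2) (𝓝 0) (𝓝 ((0 : ℝ) • e2)) :=
      (continuous_id.smul continuous_const).tendsto 0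
    rw [zero_smul] at this
    exact this.mono_left nhdsWithin_le_nhds
  refine mem_closure_of_tendsto hlim ?_
  filter_upwards [Ioo_mem_nhdsGT (show (0 : ℝ) < 1 by norm_num)] with t ht
  simp only [Dom, rho, P, Set.mem_ofPred_eq, PiLp.smul_apply, e2_0, e2_1, e2_2, smul_eq_mul]
  nlinarith [ht.1, ht.2]

lemma hess_rho {κ : ℝ} (hκ : 0 < κ) (v : E3) (hv : v ≠ 0) (ht : fderiv ℝ (rho κ) 0 v = 0) :
    fderiv ℝ (fderiv ℝ (rho κ)) 0 v v < 0 := by
  have h2 : v 2 = 0 := by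
    rw [fderiv_rho] at ht
    simpa [P] using ht
  have hP : 0 < P v := by
    have := norm_sq_eq_sum3 v
    have h3 : 0 < ‖v‖ ^ 2 := pow_pos (norm_pos_iff.2 hv) 2
    rw [P]; rw [h2] at this; linarith
  have hd : DifferentiableAt ℝ (fderiv ℝ (rho κ)) 0 :=
    ((contDiff_rho (n := 2) κ).fderiv_right (m := 1) (by norm_num)).differentiable
      one_ne_zero 0
  have e1 : fderiv ℝ (fderiv ℝ (rho κ)) 0 v v = fderiv ℝ (fun x => fderiv ℝ (rho κ) x v) 0 v := by
    rw [fderiv_clm_apply hd (differentiableAt_const v)]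
    simp
  rw [e1]
  simp only [fderiv_rho]
  have d0 : HasFDerivAt (fun x : E3 => x 0) (EuclideanSpace.proj 0 : E3 →L[ℝ] ℝ) 0 :=
    (EuclideanSpace.proj 0 : E3 →L[ℝ] ℝ).hasFDerivAt
  have d1 : HasFDerivAt (fun x : E3 => x 1) (EuclideanSpace.proj 1 : E3 →L[ℝ] ℝ) 0 :=
    (EuclideanSpace.proj 1 : E3 →L[ℝ] ℝ).hasFDerivAt
  have d2 : HasFDerivAt (fun x : E3 => x 2) (EuclideanSpace.proj 2 : E3 →L[ℝ] ℝ) 0 :=
    (EuclideanSpace.proj 2 : E3 →L[ℝ] ℝ).hasFDerivAt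
  have dl := (d0.mul_const (v 0)).add (d1.mul_const (v 1))
  have d : HasFDerivAt (fun x : E3 => 4 * P x * (x 0 * v 0 + x 1 * v 1) +
      2 * (x 2 + κ * P x - 1) * (v 2 + 2 * κ * (x 0 * v 0 + x 1 * v 1))) _ 0 :=
    (((hasFDerivAt_P 0).const_mul 4).mul dl).add
      ((((d2.add ((hasFDerivAt_P 0).const_mul κ)).sub_const 1).const_mul 2).mul
        ((dl.const_mul (2 * κ)).const_add (v 2)))
  rw [d.fderiv]
  have hP0 : P 0 = 0 := by simp [P]
  simp [inner_eq_sum3, h2, hP0]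
  rw [P] at hP
  nlinarith

theorem no_solution {κ : ℝ} (hκ : 0 ≤ κ) (hκ' : κ ≤ 1 / 2000) (u : E3 → ℝ) (G : E3 → E3)
    (hu : MemLp u 2 volume) (hG : MemLp G 2 volume) (φ : ℕ → E3 → ℝ)
    (hφ : ∀ n, Test (Dom κ) (φ n))
    (h1 : Tendsto (fun n => eLpNorm (fun x => φ n x - u x) 2 volume) atTop (𝓝 0))
    (h2 : Tendsto (fun n => eLpNorm (fun x => gradient (φ n) x - G x) 2 volume) atTop (𝓝 0))
    (hpos : ∀ᵐ x, x ∈ Dom κ → 0 < u x)
    (hw : ∀ ψ, Test (Dom κ) ψ → ∫ x, Lint u G ψ (gradient ψ) x = 0) : False := by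
  obtain ⟨ns, hns, hae⟩ := (tendstoInMeasure_of_tendsto_eLpNorm (p := 2) (by norm_num)
    (fun n => (hφ n).1.continuous.aestronglyMeasurable) hu.1 h1).exists_seq_tendsto_ae
  have h3 : Tendsto (fun n => ∫ x, ‖gradient (φ n) x - G x‖ ^ 2) atTop (𝓝 0) := by
    have e : ∀ n, ∫ x, ‖gradient (φ n) x - G x‖ ^ 2 =
        (eLpNorm (fun x => gradient (φ n) x - G x) 2 volume).toReal ^ 2 := by
      intro n
      have hm : MemLp (fun x => gradient (φ n) x - G x) 2 volume := (hφ n).memLp_grad.sub hG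
      rw [← sq_norm_toLp hm, Lp.norm_toLp]
    simp_rw [e]
    have := ((ENNReal.tendsto_toReal ENNReal.zero_ne_top).comp h2).pow 2
    simpa using this
  have hA : Adm (Dom κ) u G :=
    ⟨hG, fun n => φ (ns n), fun n => hφ _, hae, h3.comp hns.tendsto_atTop⟩
  have hS : Sol (Dom κ) u G := ⟨(isOpen_Dom κ).measurableSet, zero_notMem_Dom κ,
    Dom_bdd hκ (by linarith), hA, by
      filter_upwards [hpos, hA.zero_out] with x hx hy
      by_cases hc : x ∈ Dom κ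
      · exact (hx hc).le
      · exact (hy hc).ge, hw⟩
  have hz := hS.ae_zero hκ hκ' (Dom_inv κ)
  have hnull : volume (Dom κ) = 0 := by
    rw [measure_eq_zero_iff_ae_notMem]
    filter_upwards [hpos, hz] with x hx hy hc
    exact (hx hc).ne' hy
  exact ((isOpen_Dom κ).measure_pos volume (isConnected_Dom κ).nonempty).ne' hnull

end Pool.Agent.H468Z.Poh
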