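import Pool.Agent.H468Z.PohBase

/-!
Hardy's inequality for test functions, and limits of test functions.
-/

set_option autoImplicit false

open MeasureTheory Filter Topology
open scoped InnerProductSpace ENNReal NNReal

namespace Pool.Agent.H468Z.Poh

variable {Ω : Set E3}

lemma contDiff_mul_away {n : WithTop ℕ∞} {a φ : E3 → ℝ} (ha : ∀ x, x ≠ 0 → ContDiffAt ℝ n a x)
    (hφ : ContDiff ℝ n φ) (h0 : (0 : E3) ∉ tsupport φ) : ContDiff ℝ n (fun x => a x * φ x) := by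
  rw [contDiff_iff_contDiffAt]
  intro x
  by_cases hx : x ∈ tsupport φ
  · exact (ha x (fun h => h0 (h ▸ hx))).mul hφ.contDiffAt
  · rw [notMem_tsupport_iff_eventuallyEq] at hx
    refine (contDiffAt_const (c := (0 : ℝ))).congr_of_eventuallyEq ?_
    filter_upwards [hx] with y hy
    simp [hy]

lemma inner_eq_sum3 (a b : E3) : ⟪a, b⟫_ℝ = a 0 * b 0 + a 1 * b 1 + a 2 * b 2 := by
  simp [PiLp.inner_apply, Fin.sum_univ_three, mul_comm]

lemma norm_sq_eq_sum3 (a : E3) : ‖a‖ ^ 2 = a 0 ^ 2 + a 1 ^ 2 + a 2 ^ 2 := by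
  rw [← real_inner_self_eq_norm_sq, inner_eq_sum3]; ring

lemma hardy_test (h0 : (0 : E3) ∉ Ω) {φ : E3 → ℝ} (h : Test Ω φ) :
    Integrable (fun x => φ x ^ 2 / ‖x‖ ^ 2) ∧
      ∫ x, φ x ^ 2 / ‖x‖ ^ 2 ≤ 4 * ∫ x, ‖gradient φ x‖ ^ 2 := by
  have h0' : (0 : E3) ∉ tsupport φ := fun hc => h0 (h.2.2 hc)
  have hsq : ContDiff ℝ 1 (fun x => φ x ^ 2) := h.one.pow 2
  have hts : tsupport (fun x => φ x ^ 2) ⊆ tsupport φ := by
    simp only [sq]; exact tsupport_mul_subset_left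
  have h0'' : (0 : E3) ∉ tsupport (fun x => φ x ^ 2) := fun hc => h0' (hts hc)
  have hcs : HasCompactSupport (fun x => φ x ^ 2) := by
    simp only [sq]; exact h.2.1.mul_left
  have hinv : ∀ x : E3, x ≠ 0 → ContDiffAt ℝ 1 (fun x : E3 => (‖x‖ ^ 2)⁻¹) x := fun x hx =>
    (contDiff_norm_sq ℝ).contDiffAt.inv (pow_ne_zero 2 (norm_ne_zero_iff.2 hx))
  have hI : Integrable (fun x => φ x ^ 2 / ‖x‖ ^ 2) := by
    have := (contDiff_mul_away hinv hsq h0'').continuous.integrable_of_hasCompactSupport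
      (μ := volume) hcs.mul_left
    refine this.congr (Eventually.of_forall fun x => ?_)
    simp only [div_eq_inv_mul]
  refine ⟨hI, ?_⟩
  let g : Fin 3 → E3 → ℝ := fun i x => (x i * (‖x‖ ^ 2)⁻¹) * φ x ^ 2
  have hg : ∀ i, ContDiff ℝ 1 (g i) := fun i =>
    contDiff_mul_away (fun x hx => (by fun_prop : ContDiffAt ℝ 1 (fun x : E3 => x i) x).mul
      (hinv x hx)) hsq h0''
  have hgc : ∀ i, HasCompactSupport (g i) := fun i => hcs.mul_left
  have hgi : ∀ i, Integrable (fun x => fderiv ℝ (g i) x (EuclideanSpace.single i 1)) := fun i =>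
    (((hg i).continuous_fderiv one_ne_zero).clm_apply
      continuous_const).integrable_of_hasCompactSupport ((hgc i).fderiv_apply ℝ _)
  have hform : ∀ i x, fderiv ℝ (g i) x (EuclideanSpace.single i 1) =
      ((‖x‖ ^ 2)⁻¹ - 2 * x i ^ 2 * ((‖x‖ ^ 2)⁻¹) ^ 2) * φ x ^ 2 +
        x i * (‖x‖ ^ 2)⁻¹ * (2 * φ x * gradient φ x i) := by
    intro i x
    by_cases hx : x ∈ tsupport φ
    · have hx0 : x ≠ 0 := fun h => h0' (h ▸ hx)
      have hn : ‖x‖ ^ 2 ≠ 0 := pow_ne_zero 2 (norm_ne_zero_iff.2 hx0)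
      have d1 : HasFDerivAt (fun x : E3 => x i) (EuclideanSpace.proj i : E3 →L[ℝ] ℝ) x :=
        (EuclideanSpace.proj i : E3 →L[ℝ] ℝ).hasFDerivAt
      have d2 := (hasDerivAt_inv hn).comp_hasFDerivAt x (hasStrictFDerivAt_norm_sq x).hasFDerivAt
      have d3 := (h.diff x).hasFDerivAt.pow 2
      have d4 : HasFDerivAt (g i) _ x := (d1.mul d2).mul d3
      rw [d4.fderiv]
      have e1 : fderiv ℝ φ x (EuclideanSpace.single i 1) = gradient φ x i := by
        rw [← inner_gradient_left, EuclideanSpace.inner_single_right]; simp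
      simp [e1, EuclideanSpace.inner_single_right]
      field_simp
      ring
    · have hφ : φ x = 0 := image_eq_zero_of_notMem_tsupport hx
      have : fderiv ℝ (g i) x = 0 := by
        by_contra hc
        exact hx (hts (tsupport_mul_subset_right (support_fderiv_subset ℝ hc)))
      rw [this, hφ]; simp
  have hsum : ∫ x, (fderiv ℝ (g 0) x (EuclideanSpace.single 0 1) +
      fderiv ℝ (g 1) x (EuclideanSpace.single 1 1) +
      fderiv ℝ (g 2) x (EuclideanSpace.single 2 1)) = 0 := by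
    rw [integral_add ((hgi 0).fun_add (hgi 1)) (hgi 2), integral_add (hgi 0) (hgi 1),
      integral_fderiv_zero (hg 0) (hgc 0), integral_fderiv_zero (hg 1) (hgc 1),
      integral_fderiv_zero (hg 2) (hgc 2)]
    simp
  have hG : Integrable (fun x => ‖gradient φ x‖ ^ 2) := h.memLp_grad.integrable_norm_pow (by simp)
  have hle : ∫ x, ((1 / 2) * (φ x ^ 2 / ‖x‖ ^ 2) - 2 * ‖gradient φ x‖ ^ 2) ≤ 0 := by
    rw [← hsum]
    refine integral_mono ((hI.const_mul _).sub (hG.const_mul _))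
      (((hgi 0).add (hgi 1)).add (hgi 2)) (fun x => ?_)
    simp only [hform]
    by_cases hx0 : x = 0
    · subst hx0
      have := sq_nonneg ‖gradient φ 0‖
      simp only [norm_zero, ne_eq, OfNat.ofNat_ne_zero, not_false_eq_true, zero_pow, div_zero,
        inv_zero, mul_zero, sub_self, zero_mul, add_zero]
      linarith
    · have hn : 0 < ‖x‖ ^ 2 := pow_pos (norm_pos_iff.2 hx0) 2
      set r : ℝ := (‖x‖ ^ 2)⁻¹ with hr
      have hr1 : (x 0 ^ 2 + x 1 ^ 2 + x 2 ^ 2) * r = 1 := by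
        rw [← norm_sq_eq_sum3, hr, mul_inv_cancel₀ hn.ne']
      rw [norm_sq_eq_sum3 (gradient φ x), div_eq_mul_inv (φ x ^ 2), ← hr]
      have k0 := sq_nonneg (x 0 * r * φ x + 2 * gradient φ x 0)
      have k1 := sq_nonneg (x 1 * r * φ x + 2 * gradient φ x 1)
      have k2 := sq_nonneg (x 2 * r * φ x + 2 * gradient φ x 2)
      have e : (x 0 ^ 2 + x 1 ^ 2 + x 2 ^ 2) * r * (r * φ x ^ 2) = r * φ x ^ 2 := by
        rw [hr1, one_mul]
      nlinarith
  rw [integral_sub (hI.const_mul _) (hG.const_mul _), integral_const_mul, integral_const_mul] at hle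
  linarith

/-- `f` is an a.e. limit of test functions whose gradients converge to `F` in `L²`. -/
def Adm (Ω : Set E3) (f : E3 → ℝ) (F : E3 → E3) : Prop :=
  MemLp F 2 volume ∧ ∃ φ : ℕ → E3 → ℝ, (∀ n, Test Ω (φ n)) ∧
    (∀ᵐ x, Tendsto (fun n => φ n x) atTop (𝓝 (f x))) ∧
    Tendsto (fun n => ∫ x, ‖gradient (φ n) x - F x‖ ^ 2) atTop (𝓝 0)

variable {f g : E3 → ℝ} {F G : E3 → E3}

lemma Test.adm {φ : E3 → ℝ} (h : Test Ω φ) : Adm Ω φ (gradient φ) :=
  ⟨h.memLp_grad, fun _ => φ, fun _ => h, Eventually.of_forall fun _ => tendsto_const_nhds,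
    by simp⟩

lemma Adm.meas (h : Adm Ω f F) : AEStronglyMeasurable f volume := by
  obtain ⟨-, φ, h1, h2, -⟩ := h
  exact aestronglyMeasurable_of_tendsto_ae atTop
    (fun n => (h1 n).1.continuous.aestronglyMeasurable) h2

lemma Adm.int_sq (h : Adm Ω f F) : Integrable (fun x => ‖F x‖ ^ 2) :=
  h.1.integrable_norm_pow (by simp)

lemma Adm.zero_out (h : Adm Ω f F) : ∀ᵐ x, x ∉ Ω → f x = 0 := by
  obtain ⟨-, φ, h1, h2, -⟩ := h
  filter_upwards [h2] with x hx hΩ
  have : ∀ n, φ n x = 0 := fun n => image_eq_zero_of_notMem_tsupport (fun hc => hΩ ((h1 n).2.2 hc))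
  simp only [this] at hx
  exact (tendsto_nhds_unique tendsto_const_nhds hx).symm

lemma Adm.grad_zero_out (hΩ : MeasurableSet Ω) (h : Adm Ω f F) : ∀ᵐ x, x ∉ Ω → F x = 0 := by
  have hi := h.int_sq
  obtain ⟨hF, φ, h1, -, h3⟩ := h
  have hi' : Integrable (Ωᶜ.indicator fun x => ‖F x‖ ^ 2) := hi.indicator hΩ.compl
  have h0 : ∀ x, 0 ≤ Ωᶜ.indicator (fun x => ‖F x‖ ^ 2) x :=
    fun x => Set.indicator_nonneg (fun y _ => sq_nonneg _) x
  have hle : ∫ x, Ωᶜ.indicator (fun x => ‖F x‖ ^ 2) x ≤ 0 := by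
    refine ge_of_tendsto' h3 (fun n => ?_)
    refine integral_mono hi' (((h1 n).memLp_grad.sub hF).integrable_norm_pow (by simp))
      (fun x => ?_)
    by_cases hx : x ∈ Ω
    · simp [hx]
    · have : gradient (φ n) x = 0 := Test.grad_zero (fun hc => hx ((h1 n).2.2 hc))
      simp [hx, this]
  have := (integral_eq_zero_iff_of_nonneg h0 hi').1 (le_antisymm hle (integral_nonneg h0))
  filter_upwards [this] with x hx hΩ'
  simpa [hΩ'] using hx

lemma Adm.tendsto_norm {φ : ℕ → E3 → ℝ} (hF : MemLp F 2 volume) (h1 : ∀ n, Test Ω (φ n))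
    (h3 : Tendsto (fun n => ∫ x, ‖gradient (φ n) x - F x‖ ^ 2) atTop (𝓝 0)) :
    Tendsto (fun n => ∫ x, ‖gradient (φ n) x‖ ^ 2) atTop (𝓝 (∫ x, ‖F x‖ ^ 2)) :=
  tendsto_sq_norm (fun n => (h1 n).memLp_grad) hF h3

lemma Adm.hardy (h0 : (0 : E3) ∉ Ω) (h : Adm Ω f F) :
    Integrable (fun x => f x ^ 2 / ‖x‖ ^ 2) ∧ ∫ x, f x ^ 2 / ‖x‖ ^ 2 ≤ 4 * ∫ x, ‖F x‖ ^ 2 := by
  obtain ⟨hF, φ, h1, h2, h3⟩ := h
  refine fatou_real (g := fun n x => φ n x ^ 2 / ‖x‖ ^ 2) (fun n x => by positivity)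
    (fun n => (hardy_test h0 (h1 n)).1) ?_ ((Adm.tendsto_norm hF h1 h3).const_mul 4)
    (fun n => (hardy_test h0 (h1 n)).2)
  filter_upwards [h2] with x hx
  exact (hx.pow 2).div_const _

lemma sobolev_adm : ∃ C : ℝ, 0 ≤ C ∧ ∀ (Ω : Set E3) (f : E3 → ℝ) (F : E3 → E3), Adm Ω f F →
    Integrable (fun x => f x ^ 6) ∧ ∫ x, f x ^ 6 ≤ C * (∫ x, ‖F x‖ ^ 2) ^ 3 := by
  obtain ⟨C, hC, hS⟩ := sobolev_test
  refine ⟨C, hC, fun Ω f F h => ?_⟩
  obtain ⟨hF, φ, h1, h2, h3⟩ := h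
  refine fatou_real (g := fun n x => φ n x ^ 6) (fun n x => by positivity)
    (fun n => ?_) ?_ (((Adm.tendsto_norm hF h1 h3).pow 3).const_mul C)
    (fun n => hS Ω _ (h1 n))
  · refine ((h1 n).1.continuous.pow 6).integrable_of_hasCompactSupport ?_
    exact (h1 n).2.1.comp_left (g := fun z : ℝ => z ^ 6) (by simp)
  · filter_upwards [h2] with x hx
    exact hx.pow 6

lemma Adm.sub (h : Adm Ω f F) (h' : Adm Ω g G) :
    Adm Ω (fun x => f x - g x) (fun x => F x - G x) := by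
  obtain ⟨hF, φ, h1, h2, h3⟩ := h
  obtain ⟨hG, ψ, k1, k2, k3⟩ := h'
  refine ⟨hF.sub hG, fun n x => φ n x - ψ n x, fun n => (h1 n).sub (k1 n), ?_, ?_⟩
  · filter_upwards [h2, k2] with x hx hy
    exact hx.sub hy
  · have hlim := (h3.const_mul 2).add (k3.const_mul 2)
    simp only [mul_zero, add_zero] at hlim
    refine squeeze_zero (fun n => integral_nonneg fun x => by positivity) (fun n => ?_) hlim
    have i1 : Integrable (fun x => ‖gradient (φ n) x - F x‖ ^ 2) :=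
      ((h1 n).memLp_grad.sub hF).integrable_norm_pow (p := 2) (by simp)
    have i2 : Integrable (fun x => ‖gradient (ψ n) x - G x‖ ^ 2) :=
      ((k1 n).memLp_grad.sub hG).integrable_norm_pow (p := 2) (by simp)
    rw [← integral_const_mul, ← integral_const_mul,
      ← integral_add (i1.const_mul 2) (i2.const_mul 2)]
    refine integral_mono_of_nonneg (Eventually.of_forall fun x => by positivity)
      ((i1.const_mul 2).add (i2.const_mul 2)) (Eventually.of_forall fun x => ?_)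
    simp only
    rw [gradient_sub' ((h1 n).diff x) ((k1 n).diff x)]
    have e : gradient (φ n) x - gradient (ψ n) x - (F x - G x) =
      (gradient (φ n) x - F x) - (gradient (ψ n) x - G x) := by abel
    rw [e]
    have := norm_sub_le (gradient (φ n) x - F x) (gradient (ψ n) x - G x)
    have h5 := pow_le_pow_left₀ (norm_nonneg _) this 2
    nlinarith [sq_nonneg (‖gradient (φ n) x - F x‖ - ‖gradient (ψ n) x - G x‖)]

lemma Adm.const_mul (h : Adm Ω f F) (c : ℝ) :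
    Adm Ω (fun x => c * f x) (fun x => c • F x) := by
  obtain ⟨hF, φ, h1, h2, h3⟩ := h
  refine ⟨hF.const_smul c, fun n x => c * φ n x, fun n => (h1 n).const_mul c, ?_, ?_⟩
  · filter_upwards [h2] with x hx
    exact hx.const_mul c
  · have hlim := h3.const_mul (c ^ 2)
    simp only [mul_zero] at hlim
    refine hlim.congr (fun n => ?_)
    rw [← integral_const_mul]
    refine integral_congr_ae (Eventually.of_forall fun x => ?_)
    simp only
    rw [gradient_const_mul' ((h1 n).diff x), ← smul_sub, norm_smul, mul_pow, Real.norm_eq_abs,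
      sq_abs]

/-- `g` is integrable with integral `a`. -/
def HI (g : E3 → ℝ) (a : ℝ) : Prop := Integrable g ∧ ∫ x, g x = a

lemma HI.of {g : E3 → ℝ} (h : Integrable g) : HI g (∫ x, g x) := ⟨h, rfl⟩

lemma HI.add {g h : E3 → ℝ} {a b : ℝ} (h1 : HI g a) (h2 : HI h b) :
    HI (fun x => g x + h x) (a + b) :=
  ⟨h1.1.add h2.1, by rw [integral_add h1.1 h2.1, h1.2, h2.2]⟩

lemma HI.sub {g h : E3 → ℝ} {a b : ℝ} (h1 : HI g a) (h2 : HI h b) :
    HI (fun x => g x - h x) (a - b) :=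
  ⟨h1.1.sub h2.1, by rw [integral_sub h1.1 h2.1, h1.2, h2.2]⟩

lemma HI.const_mul {g : E3 → ℝ} {a : ℝ} (h1 : HI g a) (c : ℝ) :
    HI (fun x => c * g x) (c * a) :=
  ⟨h1.1.const_mul c, by rw [integral_const_mul, h1.2]⟩

lemma HI.le {g h : E3 → ℝ} {a b : ℝ} (h1 : HI g a) (h2 : HI h b) (hle : ∀ᵐ x, g x ≤ h x) :
    a ≤ b := by
  rw [← h1.2, ← h2.2]
  exact integral_mono_ae h1.1 h2.1 hle

lemma int_of_le {g h : E3 → ℝ} (hh : Integrable h) (hg : AEStronglyMeasurable g volume)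
    (hle : ∀ᵐ x, |g x| ≤ h x) : Integrable g :=
  hh.mono' hg hle

end Pool.Agent.H468Z.Poh
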