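import Pool.Agent.H468Z.PohWeak

/-!
The Pohozaev inequality along sheared dilations.
-/

set_option autoImplicit false

open MeasureTheory Filter Topology
open scoped InnerProductSpace ENNReal NNReal

namespace Pool.Agent.H468Z.Poh

variable {Ω : Set E3} {u f : E3 → ℝ} {G F : E3 → E3}

lemma Adm.int4div (h0 : (0 : E3) ∉ Ω) (h : Adm Ω f F) : Integrable (fun x => f x ^ 4 / ‖x‖) := by
  obtain ⟨C, hC, hSob⟩ := sobolev_adm
  refine int_of_le ((hSob Ω f F h).1.add (h.hardy h0).1) ((h.meas.pow 4).aemeasurable.div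
    continuous_norm.measurable.aemeasurable).aestronglyMeasurable
    (Eventually.of_forall fun x => ?_)
  have := young2 (f x ^ 3) (f x / ‖x‖) 1 one_pos
  simp only [Pi.add_apply]
  calc |f x ^ 4 / ‖x‖| = |f x ^ 3 * (f x / ‖x‖)| := by ring_nf
    _ ≤ _ := this
    _ = _ := by ring

lemma V_sq_le {m κ : ℝ} (hm : 1 ≤ m) (hκ : 0 ≤ κ) (x g : E3)
    (hg : ¬ ‖Psi (m ^ 2) (κ * m ^ 2 * (1 - m ^ 2)) x‖ ≤ 4 → g = 0) :
    ‖m • TA (m ^ 2) (κ * m ^ 2 * (1 - m ^ 2)) x g‖ ^ 2 ≤ (m ^ 2) ^ 3 * (‖g‖ ^ 2 +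
      4 * κ * (m ^ 2 - 1) * (‖Psi (m ^ 2) (κ * m ^ 2 * (1 - m ^ 2)) x‖ * ‖g‖ ^ 2) +
      64 * κ ^ 2 * (m ^ 2 - 1) ^ 2 * ‖g‖ ^ 2) := by
  set l := m ^ 2 with hl
  set y := Psi l (κ * l * (1 - l)) x with hy
  have hl1 : 1 ≤ l := one_le_pow₀ hm
  by_cases hc : ‖y‖ ≤ 4
  · have h1 := norm_TA_le (show 0 ≤ l by linarith) (κ * l * (1 - l)) x g
    have h2 : |κ * l * (1 - l)| = κ * l * (l - 1) := by
      rw [abs_mul, abs_of_nonneg (by positivity), abs_of_nonpos (by linarith)]; ring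
    have h3 : l * ‖Q x‖ ≤ ‖y‖ := by
      refine (pow_le_pow_iff_left₀ (by positivity) (norm_nonneg _) two_ne_zero).1 ?_
      rw [mul_pow, norm_Q_sq, ← P_Psi l (κ * l * (1 - l))]
      exact P_le _
    have hs : 0 ≤ κ * (l - 1) := mul_nonneg hκ (by linarith)
    have h4 : l + 2 * |κ * l * (1 - l)| * ‖Q x‖ ≤ l * (1 + 2 * (κ * (l - 1)) * ‖y‖) := by
      rw [h2]
      have h5 := mul_le_mul_of_nonneg_left h3 hs
      have h6 : κ * (l - 1) * ‖y‖ ≤ l * (κ * (l - 1) * ‖y‖) :=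
        le_mul_of_one_le_left (by positivity) hl1
      nlinarith
    have h5 := pow_le_pow_left₀ (norm_nonneg _)
      (h1.trans (mul_le_mul_of_nonneg_right h4 (norm_nonneg g))) 2
    have h6 : (κ * (l - 1)) ^ 2 * ‖y‖ ^ 2 ≤ (κ * (l - 1)) ^ 2 * 16 :=
      mul_le_mul_of_nonneg_left (by nlinarith [norm_nonneg y]) (sq_nonneg _)
    have h7 : (1 + 2 * (κ * (l - 1)) * ‖y‖) ^ 2 ≤
        1 + 4 * κ * (l - 1) * ‖y‖ + 64 * κ ^ 2 * (l - 1) ^ 2 := by nlinarith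
    have h8 := mul_le_mul_of_nonneg_left h7 (show 0 ≤ l ^ 3 * ‖g‖ ^ 2 by positivity)
    rw [norm_smul, mul_pow, Real.norm_eq_abs, sq_abs, ← hl]
    calc l * ‖TA l (κ * l * (1 - l)) x g‖ ^ 2
        ≤ l * (l * (1 + 2 * (κ * (l - 1)) * ‖y‖) * ‖g‖) ^ 2 :=
          mul_le_mul_of_nonneg_left h5 (by linarith)
      _ = l ^ 3 * ‖g‖ ^ 2 * (1 + 2 * (κ * (l - 1)) * ‖y‖) ^ 2 := by ring
      _ ≤ _ := h8
      _ = _ := by ring
  · rw [hg hc]; simp [TA]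

lemma inv_norm_ge {l κ : ℝ} (hl : 1 ≤ l) (hκ : 0 ≤ κ) (x : E3) :
    l * (‖Psi l (κ * l * (1 - l)) x‖⁻¹ - κ * (l - 1)) ≤ ‖x‖⁻¹ := by
  set y := Psi l (κ * l * (1 - l)) x with hy
  have hs : 0 ≤ κ * (l - 1) := mul_nonneg hκ (by linarith)
  by_cases hy0 : ‖y‖ = 0
  · rw [hy0, inv_zero]
    have : 0 ≤ ‖x‖⁻¹ := by positivity
    nlinarith
  have hr : 0 < ‖y‖ := lt_of_le_of_ne (norm_nonneg _) (Ne.symm hy0)
  have hx : 0 < ‖x‖ := by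
    rw [norm_pos_iff]
    rintro rfl
    exact hy0 (by simp [hy, Psi, P])
  have h1 : l * ‖x‖ ≤ ‖y‖ + κ * (l - 1) * ‖y‖ ^ 2 := by
    have e : l • x = y + (κ * l * (l - 1) * P x) • e2 := by
      rw [hy, Psi]; module
    have h2 : l * ‖x‖ = ‖l • x‖ := by
      rw [norm_smul, Real.norm_eq_abs, abs_of_nonneg (by linarith)]
    have hP := P_nonneg x
    rw [h2, e]
    refine (norm_add_le _ _).trans (add_le_add_right ?_ _)
    rw [norm_smul, norm_e2, mul_one, Real.norm_eq_abs,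
      abs_of_nonneg (mul_nonneg (mul_nonneg (by positivity) (by linarith)) hP)]
    have h3 : l ^ 2 * P x ≤ ‖y‖ ^ 2 := by
      rw [← P_Psi l (κ * l * (1 - l))]; exact P_le _
    have h4 : l * P x ≤ l ^ 2 * P x := mul_le_mul_of_nonneg_right (by nlinarith) hP
    have := mul_le_mul_of_nonneg_left (h4.trans h3) hs
    nlinarith
  have h2 : l * ‖x‖ * (1 - κ * (l - 1) * ‖y‖) ≤ ‖y‖ := by
    by_cases hc : 0 ≤ 1 - κ * (l - 1) * ‖y‖
    · have := mul_le_mul_of_nonneg_right h1 hc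
      have h3 : 0 ≤ (κ * (l - 1)) ^ 2 * ‖y‖ ^ 3 := by positivity
      nlinarith
    · push Not at hc
      have : 0 ≤ l * ‖x‖ := by positivity
      nlinarith
  have e : l * (‖y‖⁻¹ - κ * (l - 1)) = l * ‖x‖ * (1 - κ * (l - 1) * ‖y‖) * (‖x‖⁻¹ * ‖y‖⁻¹) := by
    field_simp
  rw [e]
  calc _ ≤ ‖y‖ * (‖x‖⁻¹ * ‖y‖⁻¹) := mul_le_mul_of_nonneg_right h2 (by positivity)
    _ = ‖x‖⁻¹ := by field_simp

lemma young4 {w b a : ℝ} (hb : 0 ≤ b) (ha : 0 < a) : (w * b) ^ 2 ≤ (a ^ 2)⁻¹ * w ^ 6 + a * b ^ 3 := by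
  rcases le_total (w ^ 2) (a * b) with h | h
  · have := mul_le_mul_of_nonneg_right h (sq_nonneg b)
    have : 0 ≤ (a ^ 2)⁻¹ * w ^ 6 := by positivity
    nlinarith
  · have h1 := pow_le_pow_left₀ (by positivity) h 2
    have h2 : (w * b) ^ 2 ≤ (a ^ 2)⁻¹ * w ^ 6 := by
      rw [inv_mul_eq_div, le_div_iff₀ (by positivity)]
      have := mul_le_mul_of_nonneg_right h1 (sq_nonneg w)
      nlinarith
    have : 0 ≤ a * b ^ 3 := by positivity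
    linarith

lemma pointwise_poh (g V : E3) {p v n a η : ℝ} (hp : 0 ≤ p) (hv : 0 ≤ v) (hn : 0 ≤ n)
    (ha : 0 < a) (hη : 0 < η) :
    (1 / 2) * ‖g - V‖ ^ 2 + (1 / 2) * ‖g‖ ^ 2 - (1 / 2) * ‖V‖ ^ 2 + (1 / 5) * (p ^ 5 - v ^ 5) -
      (1 / 4) * (p ^ 4 / n - v ^ 4 / n) -
      (η * ((a ^ 2)⁻¹ * (p - v) ^ 6 + 4 * a * (p ^ 6 + v ^ 6)) + η⁻¹ * ((p - v) ^ 2 / n ^ 2)) ≤
    ⟪g, g - V⟫_ℝ + p ^ 4 * (p - v) - p ^ 3 * (p - v) / n := by
  have e1 : ⟪g, g - V⟫_ℝ = (1 / 2) * ‖g - V‖ ^ 2 + (1 / 2) * ‖g‖ ^ 2 - (1 / 2) * ‖V‖ ^ 2 := by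
    rw [norm_sub_sq_real, inner_sub_right, real_inner_self_eq_norm_sq]; ring
  have h1 : (1 / 5) * (p ^ 5 - v ^ 5) ≤ p ^ 4 * (p - v) := by
    have : 0 ≤ (p - v) ^ 2 * (4 * p ^ 3 + 3 * p ^ 2 * v + 2 * p * v ^ 2 + v ^ 3) := by positivity
    nlinarith
  have h2 : p ^ 3 * (p - v) ≤ (1 / 4) * (p ^ 4 - v ^ 4) + (p - v) ^ 2 * (p ^ 2 + v ^ 2) := by
    have : 0 ≤ (p - v) ^ 2 * ((p - v) ^ 2 + 2 * v ^ 2) := by positivity
    nlinarith
  have h3 := div_le_div_of_nonneg_right h2 hn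
  have h4 := young2 ((p - v) * (p ^ 2 + v ^ 2)) ((p - v) / n) η hη
  have h5 := young4 (w := p - v) (b := p ^ 2 + v ^ 2) (by positivity) ha
  have h6 : (p ^ 2 + v ^ 2) ^ 3 ≤ 4 * (p ^ 6 + v ^ 6) := by
    have : 0 ≤ (p ^ 2 - v ^ 2) ^ 2 * (p ^ 2 + v ^ 2) := by positivity
    nlinarith
  have h7 := mul_le_mul_of_nonneg_left h6 ha.le
  have h8 : ((p - v) * (p ^ 2 + v ^ 2)) ^ 2 ≤
      (a ^ 2)⁻¹ * (p - v) ^ 6 + 4 * a * (p ^ 6 + v ^ 6) := by linarith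
  have h9 := mul_le_mul_of_nonneg_left h8 hη.le
  have h10 := le_abs_self ((p - v) * (p ^ 2 + v ^ 2) * ((p - v) / n))
  have e2 : ((1 / 4) * (p ^ 4 - v ^ 4) + (p - v) ^ 2 * (p ^ 2 + v ^ 2)) / n =
      (1 / 4) * (p ^ 4 / n - v ^ 4 / n) + (p - v) * (p ^ 2 + v ^ 2) * ((p - v) / n) := by ring
  rw [div_pow] at h4
  rw [e1]
  linarith

lemma Sol.poh_step (hS : Sol Ω u G) {κ : ℝ} (hκ : 0 ≤ κ) (hκ' : κ ≤ 1 / 2000)
    (hinv : ∀ l : ℝ, 1 ≤ l → ∀ x, Psi l (κ * l * (1 - l)) x ∈ Ω → x ∈ Ω) :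
    ∃ K : ℝ, ∀ m : ℝ, 1 < m → m ≤ 2 → (1 / 100) * ∫ x, u x ^ 5 ≤ (m ^ 2 - 1) * K := by
  obtain ⟨C, hC, hSob⟩ := sobolev_adm
  obtain ⟨i4, i5, i6, i4d⟩ := hS.int_pow
  obtain ⟨iΓ, hΓ, hU4⟩ := hS.apriori
  have hN0 : 0 ≤ ∫ x, ‖G x‖ ^ 2 := integral_nonneg fun x => by positivity
  have hU6 : 0 ≤ ∫ x, u x ^ 6 := integral_nonneg fun x => by positivity
  have hJ0 : 0 ≤ ∫ x, u x ^ 5 := integral_nonneg_of_ae (by
    filter_upwards [hS.nonneg] with x hx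
    exact pow_nonneg hx 5)
  set N := ∫ x, ‖G x‖ ^ 2 with hN
  set U6 := ∫ x, u x ^ 6 with hU6def
  set J := ∫ x, u x ^ 5 with hJ
  set η : ℝ := (2 * (C + 8 * U6) + 1)⁻¹ with hη
  have hηpos : 0 < η := by positivity
  have hηle : η * (C + 8 * U6) ≤ 1 / 2 := by
    rw [hη, inv_mul_eq_div, div_le_div_iff₀ (by positivity) (by norm_num)]; linarith
  refine ⟨32 * κ ^ 2 * N + 1 / 2 + η⁻¹ * (40 * N), fun m hm hm2 => ?_⟩
  have hl1 : 1 ≤ m ^ 2 := one_le_pow₀ hm.le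
  have hl0 : 0 < m ^ 2 := by positivity
  have hh : 0 < m ^ 2 - 1 := by nlinarith
  have hinv' := hinv (m ^ 2) hl1
  set c := κ * m ^ 2 * (1 - m ^ 2) with hc
  have Av := (hS.adm.comp hS.meas hS.bdd hl0 c hinv').const_mul m
  have Aw := hS.adm.sub Av
  have hL := hS.weak_adm Aw
  have qmp := qmp_Psi hl0 c
  have iW := HI.of Aw.int_sq
  have iG : HI _ N := HI.of hS.adm.int_sq
  have iV := HI.of Av.int_sq
  have iJ : HI _ J := HI.of i5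
  have iU6 : HI _ U6 := HI.of i6
  have iv5 : HI (fun x => (m * u (Psi (m ^ 2) c x)) ^ 5) (m⁻¹ * J) := by
    have := (iJ.comp hl0 c).const_mul (m ^ 5)
    simp only [mul_pow]
    convert this using 1
    field_simp
  have iv6 : HI (fun x => (m * u (Psi (m ^ 2) c x)) ^ 6) U6 := by
    have := (iU6.comp hl0 c).const_mul (m ^ 6)
    simp only [mul_pow]
    convert this using 1
    field_simp
  have iT := HI.of i4d
  have iTv := HI.of (Av.int4div hS.zero)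
  have iw6 := HI.of (hSob Ω _ _ Aw).1
  have hw6 := (hSob Ω _ _ Aw).2
  have iwH := HI.of (Aw.hardy hS.zero).1
  have hNW : 0 ≤ ∫ x, ‖G x - m • TA (m ^ 2) c x (G (Psi (m ^ 2) c x))‖ ^ 2 :=
    integral_nonneg fun x => by positivity
  set NW := ∫ x, ‖G x - m • TA (m ^ 2) c x (G (Psi (m ^ 2) c x))‖ ^ 2 with hNWdef
  set a := NW + (m ^ 2 - 1) ^ 2 with ha
  have hapos : 0 < a := by positivity
  have main := (((((iW.const_mul (1 / 2)).add (iG.const_mul (1 / 2))).sub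
    (iV.const_mul (1 / 2))).add ((iJ.sub iv5).const_mul (1 / 5))).sub
    ((iT.sub iTv).const_mul (1 / 4))).sub
    ((((iw6.const_mul (a ^ 2)⁻¹).add ((iU6.add iv6).const_mul (4 * a))).const_mul η).add
      (iwH.const_mul η⁻¹)) |>.le hL (by
    filter_upwards [hS.nonneg, qmp.ae hS.nonneg] with x hx hy
    exact pointwise_poh (G x) _ hx (mul_nonneg (by linarith) hy) (norm_nonneg x) hapos hηpos)
  have bV := iV.le ((((iG.add ((HI.of iΓ).const_mul (4 * κ * (m ^ 2 - 1)))).add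
    (iG.const_mul (64 * κ ^ 2 * (m ^ 2 - 1) ^ 2))).comp hl0 c).const_mul ((m ^ 2) ^ 3)) (by
    filter_upwards [qmp.ae (hS.adm.grad_zero_out hS.meas)] with x hx
    exact V_sq_le hm.le hκ x _ (fun h => hx (fun h' => h (hS.bdd _ h'))))
  rw [← mul_assoc, mul_inv_cancel₀ (by positivity), one_mul] at bV
  have bT := (((iT.sub ((HI.of i4).const_mul (κ * (m ^ 2 - 1)))).comp hl0 c).const_mul
    ((m ^ 2) ^ 3)).le iTv (Eventually.of_forall fun x => by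
    have h1 := mul_le_mul_of_nonneg_left (inv_norm_ge hl1 hκ x)
      (show 0 ≤ (m * u (Psi (m ^ 2) c x)) ^ 4 by positivity)
    calc _ = (m * u (Psi (m ^ 2) c x)) ^ 4 *
          (m ^ 2 * (‖Psi (m ^ 2) c x‖⁻¹ - κ * (m ^ 2 - 1))) := by ring
      _ ≤ _ := h1
      _ = _ := by rw [div_eq_mul_inv])
  rw [← mul_assoc, mul_inv_cancel₀ (by positivity), one_mul] at bT
  have hD := hS.adm.dil hS.zero hS.bdd hl1 c hinv'
  have hH := hS.adm.hardy hS.zero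
  have bH := iwH.le (((HI.of hD.1).const_mul 8).add ((HI.of hH.1).const_mul
    (2 * (m ^ 2 - 1) ^ 2))) (Eventually.of_forall fun x => by
    have h1 : (u x - m * u (Psi (m ^ 2) c x)) ^ 2 ≤
        8 * (u (Psi (m ^ 2) c x) - u x) ^ 2 + 2 * (m ^ 2 - 1) ^ 2 * u x ^ 2 := by
      have k1 : m ^ 2 * (u (Psi (m ^ 2) c x) - u x) ^ 2 ≤ 4 * (u (Psi (m ^ 2) c x) - u x) ^ 2 :=
        mul_le_mul_of_nonneg_right (by nlinarith) (sq_nonneg _)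
      have k2 : (m - 1) ^ 2 * u x ^ 2 ≤ (m ^ 2 - 1) ^ 2 * u x ^ 2 :=
        mul_le_mul_of_nonneg_right (pow_le_pow_left₀ (by linarith) (by nlinarith) 2) (sq_nonneg _)
      nlinarith [sq_nonneg (m * (u (Psi (m ^ 2) c x) - u x) - (m - 1) * u x)]
    calc _ ≤ (8 * (u (Psi (m ^ 2) c x) - u x) ^ 2 + 2 * (m ^ 2 - 1) ^ 2 * u x ^ 2) / ‖x‖ ^ 2 :=
          div_le_div_of_nonneg_right h1 (sq_nonneg _)
      _ = _ := by ring)
  have hM : (m ^ 2 - 1 + 4 * |c|) ^ 2 ≤ 4 * (m ^ 2 - 1) ^ 2 := by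
    have h2 : |c| = κ * m ^ 2 * (m ^ 2 - 1) := by
      rw [hc, abs_mul, abs_of_nonneg (by positivity), abs_of_nonpos (by linarith)]; ring
    have h3 : 4 * |c| ≤ m ^ 2 - 1 := by
      rw [h2]
      have : κ * m ^ 2 ≤ 1 / 4 := by nlinarith
      nlinarith
    have := abs_nonneg c
    nlinarith
  have bH' : ∫ x, (u x - m * u (Psi (m ^ 2) c x)) ^ 2 / ‖x‖ ^ 2 ≤ (m ^ 2 - 1) ^ 2 * (40 * N) := by
    have k1 := hD.2.trans (mul_le_mul_of_nonneg_right hM hN0)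
    have k2 := mul_le_mul_of_nonneg_left hH.2 (show 0 ≤ 2 * (m ^ 2 - 1) ^ 2 by positivity)
    nlinarith
  have bH'' := mul_le_mul_of_nonneg_left bH' (show 0 ≤ η⁻¹ by positivity)
  have b6 : (a ^ 2)⁻¹ * ∫ x, (u x - m * u (Psi (m ^ 2) c x)) ^ 6 ≤ C * a := by
    rw [inv_mul_eq_div, div_le_iff₀ (by positivity)]
    have k1 : NW ^ 3 ≤ a ^ 3 := pow_le_pow_left₀ hNW (by rw [ha]; nlinarith) 3
    have k2 := mul_le_mul_of_nonneg_left k1 hC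
    calc _ ≤ C * NW ^ 3 := hw6
      _ ≤ C * a ^ 3 := k2
      _ = _ := by ring
  have b7 : η * ((a ^ 2)⁻¹ * (∫ x, (u x - m * u (Psi (m ^ 2) c x)) ^ 6) + 4 * a * (U6 + U6)) ≤
      a / 2 := by
    have k1 : (a ^ 2)⁻¹ * (∫ x, (u x - m * u (Psi (m ^ 2) c x)) ^ 6) + 4 * a * (U6 + U6) ≤
        (C + 8 * U6) * a := by linarith
    have k2 := mul_le_mul_of_nonneg_left k1 hηpos.le
    have k3 := mul_le_mul_of_nonneg_right hηle hapos.le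
    nlinarith
  have b8 : (m ^ 2 - 1) / 6 * J ≤ J - m⁻¹ * J := by
    have k1 : (m ^ 2 - 1) / 6 ≤ 1 - m⁻¹ := by
      have : 1 - m⁻¹ = (m - 1) / m := by field_simp
      rw [this, div_le_div_iff₀ (by norm_num) (by linarith)]
      have k2 : m * (m + 1) ≤ 6 := by nlinarith
      have := mul_le_mul_of_nonneg_left k2 (show 0 ≤ m - 1 by linarith)
      nlinarith
    have := mul_le_mul_of_nonneg_right k1 hJ0
    linarith
  have hκh : 0 ≤ κ * (m ^ 2 - 1) := by positivity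
  have b9 := mul_le_mul_of_nonneg_left hΓ hκh
  have b10 := mul_le_mul_of_nonneg_left hU4 hκh
  have b11 : κ * ((m ^ 2 - 1) * J) ≤ 1 / 2000 * ((m ^ 2 - 1) * J) :=
    mul_le_mul_of_nonneg_right hκ' (by positivity)
  have hhJ : 0 ≤ (m ^ 2 - 1) * J := by positivity
  have fin : (m ^ 2 - 1) * ((1 / 100) * J) ≤
      (m ^ 2 - 1) * ((m ^ 2 - 1) * (32 * κ ^ 2 * N + 1 / 2 + η⁻¹ * (40 * N))) := by
    linarith
  exact le_of_mul_le_mul_left fin hh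

theorem Sol.ae_zero (hS : Sol Ω u G) {κ : ℝ} (hκ : 0 ≤ κ) (hκ' : κ ≤ 1 / 2000)
    (hinv : ∀ l : ℝ, 1 ≤ l → ∀ x, Psi l (κ * l * (1 - l)) x ∈ Ω → x ∈ Ω) :
    ∀ᵐ x, u x = 0 := by
  obtain ⟨K, hK⟩ := hS.poh_step hκ hκ' hinv
  have hlim : Tendsto (fun m : ℝ => (m ^ 2 - 1) * K) (𝓝[>] 1) (𝓝 ((1 ^ 2 - 1) * K)) :=
    (((tendsto_id.pow 2).sub_const 1).mul_const K).mono_left nhdsWithin_le_nhds
  have hle : (1 / 100) * ∫ x, u x ^ 5 ≤ (1 ^ 2 - 1) * K := by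
    refine ge_of_tendsto hlim ?_
    filter_upwards [Ioc_mem_nhdsGT (show (1 : ℝ) < 2 by norm_num)] with m hm
    exact hK m hm.1 hm.2
  have h0 : 0 ≤ᵐ[volume] fun x => u x ^ 5 := by
    filter_upwards [hS.nonneg] with x hx
    exact pow_nonneg hx 5
  have h1 := (integral_eq_zero_iff_of_nonneg_ae h0 hS.int_pow.2.1).1
    (le_antisymm (by linarith) (integral_nonneg_of_ae h0))
  filter_upwards [h1] with x hx
  exact pow_eq_zero_iff (n := 5) (by norm_num) |>.1 hx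

end Pool.Agent.H468Z.Poh
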