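import Pool.Agent.H468Z.PohHardy

/-!
Sheared dilations of `ℝ³`.
-/

set_option autoImplicit false

open MeasureTheory Filter Topology
open scoped InnerProductSpace ENNReal NNReal

namespace Pool.Agent.H468Z.Poh

/-- Squared length of the horizontal part. -/
def P (x : E3) : ℝ := x 0 ^ 2 + x 1 ^ 2

/-- The vertical unit vector. -/
noncomputable def e2 : E3 := EuclideanSpace.single 2 1

/-- The horizontal part. -/
noncomputable def Q (x : E3) : E3 := x - x 2 • e2

/-- Sheared dilation. -/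
noncomputable def Psi (l c : ℝ) (x : E3) : E3 := l • x + (c * P x) • e2

@[simp] lemma e2_0 : e2 0 = 0 := by simp [e2]
@[simp] lemma e2_1 : e2 1 = 0 := by simp [e2]
@[simp] lemma e2_2 : e2 2 = 1 := by simp [e2]
@[simp] lemma Q_0 (x : E3) : Q x 0 = x 0 := by simp [Q]
@[simp] lemma Q_1 (x : E3) : Q x 1 = x 1 := by simp [Q]
@[simp] lemma Q_2 (x : E3) : Q x 2 = 0 := by simp [Q]
@[simp] lemma Psi_0 (l c : ℝ) (x : E3) : Psi l c x 0 = l * x 0 := by simp [Psi]
@[simp] lemma Psi_1 (l c : ℝ) (x : E3) : Psi l c x 1 = l * x 1 := by simp [Psi]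
@[simp] lemma Psi_2 (l c : ℝ) (x : E3) : Psi l c x 2 = l * x 2 + c * P x := by simp [Psi]

lemma ext3 {a b : E3} (h0 : a 0 = b 0) (h1 : a 1 = b 1) (h2 : a 2 = b 2) : a = b := by
  ext i
  fin_cases i
  · exact h0
  · exact h1
  · exact h2

lemma norm_e2 : ‖e2‖ = 1 := by simp [e2]

lemma P_nonneg (x : E3) : 0 ≤ P x := by unfold P; positivity

lemma P_le (x : E3) : P x ≤ ‖x‖ ^ 2 := by
  rw [norm_sq_eq_sum3, P]; nlinarith [sq_nonneg (x 2)]

lemma norm_Q_sq (x : E3) : ‖Q x‖ ^ 2 = P x := by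
  rw [norm_sq_eq_sum3, P]; simp

lemma P_Psi (l c : ℝ) (x : E3) : P (Psi l c x) = l ^ 2 * P x := by
  simp only [P, Psi_0, Psi_1]; ring

lemma contDiff_P {n : WithTop ℕ∞} : ContDiff ℝ n P := by
  unfold P; fun_prop

lemma contDiff_Psi {n : WithTop ℕ∞} (l c : ℝ) : ContDiff ℝ n (Psi l c) :=
  (contDiff_id.const_smul l).add ((contDiff_const.mul contDiff_P).smul contDiff_const)

lemma continuous_Q : Continuous Q := by
  unfold Q; fun_prop

lemma hasFDerivAt_P (x : E3) : HasFDerivAt P ((2 : ℝ) • innerSL ℝ (Q x)) x := by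
  have d0 : HasFDerivAt (fun x : E3 => x 0) (EuclideanSpace.proj 0 : E3 →L[ℝ] ℝ) x :=
    (EuclideanSpace.proj 0 : E3 →L[ℝ] ℝ).hasFDerivAt
  have d1 : HasFDerivAt (fun x : E3 => x 1) (EuclideanSpace.proj 1 : E3 →L[ℝ] ℝ) x :=
    (EuclideanSpace.proj 1 : E3 →L[ℝ] ℝ).hasFDerivAt
  have d : HasFDerivAt P _ x := (d0.pow 2).add (d1.pow 2)
  refine d.congr_fderiv (ContinuousLinearMap.ext fun v => ?_)
  simp [inner_eq_sum3]
  ring

/-- The derivative of the sheared dilation. -/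
noncomputable def DPsi (l c : ℝ) (x : E3) : E3 →L[ℝ] E3 :=
  l • ContinuousLinearMap.id ℝ E3 + (c • ((2 : ℝ) • innerSL ℝ (Q x))).smulRight e2

lemma hasFDerivAt_Psi (l c : ℝ) (x : E3) : HasFDerivAt (Psi l c) (DPsi l c x) x :=
  ((hasFDerivAt_id x).const_smul l).add (((hasFDerivAt_P x).const_mul c).smul_const e2)

lemma DPsi_apply (l c : ℝ) (x v : E3) :
    DPsi l c x v = l • v + (2 * c * ⟪Q x, v⟫_ℝ) • e2 := by
  simp [DPsi]
  congr 1
  ring

lemma det_DPsi (l c : ℝ) (x : E3) : (DPsi l c x).det = l ^ 3 := by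
  rw [ContinuousLinearMap.det, ← LinearMap.det_toMatrix (EuclideanSpace.basisFun (Fin 3) ℝ).toBasis,
    Matrix.det_fin_three]
  simp [LinearMap.toMatrix_apply, DPsi_apply, inner_eq_sum3]
  ring

lemma Psi_inv {l : ℝ} (hl : l ≠ 0) (c : ℝ) (x : E3) :
    Psi l⁻¹ (-c / l ^ 3) (Psi l c x) = x := by
  refine ext3 ?_ ?_ ?_
  · simp [hl]
  · simp [hl]
  · rw [Psi_2, Psi_2, P_Psi]; field_simp; ring

lemma Psi_inv' {l : ℝ} (hl : l ≠ 0) (c : ℝ) (x : E3) :
    Psi l c (Psi l⁻¹ (-c / l ^ 3) x) = x := by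
  refine ext3 ?_ ?_ ?_
  · simp [hl]
  · simp [hl]
  · rw [Psi_2, Psi_2, P_Psi]; field_simp; ring

/-- The sheared dilation as a homeomorphism. -/
noncomputable def PsiH {l : ℝ} (hl : l ≠ 0) (c : ℝ) : E3 ≃ₜ E3 where
  toFun := Psi l c
  invFun := Psi l⁻¹ (-c / l ^ 3)
  left_inv := Psi_inv hl c
  right_inv := Psi_inv' hl c
  continuous_toFun := (contDiff_Psi (n := 0) l c).continuous
  continuous_invFun := (contDiff_Psi (n := 0) _ _).continuous

lemma map_Psi {l : ℝ} (hl : 0 < l) (c : ℝ) :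
    Measure.map (Psi l c) volume = ENNReal.ofReal ((l ^ 3)⁻¹) • (volume : Measure E3) := by
  have hm : Measurable (Psi l c) := (contDiff_Psi (n := 0) l c).continuous.measurable
  ext s hs
  rw [Measure.map_apply hm hs, Measure.smul_apply, smul_eq_mul]
  have h := lintegral_abs_det_fderiv_eq_addHaar_image (volume : Measure E3) (hm hs)
    (fun x _ => (hasFDerivAt_Psi l c x).hasFDerivWithinAt)
    ((PsiH hl.ne' c).injective.injOn)
  rw [Set.image_preimage_eq (f := Psi l c) s (PsiH hl.ne' c).surjective] at h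
  simp only [det_DPsi] at h
  rw [setLIntegral_const, abs_of_pos (by positivity)] at h
  rw [← h, ← mul_assoc, ← ENNReal.ofReal_mul (by positivity), inv_mul_cancel₀ (by positivity),
    ENNReal.ofReal_one, one_mul]

lemma qmp_Psi {l : ℝ} (hl : 0 < l) (c : ℝ) :
    Measure.QuasiMeasurePreserving (Psi l c) volume volume :=
  ⟨(contDiff_Psi (n := 0) l c).continuous.measurable, by
    rw [map_Psi hl c]; exact Measure.smul_absolutelyContinuous⟩

lemma HI.comp {g : E3 → ℝ} {a : ℝ} (h : HI g a) {l : ℝ} (hl : 0 < l) (c : ℝ) :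
    HI (fun x => g (Psi l c x)) ((l ^ 3)⁻¹ * a) := by
  let e := (PsiH hl.ne' c).toMeasurableEquiv
  have hmap : Measure.map e volume = ENNReal.ofReal ((l ^ 3)⁻¹) • (volume : Measure E3) :=
    map_Psi hl c
  constructor
  · have h1 : Integrable g (Measure.map e volume) := by
      rw [hmap]; exact h.1.smul_measure ENNReal.ofReal_ne_top
    exact (integrable_map_equiv e g).1 h1
  · have h1 := integral_map_equiv (μ := volume) e g
    rw [hmap, integral_smul_measure, ENNReal.toReal_ofReal (by positivity), h.2] at h1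
    exact h1.symm

/-- The action of the transposed derivative on a gradient. -/
noncomputable def TA (l c : ℝ) (x F : E3) : E3 := l • F + (2 * c * F 2) • Q x

lemma norm_TA_le {l : ℝ} (hl : 0 ≤ l) (c : ℝ) (x F : E3) :
    ‖TA l c x F‖ ≤ (l + 2 * |c| * ‖Q x‖) * ‖F‖ := by
  have h1 : |F 2| ≤ ‖F‖ := by
    have := PiLp.norm_apply_le F 2
    rwa [Real.norm_eq_abs] at this
  refine (norm_add_le _ _).trans ?_
  rw [norm_smul, norm_smul, Real.norm_eq_abs, Real.norm_eq_abs, abs_of_nonneg hl, abs_mul,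
    abs_mul, abs_two]
  have := mul_le_mul_of_nonneg_left h1 (show 0 ≤ 2 * |c| * ‖Q x‖ by positivity)
  nlinarith

lemma TA_sub (l c : ℝ) (x F G : E3) : TA l c x F - TA l c x G = TA l c x (F - G) := by
  simp only [TA, PiLp.sub_apply]
  module

lemma gradient_comp_Psi {φ : E3 → ℝ} (hφ : Differentiable ℝ φ) (l c : ℝ) (x : E3) :
    gradient (fun x => φ (Psi l c x)) x = TA l c x (gradient φ (Psi l c x)) := by
  refine ext_inner_right ℝ (fun v => ?_)
  have d : HasFDerivAt (fun x => φ (Psi l c x)) _ x :=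
    (hφ (Psi l c x)).hasFDerivAt.comp x (hasFDerivAt_Psi l c x)
  rw [inner_gradient_left, d.fderiv, ContinuousLinearMap.comp_apply, ← inner_gradient_left,
    DPsi_apply, TA, inner_add_left, inner_add_right, real_inner_smul_left, real_inner_smul_left,
    real_inner_smul_right, real_inner_smul_right, inner_eq_sum3 _ e2]
  simp
  ring

variable {Ω : Set E3} {f : E3 → ℝ} {F : E3 → E3}

lemma Test.comp {φ : E3 → ℝ} (h : Test Ω φ) {l : ℝ} (hl : 0 < l) (c : ℝ)
    (hinv : ∀ x, Psi l c x ∈ Ω → x ∈ Ω) : Test Ω (fun x => φ (Psi l c x)) := by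
  refine ⟨h.1.comp (contDiff_Psi l c), h.2.1.comp_homeomorph (PsiH hl.ne' c), ?_⟩
  have : tsupport (fun x => φ (Psi l c x)) ⊆ Psi l c ⁻¹' tsupport φ := by
    refine closure_minimal (fun x hx => ?_)
      ((isClosed_tsupport φ).preimage (contDiff_Psi (n := 0) l c).continuous)
    exact subset_tsupport φ hx
  exact fun x hx => hinv x (h.2.2 (this hx))

lemma meas_TA (hF : AEStronglyMeasurable F volume) {l : ℝ} (hl : 0 < l) (c : ℝ) :
    AEStronglyMeasurable (fun x => TA l c x (F (Psi l c x))) volume := by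
  have h1 : AEStronglyMeasurable (fun x => F (Psi l c x)) volume :=
    hF.comp_quasiMeasurePreserving (qmp_Psi hl c)
  have h2 : AEStronglyMeasurable (fun x => F (Psi l c x) 2) volume :=
    (EuclideanSpace.proj 2 : E3 →L[ℝ] ℝ).continuous.comp_aestronglyMeasurable h1
  exact (h1.const_smul l).add ((h2.const_mul (2 * c)).smul continuous_Q.aestronglyMeasurable)

lemma TA_sq_le {l c : ℝ} (hl : 0 < l) {x G : E3} (hG : ¬ ‖x‖ ≤ 4 → G = 0) :
    ‖TA l c x G‖ ^ 2 ≤ (l + 8 * |c|) ^ 2 * ‖G‖ ^ 2 := by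
  by_cases hx : ‖x‖ ≤ 4
  · have h1 := norm_TA_le hl.le c x G
    have h2 : ‖Q x‖ ≤ 4 := by
      have := norm_Q_sq x
      have := P_le x
      have := norm_nonneg x
      have := norm_nonneg (Q x)
      nlinarith
    have h3 : (l + 2 * |c| * ‖Q x‖) * ‖G‖ ≤ (l + 8 * |c|) * ‖G‖ :=
      mul_le_mul_of_nonneg_right (by nlinarith [abs_nonneg c]) (norm_nonneg _)
    rw [← mul_pow]
    exact pow_le_pow_left₀ (norm_nonneg _) (h1.trans h3) 2
  · rw [hG hx]; simp [TA]

lemma Adm.comp (hΩ : MeasurableSet Ω) (hb : ∀ x ∈ Ω, ‖x‖ ≤ 4) (h : Adm Ω f F) {l : ℝ}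
    (hl : 0 < l) (c : ℝ) (hinv : ∀ x, Psi l c x ∈ Ω → x ∈ Ω) :
    Adm Ω (fun x => f (Psi l c x)) (fun x => TA l c x (F (Psi l c x))) := by
  have hz := (qmp_Psi hl c).ae (h.grad_zero_out hΩ)
  have hi := (HI.of h.int_sq).comp hl c
  obtain ⟨hF, φ, h1, h2, h3⟩ := h
  refine ⟨?_, fun n x => φ n (Psi l c x), fun n => (h1 n).comp hl c hinv,
    (qmp_Psi hl c).ae h2, ?_⟩
  · rw [memLp_two_iff_integrable_sq_norm (meas_TA hF.1 hl c)]
    refine int_of_le (hi.1.const_mul ((l + 8 * |c|) ^ 2)) ((meas_TA hF.1 hl c).norm.pow 2) ?_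
    filter_upwards [hz] with x hx
    rw [abs_of_nonneg (sq_nonneg _)]
    exact TA_sq_le hl (fun hc => hx (fun hc' => hc (hb x (hinv x hc'))))
  · have hlim := h3.const_mul ((l + 8 * |c|) ^ 2 * (l ^ 3)⁻¹)
    rw [mul_zero] at hlim
    refine squeeze_zero (fun n => integral_nonneg fun x => by positivity) (fun n => ?_) hlim
    have i1 : Integrable (fun x => ‖gradient (φ n) x - F x‖ ^ 2) :=
      ((h1 n).memLp_grad.sub hF).integrable_norm_pow (p := 2) (by simp)
    have i2 := ((HI.of i1).comp hl c).const_mul ((l + 8 * |c|) ^ 2)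
    rw [mul_assoc, ← i2.2]
    refine integral_mono_of_nonneg (Eventually.of_forall fun x => by positivity) i2.1 ?_
    filter_upwards [hz] with x hx
    rw [gradient_comp_Psi (h1 n).diff, TA_sub]
    refine TA_sq_le hl (fun hc => ?_)
    have hx' : Psi l c x ∉ Ω := fun hc' => hc (hb x (hinv x hc'))
    rw [hx hx', Test.grad_zero (fun hc' => hx' ((h1 n).2.2 hc')), sub_zero]

end Pool.Agent.H468Z.Poh
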