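import Pool.Agent.H468Z.PohDil

/-!
The weak equation on limits of test functions, and the weighted a priori estimate.
-/

set_option autoImplicit false

open MeasureTheory Filter Topology
open scoped InnerProductSpace ENNReal NNReal

namespace Pool.Agent.H468Z.Poh

/-- The integrand of the weak equation. -/
noncomputable def Lint (u : E3 → ℝ) (G : E3 → E3) (f : E3 → ℝ) (F : E3 → E3) (x : E3) : ℝ :=
  ⟪G x, F x⟫_ℝ + u x ^ 4 * f x - u x ^ 3 * f x / ‖x‖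

/-- A nonnegative weak solution in a subset of the ball of radius four. -/
structure Sol (Ω : Set E3) (u : E3 → ℝ) (G : E3 → E3) : Prop where
  meas : MeasurableSet Ω
  zero : (0 : E3) ∉ Ω
  bdd : ∀ x ∈ Ω, ‖x‖ ≤ 4
  adm : Adm Ω u G
  nonneg : ∀ᵐ x, 0 ≤ u x
  weak : ∀ ψ, Test Ω ψ → ∫ x, Lint u G ψ (gradient ψ) x = 0

variable {Ω : Set E3} {u f : E3 → ℝ} {G F : E3 → E3}

lemma young1 (a b ε : ℝ) (hε : 0 < ε) : |a ^ 4 * b| ≤ ε * a ^ 6 + (ε ^ 2)⁻¹ * (b ^ 2 + b ^ 6) := by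
  have h1 : |b| ^ 3 ≤ b ^ 2 + b ^ 6 := by
    have e2 : b ^ 2 = |b| ^ 2 := (sq_abs b).symm
    have e6 : b ^ 6 = |b| ^ 6 := (Even.pow_abs (by norm_num) b).symm
    rw [e2, e6]
    have h0 := abs_nonneg b
    rcases le_total |b| 1 with h | h
    · have := pow_le_pow_of_le_one h0 h (show 2 ≤ 3 by norm_num)
      have : 0 ≤ |b| ^ 6 := by positivity
      linarith
    · have := pow_le_pow_right₀ h (show 3 ≤ 6 by norm_num)
      have : 0 ≤ |b| ^ 2 := by positivity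
      linarith
  rw [abs_mul, abs_of_nonneg (by positivity : 0 ≤ a ^ 4)]
  have h0 := abs_nonneg b
  have h2 : (ε ^ 2)⁻¹ * |b| ^ 3 ≤ (ε ^ 2)⁻¹ * (b ^ 2 + b ^ 6) :=
    mul_le_mul_of_nonneg_left h1 (by positivity)
  rcases le_total |b| (ε * a ^ 2) with h | h
  · have h3 := mul_le_mul_of_nonneg_left h (by positivity : 0 ≤ a ^ 4)
    have : 0 ≤ (ε ^ 2)⁻¹ * (b ^ 2 + b ^ 6) := by positivity
    nlinarith
  · have h3 : (ε * a ^ 2) ^ 2 ≤ |b| ^ 2 := pow_le_pow_left₀ (by positivity) h 2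
    have h4 : a ^ 4 * |b| ≤ (ε ^ 2)⁻¹ * |b| ^ 3 := by
      rw [inv_mul_eq_div, le_div_iff₀ (by positivity)]
      have := mul_le_mul_of_nonneg_right h3 h0
      nlinarith
    have : 0 ≤ ε * a ^ 6 := by positivity
    linarith

lemma young2 (a b ε : ℝ) (hε : 0 < ε) : |a * b| ≤ ε * a ^ 2 + ε⁻¹ * b ^ 2 := by
  have h1 : ε⁻¹ * (ε * |a| - |b|) ^ 2 = ε * a ^ 2 - 2 * |a * b| + ε⁻¹ * b ^ 2 := by
    rw [abs_mul, ← sq_abs a, ← sq_abs b]; field_simp; ring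
  have h2 : 0 ≤ ε⁻¹ * (ε * |a| - |b|) ^ 2 := by positivity
  have := abs_nonneg (a * b)
  linarith

lemma sq_le_hardy {x : E3} (hx0 : x ≠ 0) (hx : ‖x‖ ≤ 4) (a : ℝ) : a ^ 2 ≤ 16 * (a ^ 2 / ‖x‖ ^ 2) := by
  have hn : 0 < ‖x‖ := norm_pos_iff.2 hx0
  rw [mul_div_assoc', le_div_iff₀ (by positivity)]
  have : ‖x‖ ^ 2 ≤ 16 := by nlinarith
  nlinarith [sq_nonneg a]

lemma Sol.meas_Lint (hS : Sol Ω u G) (h : Adm Ω f F) :
    AEStronglyMeasurable (Lint u G f F) volume := by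
  have m1 := hS.adm.1.1.inner (𝕜 := ℝ) h.1.1
  have m2 := (hS.adm.meas.pow 4).mul h.meas
  have m3 : AEStronglyMeasurable (fun x => u x ^ 3 * f x / ‖x‖) volume :=
    (((hS.adm.meas.pow 3).mul h.meas).aemeasurable.div
      continuous_norm.measurable.aemeasurable).aestronglyMeasurable
  exact (m1.add m2).sub m3

lemma Sol.Lint_bound (hS : Sol Ω u G) : ∃ K C : ℝ, 0 ≤ K ∧ ∀ (f : E3 → ℝ) (F : E3 → E3),
    Adm Ω f F → Integrable (Lint u G f F) ∧ ∀ ε : ℝ, 0 < ε → |∫ x, Lint u G f F x| ≤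
      ε * K + (ε⁻¹ * (5 * ∫ x, ‖F x‖ ^ 2) +
        (ε ^ 2)⁻¹ * (64 * (∫ x, ‖F x‖ ^ 2) + C * (∫ x, ‖F x‖ ^ 2) ^ 3)) := by
  obtain ⟨C, hC, hSob⟩ := sobolev_adm
  refine ⟨(∫ x, ‖G x‖ ^ 2) + 2 * ∫ x, u x ^ 6, C, ?_, fun f F h => ?_⟩
  · have : 0 ≤ ∫ x, ‖G x‖ ^ 2 := integral_nonneg fun x => by positivity
    have : 0 ≤ ∫ x, u x ^ 6 := integral_nonneg fun x => by positivity
    positivity
  have i1 := HI.of hS.adm.int_sq
  have i2 := HI.of (hSob Ω u G hS.adm).1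
  have i3 := HI.of h.int_sq
  have i4 := HI.of (h.hardy hS.zero).1
  have i5 := HI.of (hSob Ω f F h).1
  have key : ∀ ε : ℝ, 0 < ε → ∀ᵐ x, |Lint u G f F x| ≤
      ε * (‖G x‖ ^ 2 + 2 * u x ^ 6) + (ε⁻¹ * (‖F x‖ ^ 2 + f x ^ 2 / ‖x‖ ^ 2) +
        (ε ^ 2)⁻¹ * (16 * (f x ^ 2 / ‖x‖ ^ 2) + f x ^ 6)) := by
    intro ε hε
    filter_upwards [h.zero_out] with x hx
    have b1 : |⟪G x, F x⟫_ℝ| ≤ ε * ‖G x‖ ^ 2 + ε⁻¹ * ‖F x‖ ^ 2 :=
      (abs_real_inner_le_norm _ _).trans ((le_abs_self _).trans (young2 _ _ ε hε))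
    have b2 := young1 (u x) (f x) ε hε
    have b3 := young2 (u x ^ 3) (f x / ‖x‖) ε hε
    have b4 : f x ^ 2 ≤ 16 * (f x ^ 2 / ‖x‖ ^ 2) := by
      by_cases hΩ : x ∈ Ω
      · exact sq_le_hardy (fun h => hS.zero (h ▸ hΩ)) (hS.bdd x hΩ) _
      · rw [hx hΩ]; simp
    have b5 := mul_le_mul_of_nonneg_left b4 (show 0 ≤ (ε ^ 2)⁻¹ by positivity)
    rw [div_pow, ← pow_mul, ← mul_div_assoc] at b3
    have b6 : |Lint u G f F x| ≤ |⟪G x, F x⟫_ℝ| + |u x ^ 4 * f x| + |u x ^ 3 * f x / ‖x‖| :=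
      (abs_sub _ _).trans (add_le_add_left (abs_add_le _ _) _)
    norm_num at b3
    linarith
  have maj : ∀ ε : ℝ, HI (fun x => ε * (‖G x‖ ^ 2 + 2 * u x ^ 6) +
      (ε⁻¹ * (‖F x‖ ^ 2 + f x ^ 2 / ‖x‖ ^ 2) +
        (ε ^ 2)⁻¹ * (16 * (f x ^ 2 / ‖x‖ ^ 2) + f x ^ 6))) _ := fun ε =>
    ((i1.add (i2.const_mul 2)).const_mul ε).add (((i3.add i4).const_mul ε⁻¹).add
      (((i4.const_mul 16).add i5).const_mul (ε ^ 2)⁻¹))
  have hI : Integrable (Lint u G f F) := int_of_le (maj 1).1 (hS.meas_Lint h) (key 1 one_pos)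
  refine ⟨hI, fun ε hε => ?_⟩
  refine (abs_integral_le_integral_abs).trans (((HI.of hI.abs).le (maj ε) (key ε hε)).trans ?_)
  have c1 := (h.hardy hS.zero).2
  have c2 := (hSob Ω f F h).2
  have c3 := mul_le_mul_of_nonneg_left c1 (show 0 ≤ ε⁻¹ by positivity)
  have c4 := mul_le_mul_of_nonneg_left c1 (show 0 ≤ (ε ^ 2)⁻¹ by positivity)
  have c5 := mul_le_mul_of_nonneg_left c2 (show 0 ≤ (ε ^ 2)⁻¹ by positivity)
  nlinarith

lemma Sol.weak_adm (hS : Sol Ω u G) (h : Adm Ω f F) : HI (Lint u G f F) 0 := by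
  obtain ⟨K, C, hK, hB⟩ := hS.Lint_bound
  refine ⟨(hB f F h).1, ?_⟩
  have h' := h
  obtain ⟨hF, φ, h1, -, h3⟩ := h
  have e : ∀ n, |∫ x, Lint u G f F x| =
      |∫ x, Lint u G (fun x => φ n x - f x) (fun x => gradient (φ n) x - F x) x| := by
    intro n
    have : ∫ x, Lint u G (fun x => φ n x - f x) (fun x => gradient (φ n) x - F x) x =
        (∫ x, Lint u G (φ n) (gradient (φ n)) x) - ∫ x, Lint u G f F x := by
      rw [← integral_sub (hB _ _ (h1 n).adm).1 (hB f F h').1]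
      refine integral_congr_ae (Eventually.of_forall fun x => ?_)
      simp only [Lint, inner_sub_right]
      ring
    rw [this, hS.weak _ (h1 n), zero_sub, abs_neg]
  have hε : ∀ ε : ℝ, 0 < ε → |∫ x, Lint u G f F x| ≤ ε * K := by
    intro ε hε
    have hlim := (((h3.const_mul 5).const_mul ε⁻¹).add
      (((h3.const_mul 64).add ((h3.pow 3).const_mul C)).const_mul (ε ^ 2)⁻¹)).const_add (ε * K)
    simp only [mul_zero, add_zero, ne_eq, OfNat.ofNat_ne_zero, not_false_eq_true, zero_pow] at hlim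
    refine ge_of_tendsto' hlim (fun n => ?_)
    rw [e n]
    exact (hB _ _ ((h1 n).adm.sub h')).2 ε hε
  have hlim : Tendsto (fun ε : ℝ => ε * K) (𝓝[>] 0) (𝓝 (0 * K)) :=
    (tendsto_id.mul_const K).mono_left nhdsWithin_le_nhds
  rw [zero_mul] at hlim
  exact abs_nonpos_iff.1 (ge_of_tendsto hlim (eventually_nhdsWithin_of_forall hε))

lemma Sol.int_pow (hS : Sol Ω u G) :
    Integrable (fun x => u x ^ 4) ∧ Integrable (fun x => u x ^ 5) ∧
      Integrable (fun x => u x ^ 6) ∧ Integrable (fun x => u x ^ 4 / ‖x‖) := by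
  obtain ⟨C, hC, hSob⟩ := sobolev_adm
  have i6 := (hSob Ω u G hS.adm).1
  have iH := (hS.adm.hardy hS.zero).1
  have b4 : ∀ᵐ x, u x ^ 2 ≤ 16 * (u x ^ 2 / ‖x‖ ^ 2) := by
    filter_upwards [hS.adm.zero_out] with x hx
    by_cases hΩ : x ∈ Ω
    · exact sq_le_hardy (fun h => hS.zero (h ▸ hΩ)) (hS.bdd x hΩ) _
    · rw [hx hΩ]; simp
  have i4 : Integrable (fun x => u x ^ 4) := by
    refine int_of_le ((iH.const_mul 16).add i6) (hS.adm.meas.pow 4) ?_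
    filter_upwards [b4] with x hx
    rw [abs_of_nonneg (by positivity)]
    simp only [Pi.add_apply]
    nlinarith [sq_nonneg (u x ^ 3 - u x), sq_nonneg (u x ^ 2)]
  refine ⟨i4, ?_, i6, ?_⟩
  · refine int_of_le (i4.add i6) (hS.adm.meas.pow 5) (Eventually.of_forall fun x => ?_)
    have := young2 (u x ^ 2) (u x ^ 3) 1 one_pos
    simp only [Pi.add_apply]
    calc |u x ^ 5| = |u x ^ 2 * u x ^ 3| := by ring_nf
      _ ≤ _ := this
      _ = _ := by ring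
  · refine int_of_le (i6.add iH) ((hS.adm.meas.pow 4).aemeasurable.div
      continuous_norm.measurable.aemeasurable).aestronglyMeasurable
      (Eventually.of_forall fun x => ?_)
    have := young2 (u x ^ 3) (u x / ‖x‖) 1 one_pos
    simp only [Pi.add_apply]
    calc |u x ^ 4 / ‖x‖| = |u x ^ 3 * (u x / ‖x‖)| := by ring_nf
      _ ≤ _ := this
      _ = _ := by ring

lemma young3 {s a : ℝ} (hs : 0 ≤ s) (ha : 0 ≤ a) : s * a ^ 4 ≤ s ^ 3 * a ^ 2 / 16 + 2 * a ^ 5 := by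
  have h : s * a ^ 2 ≤ s ^ 3 / 16 + 2 * a ^ 3 := by
    nlinarith [mul_nonneg hs (sq_nonneg (s - 2 * a)), mul_nonneg ha (sq_nonneg (s - 2 * a)),
      mul_nonneg ha (sq_nonneg a), mul_nonneg hs (sq_nonneg (s - 3 * a)),
      mul_nonneg ha (sq_nonneg (s - 3 * a))]
  have := mul_le_mul_of_nonneg_left h (sq_nonneg a)
  nlinarith

lemma om_young (x : E3) {a : ℝ} (ha : 0 ≤ a) :
    om x ^ 2 * a ^ 4 / ‖x‖ ≤ (1 / 16) * ((om x * a) ^ 2 / ‖x‖ ^ 2) + 2 * a ^ 5 := by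
  by_cases h0 : om x = 0
  · rw [h0]; simp; positivity
  · have h := young3 (s := (om x ^ 2)⁻¹) (by positivity) ha
    rw [← om_pow]
    calc om x ^ 2 * a ^ 4 / om x ^ 4 = (om x ^ 2)⁻¹ * a ^ 4 := by field_simp
      _ ≤ _ := h
      _ = _ := by field_simp

lemma Sol.apriori (hS : Sol Ω u G) :
    Integrable (fun x => ‖x‖ * ‖G x‖ ^ 2) ∧ ∫ x, ‖x‖ * ‖G x‖ ^ 2 ≤ 20 * ∫ x, u x ^ 5 ∧
      ∫ x, u x ^ 4 ≤ 6 * ∫ x, u x ^ 5 := by
  obtain ⟨i4, i5, -, -⟩ := hS.int_pow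
  have A1 := hS.adm.om_mul hS.meas hS.zero hS.bdd
  have A2 := A1.om_mul hS.meas hS.zero hS.bdd
  have hL := hS.weak_adm A2
  have hE := HI.of A1.int_sq
  have hH := A1.hardy hS.zero
  have hI := HI.of hH.1
  have hJ := HI.of i5
  have h1 := ((hE.sub (hI.const_mul (1 / 8))).sub (hJ.const_mul 2)).le hL (by
    filter_upwards [hS.nonneg] with x hx
    have e1 : ⟪G x, om x • (om x • G x + u x • Z x) + (om x * u x) • Z x⟫_ℝ =
        ‖om x • G x + u x • Z x‖ ^ 2 - (1 / 16) * ((om x * u x) ^ 2 / ‖x‖ ^ 2) := by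
      have e2 : (1 / 16) * ((om x * u x) ^ 2 / ‖x‖ ^ 2) = u x ^ 2 * ‖Z x‖ ^ 2 := by
        rw [norm_Z_sq]; ring
      rw [e2, norm_add_sq_real, norm_smul, norm_smul, mul_pow, mul_pow, Real.norm_eq_abs,
        Real.norm_eq_abs, sq_abs, sq_abs]
      simp only [inner_add_right, real_inner_smul_right, real_inner_smul_left,
        real_inner_self_eq_norm_sq]
      ring
    have e3 := om_young x hx
    have e4 : 0 ≤ u x ^ 4 * (om x * (om x * u x)) := by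
      have := om_nonneg x
      positivity
    have e5 : u x ^ 3 * (om x * (om x * u x)) / ‖x‖ = om x ^ 2 * u x ^ 4 / ‖x‖ := by ring
    simp only [Lint]
    rw [e1, e5]
    linarith)
  have h2 := hH.2
  have hb1 : ∀ᵐ x, ‖x‖ * ‖G x‖ ^ 2 ≤ 4 * ‖om x • G x + u x • Z x‖ ^ 2 +
      (1 / 4) * ((om x * u x) ^ 2 / ‖x‖ ^ 2) := by
    filter_upwards [hS.adm.grad_zero_out hS.meas] with x hx
    by_cases hΩ : x ∈ Ω
    · have k1 := om_sq_le (hS.bdd x hΩ)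
      have k2 : ‖om x • G x‖ ≤ ‖om x • G x + u x • Z x‖ + ‖u x • Z x‖ := by
        have := norm_sub_le (om x • G x + u x • Z x) (u x • Z x)
        rwa [add_sub_cancel_right] at this
      have k3 := pow_le_pow_left₀ (norm_nonneg _) k2 2
      have k4 : ‖u x • Z x‖ ^ 2 = (1 / 16) * ((om x * u x) ^ 2 / ‖x‖ ^ 2) := by
        rw [norm_smul, mul_pow, Real.norm_eq_abs, sq_abs, norm_Z_sq]; ring
      have k5 : ‖x‖ * ‖G x‖ ^ 2 = om x ^ 2 * ‖om x • G x‖ ^ 2 := by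
        rw [norm_smul, mul_pow, Real.norm_eq_abs, sq_abs, ← om_pow]; ring
      have k6 := mul_le_mul_of_nonneg_right k1 (sq_nonneg ‖om x • G x‖)
      nlinarith [sq_nonneg (‖om x • G x + u x • Z x‖ - ‖u x • Z x‖)]
    · rw [hx hΩ]
      simp only [norm_zero, ne_eq, OfNat.ofNat_ne_zero, not_false_eq_true, zero_pow, mul_zero]
      positivity
  have maj := (hE.const_mul 4).add (hI.const_mul (1 / 4))
  have iG : Integrable (fun x => ‖x‖ * ‖G x‖ ^ 2) := by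
    refine int_of_le maj.1 (continuous_norm.aestronglyMeasurable.mul (hS.adm.1.1.norm.pow 2)) ?_
    filter_upwards [hb1] with x hx
    rwa [abs_of_nonneg (by positivity)]
  have h3 := (HI.of iG).le maj hb1
  have h4 := (HI.of i4).le ((hI.const_mul (1 / 8)).add (hJ.const_mul 4)) (by
    filter_upwards [hS.nonneg, hS.adm.zero_out] with x hx hz
    by_cases hΩ : x ∈ Ω
    · have k1 := om_sq_le (hS.bdd x hΩ)
      have k2 := om_young x hx
      have hn : 0 < ‖x‖ := norm_pos_iff.2 (fun h => hS.zero (h ▸ hΩ))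
      have k3 : u x ^ 4 = om x ^ 2 * (om x ^ 2 * u x ^ 4 / ‖x‖) := by
        have := om_pow x
        field_simp
        rw [this]
      have k4 : 0 ≤ om x ^ 2 * u x ^ 4 / ‖x‖ := by positivity
      have k5 := mul_le_mul_of_nonneg_right k1 k4
      linarith
    · rw [hz hΩ]; simp)
  exact ⟨iG, by linarith, by linarith⟩

end Pool.Agent.H468Z.Poh
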