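import Mathlib

/-!
No real Hilbert space is a disjoint union of at least two closed convex sets with nonempty
interior.
-/

set_option autoImplicit false

open Set Metric Filter Topology
open scoped RealInnerProductSpace

namespace Pool.Agent.H468Z.Tiling

variable {H : Type*} [NormedAddCommGroup H] [InnerProductSpace ℝ H]

/-- Roll an inscribed ball in the direction `-g`. -/
theorem rolling (T : Set H) (hT : (Tᶜ).Nonempty) (c₀ g : H) (hg : ‖g‖ ≤ 1)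
    (hc₀ : 0 < infDist c₀ Tᶜ) (ε η S : ℝ) (hε : 0 < ε) (hε1 : ε ≤ 1) (hη : 0 < η) (hS : 0 < S) :
    ε * S < infDist (c₀ - S • g) Tᶜ ∨
    ∃ s ∈ Icc (0 : ℝ) S, ∃ y ∉ T, 0 < infDist (c₀ - s • g) Tᶜ ∧
      ‖y - (c₀ - s • g)‖ ≤ (1 + η) * infDist (c₀ - s • g) Tᶜ ∧
      ⟪y - (c₀ - s • g), g⟫ ≤ 4 * ε * infDist (c₀ - s • g) Tᶜ := by
  have hcont : Continuous (fun s : ℝ => infDist (c₀ - s • g) Tᶜ - ε * s) := by
    have h1 : Continuous (fun s : ℝ => c₀ - s • g) := by fun_prop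
    exact ((continuous_infDist_pt Tᶜ).comp h1).sub (by fun_prop)
  obtain ⟨s, hs, hmax⟩ := (isCompact_Icc (a := (0 : ℝ)) (b := S)).exists_isMaxOn
    ⟨0, left_mem_Icc.2 hS.le⟩ hcont.continuousOn
  have h0 := hmax (left_mem_Icc.2 hS.le)
  simp only [mem_ofPred_eq, zero_smul, sub_zero, mul_zero] at h0
  rcases eq_or_lt_of_le hs.2 with hsS | hsS
  · left
    rw [hsS] at h0
    linarith
  · right
    set c := c₀ - s • g with hc
    set r := infDist c Tᶜ with hr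
    have hrpos : 0 < r := by
      have : 0 ≤ ε * s := mul_nonneg hε.le hs.1
      linarith
    set t := min (S - s) (min (η * r / 3) r) with ht
    have htpos : 0 < t := lt_min (by linarith) (lt_min (by positivity) hrpos)
    have ht1 : t ≤ S - s := min_le_left _ _
    have ht2 : t ≤ η * r / 3 := (min_le_right _ _).trans (min_le_left _ _)
    have ht3 : t ≤ r := (min_le_right _ _).trans (min_le_right _ _)
    have h1 := hmax (show s + t ∈ Icc (0 : ℝ) S from ⟨by linarith [hs.1], by linarith⟩)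
    simp only [mem_ofPred_eq] at h1
    have h2 : infDist (c₀ - (s + t) • g) Tᶜ < r + 2 * ε * t := by
      have : 0 < ε * t := mul_pos hε htpos
      nlinarith
    obtain ⟨y, hy, hyd⟩ := (infDist_lt_iff hT).1 h2
    have hyd' : ‖(y - c) + t • g‖ < r + 2 * ε * t := by
      rw [dist_comm, dist_eq_norm] at hyd
      have : y - (c₀ - (s + t) • g) = (y - c) + t • g := by
        rw [hc, add_smul]; abel
      rwa [this] at hyd
    have hge : r ≤ ‖y - c‖ := by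
      have := infDist_le_dist_of_mem (x := c) hy
      rwa [dist_comm, dist_eq_norm] at this
    have htg : ‖t • g‖ ≤ t := by
      rw [norm_smul, Real.norm_eq_abs, abs_of_pos htpos]
      nlinarith
    refine ⟨s, hs, y, hy, hrpos, ?_, ?_⟩
    · have h3 : ‖y - c‖ ≤ ‖(y - c) + t • g‖ + ‖t • g‖ := by
        have := norm_sub_le ((y - c) + t • g) (t • g)
        simpa using this
      have : ε * t ≤ t := by nlinarith
      nlinarith
    · have h4 : ‖(y - c) + t • g‖ ^ 2 = ‖y - c‖ ^ 2 + 2 * (t * ⟪y - c, g⟫) + ‖t • g‖ ^ 2 := by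
        rw [norm_add_sq_real, real_inner_smul_right]
      have h5 : ‖(y - c) + t • g‖ ^ 2 ≤ (r + 2 * ε * t) ^ 2 :=
        pow_le_pow_left₀ (norm_nonneg _) hyd'.le 2
      have h6 : r ^ 2 ≤ ‖y - c‖ ^ 2 := pow_le_pow_left₀ hrpos.le hge 2
      have h7 : 2 * (t * ⟪y - c, g⟫) ≤ 4 * ε * t * r + 4 * ε ^ 2 * t ^ 2 := by
        nlinarith [sq_nonneg ‖t • g‖]
      have h8 : ε ^ 2 * t ^ 2 ≤ ε * t * r := by
        have : ε * t ≤ r := by nlinarith
        have h9 : 0 < ε * t := mul_pos hε htpos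
        nlinarith
      have h10 : t * ⟪y - c, g⟫ ≤ t * (4 * ε * r) := by nlinarith
      exact le_of_mul_le_mul_left h10 htpos

/-- A point which lies in a tile and in the closure of its complement. -/
def Front (𝒯 : Set (Set H)) (w : H) : Prop := ∃ T ∈ 𝒯, w ∈ T ∧ w ∈ closure Tᶜ

theorem front_between (𝒯 : Set (Set H)) (hcl : ∀ C ∈ 𝒯, IsClosed C)
    (hdisj : 𝒯.PairwiseDisjoint id) (hcov : ⋃₀ 𝒯 = univ) {T : Set H} (hT : T ∈ 𝒯) {y z : H}
    (hz : z ∈ T) (hy : y ∉ T) : ∃ w ∈ segment ℝ y z, Front 𝒯 w ∧ w ∉ T := by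
  obtain ⟨T', hT', hyT'⟩ : y ∈ ⋃₀ 𝒯 := by rw [hcov]; trivial
  have hne : T' ≠ T := fun h => hy (h ▸ hyT')
  have hd : Disjoint T' T := hdisj hT' hT hne
  by_contra hcon
  push Not at hcon
  have hpre : IsPreconnected (segment ℝ y z) := (convex_segment y z).isPreconnected
  have hsub : segment ℝ y z ⊆ T'ᶜ := by
    apply hpre.subset_of_closure_inter_subset (hcl T' hT').isOpen_compl
    · exact ⟨z, right_mem_segment ℝ y z, fun h => (Set.disjoint_left.1 hd) h hz⟩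
    · rintro w ⟨hw1, hw2⟩ hw3
      exact (Set.disjoint_left.1 hd) hw3 (hcon w hw2 ⟨T', hT', hw3, hw1⟩)
  exact hsub (left_mem_segment ℝ y z) hyT'

theorem near_interior {T : Set H} (hcv : Convex ℝ T) (hint : (interior T).Nonempty)
    (hT : (Tᶜ).Nonempty) {w : H} (hw : w ∈ T) {e : ℝ} (he : 0 < e) :
    ∃ c, dist w c < e ∧ 0 < infDist c Tᶜ := by
  have h1 : w ∈ closure (interior T) := by
    rw [hcv.closure_interior_eq_closure_of_nonempty_interior hint]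
    exact subset_closure hw
  obtain ⟨c, hc, hcd⟩ := Metric.mem_closure_iff.1 h1 e he
  refine ⟨c, hcd, (infDist_pos_iff_notMem_closure hT).1 ?_⟩
  rw [closure_compl]
  exact fun h => h hc

theorem step (𝒯 : Set (Set H)) (hcl : ∀ C ∈ 𝒯, IsClosed C) (hcv : ∀ C ∈ 𝒯, Convex ℝ C)
    (hint : ∀ C ∈ 𝒯, (interior C).Nonempty)
    (hdisj : 𝒯.PairwiseDisjoint id) (hcov : ⋃₀ 𝒯 = univ) {w : H} (hw : Front 𝒯 w)
    (δ : ℝ) (hδ : 0 < δ) (G : H) (η : ℝ) (hη : 0 < η) (hη1 : η ≤ 1) :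
    ∃ T ∈ 𝒯, ∃ (f c : H) (r : ℝ) (w' : H), ‖f‖ = 1 ∧ ⟪f, G⟫ ≤ 1 ∧ 0 < r ∧ r ≤ δ ∧
      ball c r ⊆ T ∧ Front 𝒯 w' ∧ w' ∉ T ∧ dist w' w ≤ δ ∧ ‖w' - (c + r • f)‖ ≤ η * r := by
  obtain ⟨T₀, hT₀, hwT₀, hwc⟩ := hw
  set N : ℝ := ‖G‖ + 1 with hN
  have hNpos : 0 < N := by positivity
  have hN1 : 1 ≤ N := by linarith [norm_nonneg G]
  set g : H := N⁻¹ • G with hg
  have hgn : ‖g‖ ≤ 1 := by
    rw [hg, norm_smul, Real.norm_eq_abs, abs_of_pos (inv_pos.2 hNpos), inv_mul_le_iff₀ hNpos]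
    linarith
  set ε : ℝ := (4 * N)⁻¹ with hε
  have hεpos : 0 < ε := by positivity
  have hε1 : ε ≤ 1 := by
    rw [hε]; apply inv_le_one_of_one_le₀; linarith
  set S : ℝ := δ / 10 with hS
  have hSpos : 0 < S := by positivity
  have he : 0 < ε * S / 4 := by positivity
  have heS : ε * S ≤ S := by nlinarith
  obtain ⟨y₀, hy₀, hy₀d⟩ := Metric.mem_closure_iff.1 hwc _ he
  obtain ⟨T₁, hT₁, hy₀T₁⟩ : y₀ ∈ ⋃₀ 𝒯 := by rw [hcov]; trivial
  have hne : T₁ ≠ T₀ := fun h => hy₀ (h ▸ hy₀T₁)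
  have hd : Disjoint T₁ T₀ := hdisj hT₁ hT₀ hne
  have hwT₁ : w ∉ T₁ := fun h => (Set.disjoint_left.1 hd) h hwT₀
  obtain ⟨c₀, hc₀d, hc₀⟩ := near_interior (hcv _ hT₀) (hint _ hT₀) ⟨y₀, hy₀⟩ hwT₀ he
  obtain ⟨c₁, hc₁d, hc₁⟩ := near_interior (hcv _ hT₁) (hint _ hT₁) ⟨w, hwT₁⟩ hy₀T₁ he
  -- the good alternative
  have good : ∀ T ∈ 𝒯, ∀ c' p : H, p ∉ T → dist c' w ≤ S → dist p w ≤ S →
      (∃ s ∈ Icc (0 : ℝ) S, ∃ y ∉ T, 0 < infDist (c' - s • g) Tᶜ ∧
        ‖y - (c' - s • g)‖ ≤ (1 + η) * infDist (c' - s • g) Tᶜ ∧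
        ⟪y - (c' - s • g), g⟫ ≤ 4 * ε * infDist (c' - s • g) Tᶜ) →
      ∃ (f c : H) (r : ℝ) (w' : H), ‖f‖ = 1 ∧ ⟪f, G⟫ ≤ 1 ∧ 0 < r ∧ r ≤ δ ∧
        ball c r ⊆ T ∧ Front 𝒯 w' ∧ w' ∉ T ∧ dist w' w ≤ δ ∧ ‖w' - (c + r • f)‖ ≤ η * r := by
    rintro T hT c' p hp hc'w hpw ⟨s, hs, y, hy, hrpos, h1, h2⟩
    set c := c' - s • g with hc
    set r := infDist c Tᶜ with hr
    have hcw : dist c w ≤ 2 * S := by
      have h3 : dist c c' ≤ S := by
        rw [hc, dist_eq_norm, sub_sub_cancel_left, norm_neg, norm_smul, Real.norm_eq_abs,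
          abs_of_nonneg hs.1]
        nlinarith [hs.1, hs.2, norm_nonneg g]
      linarith [dist_triangle c c' w]
    have hr3 : r ≤ 3 * S := by
      have h3 : r ≤ dist c p := infDist_le_dist_of_mem hp
      have h4 := dist_triangle c w p
      rw [dist_comm w p] at h4
      linarith
    have hge : r ≤ ‖y - c‖ := by
      have := infDist_le_dist_of_mem (x := c) (show y ∈ Tᶜ from hy)
      rwa [dist_comm, dist_eq_norm] at this
    set a := ‖y - c‖ with ha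
    have hapos : 0 < a := lt_of_lt_of_le hrpos hge
    set f : H := a⁻¹ • (y - c) with hf
    have hfn : ‖f‖ = 1 := by
      rw [hf, norm_smul, Real.norm_eq_abs, abs_of_pos (inv_pos.2 hapos), ← ha,
        inv_mul_cancel₀ hapos.ne']
    have hyf : y = c + a • f := by
      rw [hf, smul_smul, mul_inv_cancel₀ hapos.ne', one_smul]; abel
    have hball : ball c r ⊆ T := ball_infDist_compl_subset
    have hz : c + r • f ∈ T := by
      have h3 : closure (ball c r) ⊆ T := closure_minimal hball (hcl T hT)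
      apply h3
      rw [closure_ball c hrpos.ne', mem_closedBall, dist_eq_norm, add_sub_cancel_left, norm_smul,
        hfn, Real.norm_eq_abs, abs_of_pos hrpos, mul_one]
    obtain ⟨w', hw'seg, hw'f, hw'T⟩ := front_between 𝒯 hcl hdisj hcov hT hz hy
    have hyz : dist y (c + r • f) ≤ η * r := by
      rw [dist_eq_norm, hyf]
      have : c + a • f - (c + r • f) = (a - r) • f := by rw [sub_smul]; abel
      rw [this, norm_smul, hfn, Real.norm_eq_abs, abs_of_nonneg (by linarith)]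
      linarith
    have hw'z : dist w' (c + r • f) ≤ η * r := by
      have h3 : segment ℝ y (c + r • f) ⊆ closedBall (c + r • f) (η * r) :=
        (convex_closedBall _ _).segment_subset hyz (mem_closedBall_self (by positivity))
      exact h3 hw'seg
    have hzc : dist (c + r • f) c = r := by
      rw [dist_eq_norm, add_sub_cancel_left, norm_smul, hfn, Real.norm_eq_abs, abs_of_pos hrpos,
        mul_one]
    refine ⟨f, c, r, w', hfn, ?_, hrpos, by linarith, hball, hw'f, hw'T, ?_, ?_⟩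
    · have h3 : ⟪y - c, g⟫ = N⁻¹ * ⟪y - c, G⟫ := by rw [hg, real_inner_smul_right]
      have h4 : ⟪f, G⟫ = a⁻¹ * ⟪y - c, G⟫ := by rw [hf, real_inner_smul_left]
      have h5 : 4 * ε * r = N⁻¹ * r := by rw [hε]; field_simp
      rw [h3, h5] at h2
      have h6 : ⟪y - c, G⟫ ≤ r := le_of_mul_le_mul_left h2 (inv_pos.2 hNpos)
      rw [h4, inv_mul_le_iff₀ hapos]
      linarith
    · have h3 := dist_triangle4 w' (c + r • f) c w
      have h4 : η * r ≤ r := by nlinarith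
      linarith
    · rwa [dist_eq_norm] at hw'z
  have hc₀w : dist c₀ w ≤ S := by rw [dist_comm]; linarith
  have hy₀w : dist y₀ w ≤ S := by rw [dist_comm]; linarith
  have hc₁w : dist c₁ w ≤ S := by
    have := dist_triangle w y₀ c₁
    rw [dist_comm]; linarith
  rcases rolling T₀ ⟨y₀, hy₀⟩ c₀ g hgn hc₀ ε η S hεpos hε1 hη hSpos with hA | hA
  · rcases rolling T₁ ⟨w, hwT₁⟩ c₁ g hgn hc₁ ε η S hεpos hε1 hη hSpos with hB | hB
    · exfalso
      have h1 : c₁ - S • g ∈ T₁ :=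
        ball_infDist_compl_subset (mem_ball_self (lt_trans (by positivity) hB))
      have h2 : c₁ - S • g ∈ T₀ := by
        apply ball_infDist_compl_subset (x := c₀ - S • g)
        rw [mem_ball, dist_sub_right]
        have h3 := dist_triangle4 c₁ y₀ w c₀
        rw [dist_comm c₁ y₀, dist_comm y₀ w] at h3
        linarith
      exact (Set.disjoint_left.1 hd) h1 h2
    · exact ⟨T₁, hT₁, good T₁ hT₁ c₁ w hwT₁ hc₁w (by simp [hSpos.le]) hB⟩
  · exact ⟨T₀, hT₀, good T₀ hT₀ c₀ y₀ hy₀ hc₀w hy₀w hA⟩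

/-- The cone of the tile of `z` forces the normals to point into a fixed half-space. -/
theorem cone_bound {T T' : Set H} (hcv : Convex ℝ T') (hd : Disjoint T' T) {z p f c : H}
    {ρ r η lam : ℝ} (hz : z ∈ T') (hp : closedBall p ρ ⊆ T') (hρ : 0 < ρ) (hf : ‖f‖ = 1)
    (hr : 0 < r) (hr1 : r ≤ 1) (hb : ball c r ⊆ T) (hzc : ‖z - (c + r • f)‖ ≤ η * r)
    (hlam : 0 < lam) (hlam1 : lam ≤ 1) (hl : lam * (‖p - z‖ + ρ) ^ 2 ≤ ρ / 2)
    (hη : η ≤ lam * ρ / 4) : ρ / 2 ≤ ⟪f, p - z⟫ := by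
  set v : H := p - ρ • f - z with hv
  have hvn : ‖v‖ ≤ ‖p - z‖ + ρ := by
    have : v = (p - z) - ρ • f := by rw [hv]; abel
    rw [this]
    refine (norm_sub_le _ _).trans ?_
    rw [norm_smul, hf, Real.norm_eq_abs, abs_of_pos hρ, mul_one]
  have hq : z + (lam * r) • v ∈ T' := by
    apply hcv.add_smul_sub_mem hz
    · apply hp
      rw [mem_closedBall, dist_eq_norm, sub_sub_cancel_left, norm_neg, norm_smul, hf,
        Real.norm_eq_abs, abs_of_pos hρ, mul_one]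
    · exact ⟨by positivity, by nlinarith⟩
  have hq' : r ≤ ‖z + (lam * r) • v - c‖ := by
    by_contra hcon
    push Not at hcon
    exact (Set.disjoint_left.1 hd) hq (hb (by rwa [mem_ball, dist_eq_norm]))
  have h1 : z + (lam * r) • v - c = (z - (c + r • f)) + r • (f + lam • v) := by
    rw [smul_add, smul_smul, mul_comm r lam]; abel
  have h2 : r ≤ η * r + r * ‖f + lam • v‖ := by
    rw [h1] at hq'
    refine hq'.trans ((norm_add_le _ _).trans ?_)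
    rw [norm_smul, Real.norm_eq_abs, abs_of_pos hr]
    linarith
  have h3 : 1 - η ≤ ‖f + lam • v‖ := by
    have : r * (1 - η) ≤ r * ‖f + lam • v‖ := by linarith
    exact le_of_mul_le_mul_left this hr
  have h4 : ‖f + lam • v‖ ^ 2 = 1 + 2 * (lam * ⟪f, v⟫) + lam ^ 2 * ‖v‖ ^ 2 := by
    rw [norm_add_sq_real, real_inner_smul_right, hf, norm_smul, Real.norm_eq_abs,
      abs_of_pos hlam]
    ring
  have h5 : 1 - 2 * η ≤ ‖f + lam • v‖ ^ 2 := by
    nlinarith [sq_nonneg (‖f + lam • v‖ - 1)]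
  have h6 : ‖v‖ ^ 2 ≤ (‖p - z‖ + ρ) ^ 2 := pow_le_pow_left₀ (norm_nonneg _) hvn 2
  have h7 : ⟪f, v⟫ = ⟪f, p - z⟫ - ρ := by
    have : v = (p - z) - ρ • f := by rw [hv]; abel
    rw [this, inner_sub_right, real_inner_smul_right, real_inner_self_eq_norm_sq, hf]
    ring
  have h8 : lam ^ 2 * ‖v‖ ^ 2 ≤ lam * (ρ / 2) := by
    have h9 : lam * ‖v‖ ^ 2 ≤ ρ / 2 := le_trans (by nlinarith) hl
    nlinarith
  have h10 : lam * (-(ρ / 2)) ≤ lam * ⟪f, v⟫ := by nlinarith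
  have h11 := le_of_mul_le_mul_left h10 hlam
  linarith

theorem no_front [CompleteSpace H] (𝒯 : Set (Set H)) (hcl : ∀ C ∈ 𝒯, IsClosed C)
    (hcv : ∀ C ∈ 𝒯, Convex ℝ C) (hint : ∀ C ∈ 𝒯, (interior C).Nonempty)
    (hdisj : 𝒯.PairwiseDisjoint id) (hcov : ⋃₀ 𝒯 = univ) (w₀ : H) : ¬ Front 𝒯 w₀ := by
  intro hw₀
  let σ := {p : H × ℝ × H // Front 𝒯 p.1 ∧ 0 < p.2.1 ∧ p.2.1 ≤ 1}
  have hstep : ∀ (k : ℕ) (s : σ), ∃ s' : σ, dist s'.1.1 s.1.1 ≤ s.1.2.1 / 2 ∧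
      s'.1.2.1 ≤ s.1.2.1 / 2 ∧ ∃ T ∈ 𝒯, ∃ (f c : H) (r : ℝ), s'.1.2.2 = s.1.2.2 + f ∧ ‖f‖ = 1 ∧
        ⟪f, s.1.2.2⟫ ≤ 1 ∧ 0 < r ∧ r ≤ 1 ∧ ball c r ⊆ T ∧
        ∀ z, dist z s'.1.1 ≤ s'.1.2.1 → z ∉ T ∧ ‖z - (c + r • f)‖ ≤ (2 * (1 / ((k : ℝ) + 1))) * r := by
    rintro k ⟨⟨w, ρ, G⟩, hw, hρ, hρ1⟩
    simp only at hw hρ hρ1
    have hη : (0 : ℝ) < 1 / ((k : ℝ) + 1) := by positivity
    have hη1 : 1 / ((k : ℝ) + 1) ≤ 1 := by
      rw [div_le_one (by positivity)]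
      linarith [(Nat.cast_nonneg k : (0 : ℝ) ≤ k)]
    obtain ⟨T, hT, f, c, r, w', hf, hfG, hr, hrδ, hb, hw', hw'T, hw'w, hw'z⟩ :=
      step 𝒯 hcl hcv hint hdisj hcov hw (ρ / 2) (by positivity) G _ hη hη1
    have hTne : T.Nonempty := ⟨c, hb (mem_ball_self hr)⟩
    have hpos : 0 < infDist w' T := ((hcl T hT).notMem_iff_infDist_pos hTne).1 hw'T
    set ρ' := min (ρ / 2) (min (1 / ((k : ℝ) + 1) * r) (infDist w' T / 2)) with hρ'
    have h1 : ρ' ≤ ρ / 2 := min_le_left _ _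
    have h2 : ρ' ≤ 1 / ((k : ℝ) + 1) * r := (min_le_right _ _).trans (min_le_left _ _)
    have h3 : ρ' ≤ infDist w' T / 2 := (min_le_right _ _).trans (min_le_right _ _)
    have h4 : 0 < ρ' := lt_min (by positivity) (lt_min (by positivity) (by positivity))
    refine ⟨⟨(w', ρ', G + f), hw', h4, by simp only; linarith⟩, hw'w, h1, T, hT, f, c, r, rfl, hf,
      hfG, hr, by linarith, hb, ?_⟩
    intro z hz
    simp only at hz
    constructor
    · intro hzT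
      have := infDist_le_dist_of_mem (x := w') hzT
      rw [dist_comm] at this
      linarith
    · have h5 : ‖z - (c + r • f)‖ ≤ ‖z - w'‖ + ‖w' - (c + r • f)‖ := norm_sub_le_norm_sub_add_norm_sub _ _ _
      rw [dist_eq_norm] at hz
      linarith
  choose nxt hnxt using hstep
  let seq : ℕ → σ := fun k => Nat.rec ⟨(w₀, 1, 0), hw₀, one_pos, le_rfl⟩ nxt k
  have hseq : ∀ k, seq (k + 1) = nxt k (seq k) := fun k => rfl
  set w : ℕ → H := fun k => (seq k).1.1 with hw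
  set ρ : ℕ → ℝ := fun k => (seq k).1.2.1 with hρ
  set G : ℕ → H := fun k => (seq k).1.2.2 with hG
  have hρpos : ∀ k, 0 < ρ k := fun k => (seq k).2.2.1
  have hA : ∀ k, dist (w (k + 1)) (w k) ≤ ρ k / 2 := fun k => (hnxt k (seq k)).1
  have hB : ∀ k, ρ (k + 1) ≤ ρ k / 2 := fun k => (hnxt k (seq k)).2.1
  have hC : ∀ k, ∃ T ∈ 𝒯, ∃ (f c : H) (r : ℝ), G (k + 1) = G k + f ∧ ‖f‖ = 1 ∧
        ⟪f, G k⟫ ≤ 1 ∧ 0 < r ∧ r ≤ 1 ∧ ball c r ⊆ T ∧
        ∀ z, dist z (w (k + 1)) ≤ ρ (k + 1) →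
          z ∉ T ∧ ‖z - (c + r • f)‖ ≤ (2 * (1 / ((k : ℝ) + 1))) * r :=
    fun k => (hnxt k (seq k)).2.2
  have hρle : ∀ k, ρ k ≤ 1 / 2 ^ k := by
    intro k
    induction k with
    | zero => simpa using (seq 0).2.2.2
    | succ k ih =>
      have := hB k
      rw [pow_succ, ← div_div]
      linarith
  have hcauchy : CauchySeq w := by
    apply cauchySeq_of_le_geometric_two (C := 1)
    intro n
    rw [dist_comm]
    have := hρle n
    have h2 : (1 : ℝ) / 2 / 2 ^ n = 1 / 2 ^ n / 2 := by ring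
    rw [h2]
    linarith [hA n]
  obtain ⟨z, hz⟩ := cauchySeq_tendsto_of_complete hcauchy
  have hnest : ∀ k j, dist (w (k + j)) (w k) + ρ (k + j) ≤ ρ k := by
    intro k j
    induction j with
    | zero => simp
    | succ j ih =>
      have h1 := dist_triangle (w (k + j + 1)) (w (k + j)) (w k)
      have h2 := hA (k + j)
      have h3 := hB (k + j)
      rw [← add_assoc]
      linarith
  have hzk : ∀ k, dist z (w k) ≤ ρ k := by
    intro k
    have h1 : Tendsto (fun j => dist (w (j + k)) (w k)) atTop (𝓝 (dist z (w k))) :=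
      ((tendsto_add_atTop_iff_nat k).2 hz).dist tendsto_const_nhds
    refine le_of_tendsto' h1 (fun j => ?_)
    have h2 := hnest k j
    rw [add_comm j k]
    linarith [hρpos (k + j)]
  have hGn : ∀ k, ‖G k‖ ^ 2 ≤ 3 * k := by
    intro k
    induction k with
    | zero =>
      have : G 0 = 0 := rfl
      simp [this]
    | succ k ih =>
      obtain ⟨T, -, f, c, r, h1, h2, h3, -⟩ := hC k
      rw [h1, norm_add_sq_real, h2, real_inner_comm]
      push_cast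
      linarith
  obtain ⟨T', hT', hzT'⟩ : z ∈ ⋃₀ 𝒯 := by rw [hcov]; trivial
  obtain ⟨p, hp⟩ := hint T' hT'
  obtain ⟨ρ₀, hρ₀, hpb⟩ : ∃ ρ₀ > 0, closedBall p ρ₀ ⊆ T' :=
    nhds_basis_closedBall.mem_iff.1 (mem_interior_iff_mem_nhds.1 hp)
  set M := (‖p - z‖ + ρ₀) ^ 2 with hM
  have hMpos : 0 < M := by positivity
  set lam := min 1 (ρ₀ / 2 / M) with hlam
  have hlampos : 0 < lam := lt_min one_pos (by positivity)
  have hlam1 : lam ≤ 1 := min_le_left _ _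
  have hl : lam * M ≤ ρ₀ / 2 := by
    have : lam ≤ ρ₀ / 2 / M := min_le_right _ _
    rwa [le_div_iff₀ hMpos] at this
  obtain ⟨k₀, hk₀⟩ := exists_nat_one_div_lt (show 0 < lam * ρ₀ / 8 by positivity)
  have hinc : ∀ j : ℕ, ⟪G k₀, p - z⟫ + j * (ρ₀ / 2) ≤ ⟪G (k₀ + j), p - z⟫ := by
    intro j
    induction j with
    | zero => simp
    | succ j ih =>
      obtain ⟨T, hT, f, c, r, h1, h2, h3, h4, h5, h6, h7⟩ := hC (k₀ + j)
      obtain ⟨h8, h9⟩ := h7 z (hzk (k₀ + j + 1))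
      have hne : T' ≠ T := fun h => h8 (h ▸ hzT')
      have hη : 2 * (1 / (((k₀ + j : ℕ) : ℝ) + 1)) ≤ lam * ρ₀ / 4 := by
        have : 1 / (((k₀ + j : ℕ) : ℝ) + 1) ≤ 1 / ((k₀ : ℝ) + 1) := by
          apply one_div_le_one_div_of_le (by positivity)
          push_cast
          linarith [(Nat.cast_nonneg j : (0 : ℝ) ≤ j)]
        linarith
      have h10 := cone_bound (hcv T' hT') (hdisj hT' hT hne) hzT' hpb hρ₀ h2 h4 h5 h6 h9 hlampos
        hlam1 hl hη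
      rw [← add_assoc, h1, inner_add_left]
      push_cast
      linarith
  -- the final contradiction
  set u := p - z with hu
  have hup : ∀ j : ℕ, ⟪G (k₀ + j), u⟫ ≤ ρ₀ / 12 * (3 * ((k₀ : ℝ) + j)) + 3 / ρ₀ * ‖u‖ ^ 2 := by
    intro j
    have h1 := real_inner_le_norm (G (k₀ + j)) u
    have h2 := hGn (k₀ + j)
    push_cast at h2
    have h3 : ‖G (k₀ + j)‖ * ‖u‖ ≤ ρ₀ / 12 * ‖G (k₀ + j)‖ ^ 2 + 3 / ρ₀ * ‖u‖ ^ 2 := by
      have h4 : 0 ≤ ρ₀ / 12 * (‖G (k₀ + j)‖ - 6 / ρ₀ * ‖u‖) ^ 2 := by positivity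
      have h5 : ρ₀ / 12 * (‖G (k₀ + j)‖ - 6 / ρ₀ * ‖u‖) ^ 2 =
          ρ₀ / 12 * ‖G (k₀ + j)‖ ^ 2 + 3 / ρ₀ * ‖u‖ ^ 2 - ‖G (k₀ + j)‖ * ‖u‖ := by
        field_simp
        ring
      linarith
    have h6 : ρ₀ / 12 * ‖G (k₀ + j)‖ ^ 2 ≤ ρ₀ / 12 * (3 * ((k₀ : ℝ) + j)) :=
      mul_le_mul_of_nonneg_left h2 (by positivity)
    linarith
  obtain ⟨j, hj⟩ := exists_nat_gt
    ((ρ₀ / 4 * k₀ + 3 / ρ₀ * ‖u‖ ^ 2 - ⟪G k₀, u⟫) / (ρ₀ / 4))
  rw [div_lt_iff₀ (by positivity)] at hj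
  have h1 := hinc j
  have h2 := hup j
  linarith

/-- A disjoint tiling of a real Hilbert space by convex bodies has only one tile. -/
theorem tile_eq_univ [CompleteSpace H] (𝒯 : Set (Set H)) (hcl : ∀ C ∈ 𝒯, IsClosed C)
    (hcv : ∀ C ∈ 𝒯, Convex ℝ C) (hint : ∀ C ∈ 𝒯, (interior C).Nonempty)
    (hdisj : 𝒯.PairwiseDisjoint id) (hcov : ⋃₀ 𝒯 = univ) {T : Set H} (hT : T ∈ 𝒯) :
    T = univ := by
  by_contra hne
  obtain ⟨y, hy⟩ := (ne_univ_iff_exists_notMem T).1 hne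
  obtain ⟨z, hz⟩ := hint T hT
  obtain ⟨w, -, hw, -⟩ := front_between 𝒯 hcl hdisj hcov hT (interior_subset hz) hy
  exact no_front 𝒯 hcl hcv hint hdisj hcov w hw

end Pool.Agent.H468Z.Tiling
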