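import Pool.Agent.H468Z.WGADefs

/-!
Convergence of the WGA under the `ℓ₂` criterion.
-/

set_option autoImplicit false

open MeasureTheory Filter Topology Finset
open scoped InnerProductSpace

namespace Pool.Agent.H468Z.WGA

variable {H : Type} [NormedAddCommGroup H] [InnerProductSpace ℝ H]

/-- The dictionary seminorm. -/
noncomputable def nD (D : Set H) (f : H) : ℝ := sSup ((fun g => |⟪f, g⟫_ℝ|) '' D)

lemma le_nD {D : Set H} (hD : ∀ g ∈ D, ‖g‖ = 1) (f : H) {g : H} (hg : g ∈ D) :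
    |⟪f, g⟫_ℝ| ≤ nD D f := by
  refine le_csSup ⟨‖f‖, ?_⟩ ⟨g, hg, rfl⟩
  rintro _ ⟨g, hg, rfl⟩
  have := abs_real_inner_le_norm f g
  rw [hD g hg, mul_one] at this
  exact this

lemma nD_le {D : Set H} {f : H} {M : ℝ} (hM : 0 ≤ M) (h : ∀ g ∈ D, |⟪f, g⟫_ℝ| ≤ M) :
    nD D f ≤ M := by
  refine Real.sSup_le ?_ hM
  rintro _ ⟨g, hg, rfl⟩
  exact h g hg

lemma nD_nonneg (D : Set H) (f : H) : 0 ≤ nD D f := by
  refine Real.sSup_nonneg ?_
  rintro _ ⟨g, _, rfl⟩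
  exact abs_nonneg _

lemma norm_step_sq (f φ : H) (hφ : ‖φ‖ = 1) :
    ‖f - ⟪f, φ⟫_ℝ • φ‖ ^ 2 = ‖f‖ ^ 2 - ⟪f, φ⟫_ℝ ^ 2 := by
  rw [norm_sub_sq_real, real_inner_smul_right, norm_smul, hφ, Real.norm_eq_abs, mul_one, sq_abs]
  ring

lemma span_bound {D : Set H} (hD : ∀ g ∈ D, ‖g‖ = 1) {h : H} (hh : h ∈ Submodule.span ℝ D) :
    ∃ C : ℝ, 0 ≤ C ∧ ∀ f : H, |⟪f, h⟫_ℝ| ≤ C * nD D f := by
  induction hh using Submodule.span_induction with
  | mem g hg => exact ⟨1, zero_le_one, fun f => by rw [one_mul]; exact le_nD hD f hg⟩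
  | zero => exact ⟨0, le_rfl, fun f => by simp⟩
  | add x y _ _ hx hy =>
    obtain ⟨C, hC, h1⟩ := hx
    obtain ⟨C', hC', h2⟩ := hy
    refine ⟨C + C', by positivity, fun f => ?_⟩
    rw [inner_add_right, add_mul]
    exact (abs_add_le _ _).trans (add_le_add (h1 f) (h2 f))
  | smul c x _ hx =>
    obtain ⟨C, hC, h1⟩ := hx
    refine ⟨|c| * C, by positivity, fun f => ?_⟩
    rw [real_inner_smul_right, abs_mul, mul_assoc]
    exact mul_le_mul_of_nonneg_left (h1 f) (abs_nonneg _)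

theorem converges_of {D : Set H} (hD : ∀ g ∈ D, ‖g‖ = 1)
    (hdense : Dense (Submodule.span ℝ D : Set H)) (t : ℕ → ℝ)
    (ht : ∀ a : ℕ → ℝ, (∀ n, 0 ≤ a n) → Summable (fun n => a n ^ 2) → ∀ δ : ℝ, 0 < δ → ∀ N : ℕ,
      ∃ n, N ≤ n ∧ a n * (1 + ∑ i ∈ range (n + 1), a i) < δ * t (n + 1)) :
    Converges D t := by
  intro f φ hr
  set a : ℕ → ℝ := fun n => |⟪f n, φ (n + 1)⟫_ℝ| with ha
  have ha0 : ∀ n, 0 ≤ a n := fun n => abs_nonneg _
  have hstep : ∀ n, ‖f (n + 1)‖ ^ 2 = ‖f n‖ ^ 2 - a n ^ 2 := by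
    intro n
    obtain ⟨h1, _, h3⟩ := hr n
    rw [h3, norm_step_sq _ _ (hD _ h1), ha]
    simp only [sq_abs]
  have hsum : ∀ n, ∑ i ∈ range n, a i ^ 2 = ‖f 0‖ ^ 2 - ‖f n‖ ^ 2 := by
    intro n
    induction n with
    | zero => simp
    | succ n ih => rw [sum_range_succ, ih, hstep]; ring
  have hsa : Summable (fun n => a n ^ 2) := by
    refine summable_of_sum_range_le (c := ‖f 0‖ ^ 2) (fun n => sq_nonneg _) (fun n => ?_)
    rw [hsum]; nlinarith [sq_nonneg ‖f n‖]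
  have hanti : Antitone (fun n => ‖f n‖) := by
    refine antitone_nat_of_succ_le (fun n => ?_)
    have h1 : ‖f (n + 1)‖ ^ 2 ≤ ‖f n‖ ^ 2 := by rw [hstep]; nlinarith [sq_nonneg (a n)]
    exact (pow_le_pow_iff_left₀ (norm_nonneg _) (norm_nonneg _) two_ne_zero).1 h1
  have hdiff : ∀ n (g : H), |⟪g, f 0 - f n⟫_ℝ| ≤ (∑ i ∈ range n, a i) * nD D g := by
    intro n g
    induction n with
    | zero => simp
    | succ n ih =>
      obtain ⟨h1, _, h3⟩ := hr n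
      have e : f 0 - f (n + 1) = (f 0 - f n) + ⟪f n, φ (n + 1)⟫_ℝ • φ (n + 1) := by
        rw [h3]; abel
      rw [e, inner_add_right, sum_range_succ, add_mul, real_inner_smul_right]
      refine (abs_add_le _ _).trans (add_le_add ih ?_)
      rw [abs_mul]
      exact mul_le_mul_of_nonneg_left (le_nD hD g h1) (abs_nonneg _)
  rw [Metric.tendsto_atTop]
  intro ε hε
  set η : ℝ := ε ^ 2 / (4 * (‖f 0‖ + 1)) with hη
  have hηpos : 0 < η := by positivity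
  obtain ⟨h, hh, hdist⟩ := Metric.dense_iff.1 hdense (f 0) η hηpos
  obtain ⟨C, hC, hCb⟩ := span_bound hD hdist
  set δ : ℝ := ε ^ 2 / (4 * (C + 1)) with hδ
  have hδpos : 0 < δ := by positivity
  obtain ⟨n, -, hn⟩ := ht a ha0 hsa δ hδpos 0
  have hS : 0 ≤ ∑ i ∈ range (n + 1), a i := sum_nonneg fun i _ => ha0 i
  have hS' : ∑ i ∈ range n, a i ≤ ∑ i ∈ range (n + 1), a i := by
    rw [sum_range_succ]; linarith [ha0 n]
  have hS0 : 0 ≤ ∑ i ∈ range n, a i := sum_nonneg fun i _ => ha0 i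
  have htpos : 0 < t (n + 1) := by
    have : 0 ≤ a n * (1 + ∑ i ∈ range (n + 1), a i) := mul_nonneg (ha0 n) (by linarith)
    by_contra hc
    push Not at hc
    nlinarith
  have hnD : nD D (f n) * (1 + ∑ i ∈ range (n + 1), a i) ≤ δ := by
    have h2 : t (n + 1) * nD D (f n) ≤ a n := (hr n).2.1
    have h3 : t (n + 1) * (nD D (f n) * (1 + ∑ i ∈ range (n + 1), a i)) ≤ t (n + 1) * δ := by
      have := mul_le_mul_of_nonneg_right h2 (show 0 ≤ 1 + ∑ i ∈ range (n + 1), a i by linarith)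
      nlinarith
    exact le_of_mul_le_mul_left h3 htpos
  have hn0 := nD_nonneg D (f n)
  have hA : nD D (f n) ≤ δ := by nlinarith
  have hB : (∑ i ∈ range n, a i) * nD D (f n) ≤ δ := by nlinarith
  have hsq : ‖f n‖ ^ 2 < ε ^ 2 := by
    have e : ‖f n‖ ^ 2 = ⟪f n, f 0 - h⟫_ℝ + ⟪f n, h⟫_ℝ - ⟪f n, f 0 - f n⟫_ℝ := by
      simp only [inner_sub_right, real_inner_self_eq_norm_sq]; ring
    have b1 : ⟪f n, f 0 - h⟫_ℝ ≤ ‖f 0‖ * η := by
      refine (real_inner_le_norm _ _).trans ?_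
      have h1 : ‖f n‖ ≤ ‖f 0‖ := hanti (Nat.zero_le n)
      have h2 : ‖f 0 - h‖ ≤ η := by
        rw [Metric.mem_ball, dist_comm, dist_eq_norm] at hh
        exact hh.le
      exact mul_le_mul h1 h2 (norm_nonneg _) (norm_nonneg _)
    have b2 : ⟪f n, h⟫_ℝ ≤ C * δ :=
      (le_abs_self _).trans ((hCb (f n)).trans (mul_le_mul_of_nonneg_left hA hC))
    have b3 : -⟪f n, f 0 - f n⟫_ℝ ≤ δ := (neg_le_abs _).trans ((hdiff n (f n)).trans hB)
    have c1 : ‖f 0‖ * η ≤ ε ^ 2 / 4 := by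
      rw [hη, mul_div_assoc', div_le_div_iff₀ (by positivity) (by positivity)]
      nlinarith [norm_nonneg (f 0), sq_nonneg ε]
    have c2 : (C + 1) * δ = ε ^ 2 / 4 := by
      rw [hδ]; field_simp
    nlinarith [sq_pos_of_pos hε]
  refine ⟨n, fun m hm => ?_⟩
  rw [Real.dist_eq, sub_zero, abs_of_nonneg (norm_nonneg _)]
  have h1 : ‖f n‖ < ε := (pow_lt_pow_iff_left₀ (norm_nonneg _) hε.le two_ne_zero).1 hsq
  exact lt_of_le_of_lt (hanti hm) h1

end Pool.Agent.H468Z.WGA
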