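import Mathlib

/-!
The Weak Greedy Algorithm, the bilinear dictionary in `L₂([0,1]²)` and Temlyakov's class `𝒱`.
-/

set_option autoImplicit false

open MeasureTheory Filter Topology
open scoped InnerProductSpace

namespace Pool.Agent.H468Z.WGA

/-- A realization of the Weak Greedy Algorithm with weakness sequence `t 1, t 2, …` with respect
to the dictionary `D`, started at `f 0`: at step `m + 1` the element `φ (m + 1)` of `D` satisfies
`|⟨f m, φ (m + 1)⟩| ≥ t (m + 1) * sup_{g ∈ D} |⟨f m, g⟩|`, and the new residual is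
`f (m + 1) = f m - ⟨f m, φ (m + 1)⟩ φ (m + 1)`. -/
def IsRealization {H : Type} [NormedAddCommGroup H] [InnerProductSpace ℝ H] (D : Set H)
    (t : ℕ → ℝ) (f φ : ℕ → H) : Prop :=
  ∀ m : ℕ, φ (m + 1) ∈ D ∧
    t (m + 1) * sSup ((fun g => |⟪f m, g⟫_ℝ|) '' D) ≤ |⟪f m, φ (m + 1)⟫_ℝ| ∧
    f (m + 1) = f m - ⟪f m, φ (m + 1)⟫_ℝ • φ (m + 1)

/-- The WGA with weakness sequence `t` converges with respect to `D`: for every starting element
and every realization, the norms of the residuals tend to `0`. -/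
def Converges {H : Type} [NormedAddCommGroup H] [InnerProductSpace ℝ H] (D : Set H)
    (t : ℕ → ℝ) : Prop :=
  ∀ f φ : ℕ → H, IsRealization D t f φ → Tendsto (fun m => ‖f m‖) atTop (𝓝 0)

/-- The real Hilbert space `L₂([0,1])` with Lebesgue measure. -/
abbrev L2I : Type := Lp ℝ 2 (volume : Measure unitInterval)

/-- The real Hilbert space `L₂([0,1]²)` with Lebesgue measure. -/
abbrev L2Sq : Type := Lp ℝ 2 (volume : Measure (unitInterval × unitInterval))

/-- The bilinear dictionary `Π₂`: the functions `u(x₁) v(x₂)` of norm one,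
with `u, v ∈ L₂([0,1])`. -/
def Pi2 : Set L2Sq :=
  {g | ‖g‖ = 1 ∧ ∃ u v : L2I, ∀ᵐ x ∂(volume : Measure (unitInterval × unitInterval)),
    g x = u x.1 * v x.2}

/-- Temlyakov's class `𝒱`: there is a sequence of integers `0 = q₀ < q₁ < ⋯` with
`∑_{s ≥ 1} 2^s / (q_s - q_{s-1}) < ∞` and `∑_{s ≥ 1} 2^{-s} ∑_{k = 1}^{q_s} t_k² < ∞`. -/
def InV (t : ℕ → ℝ) : Prop :=
  ∃ q : ℕ → ℕ, q 0 = 0 ∧ StrictMono q ∧
    Summable (fun s : ℕ => (2 : ℝ) ^ (s + 1) / ((q (s + 1) : ℝ) - (q s : ℝ))) ∧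
    Summable (fun s : ℕ => (∑ k ∈ Finset.Icc 1 (q (s + 1)), t k ^ 2) / (2 : ℝ) ^ (s + 1))

end Pool.Agent.H468Z.WGA
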