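import Pool.Agent.H468Z.WGASeq

/-!
From the class `𝒱` to a schedule of step sizes.
-/

set_option autoImplicit false

open Filter Topology Finset

namespace Pool.Agent.H468Z.WGA

lemma sched1 (t : ℕ → ℝ) (ht0 : ∀ n, 0 ≤ t (n + 1)) (hV : InV t) :
    ∃ a : ℕ → ℝ, (∀ n, 0 ≤ a n) ∧ Summable (fun n => a n ^ 2) ∧
      ∃ N : ℕ, ∀ n, N ≤ n → t (n + 1) ≤ 2 * (a n * ∑ i ∈ range n, a i) := by
  classical
  obtain ⟨q, hq0, hq, hs1, hs2⟩ := hV
  have hex : ∀ n, ∃ s, n < q (s + 1) := fun n =>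
    ⟨n, lt_of_lt_of_le (Nat.lt_succ_self n) (hq.id_le (n + 1))⟩
  set idx : ℕ → ℕ := fun n => Nat.find (hex n) with hidx
  have hi1 : ∀ n, n < q (idx n + 1) := fun n => Nat.find_spec (hex n)
  have hi2 : ∀ n, q (idx n) ≤ n := by
    intro n
    rcases h : idx n with _ | s
    · rw [hq0]; exact Nat.zero_le n
    · have : ¬ n < q (s + 1) := Nat.find_min (hex n) (by simp only [hidx] at h; omega)
      omega
  have hi3 : ∀ s, ∀ i ∈ Ico (q s) (q (s + 1)), idx i = s := by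
    intro s i hi
    rw [Finset.mem_Ico] at hi
    have h1 : idx i < s + 1 := hq.lt_iff_lt.1 (lt_of_le_of_lt (hi2 i) hi.2)
    have h2 : s < idx i + 1 := hq.lt_iff_lt.1 (lt_of_le_of_lt hi.1 (hi1 i))
    omega
  set r : ℝ := √2 with hr
  have hr2 : r ^ 2 = 2 := Real.sq_sqrt (by norm_num)
  have hr0 : 0 < r := Real.sqrt_pos.2 (by norm_num)
  have hr1 : r ≤ 2 := by nlinarith
  set Δ : ℕ → ℝ := fun s => (q (s + 1) : ℝ) - q s with hΔ
  have hΔpos : ∀ s, 0 < Δ s := by
    intro s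
    have : (q s : ℝ) < q (s + 1) := by exact_mod_cast hq (Nat.lt_succ_self s)
    simp only [hΔ]; linarith
  have hcard : ∀ s, ((Ico (q s) (q (s + 1))).card : ℝ) = Δ s := by
    intro s
    rw [Nat.card_Ico, Nat.cast_sub (hq.monotone (Nat.le_succ s))]
  have hrsq : ∀ s : ℕ, (r ^ s) ^ 2 = 2 ^ s := by
    intro s; rw [← pow_mul, mul_comm, pow_mul, hr2]
  set a : ℕ → ℝ := fun n => t (n + 1) / r ^ (idx n + 1) + r ^ (idx n + 1) / Δ (idx n) with ha
  have ha0 : ∀ n, 0 ≤ a n := by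
    intro n
    have := ht0 n
    have := hΔpos (idx n)
    simp only [ha]; positivity
  refine ⟨a, ha0, ?_, q 1, ?_⟩
  · have hblock : ∀ s, ∑ i ∈ Ico (q s) (q (s + 1)), a i ^ 2 ≤
        2 * ((∑ k ∈ Icc 1 (q (s + 1)), t k ^ 2) / 2 ^ (s + 1)) + 2 * (2 ^ (s + 1) / Δ s) := by
      intro s
      have h1 : ∀ i ∈ Ico (q s) (q (s + 1)), a i ^ 2 ≤
          2 * (t (i + 1) ^ 2 / 2 ^ (s + 1)) + 2 * (2 ^ (s + 1) / Δ s ^ 2) := by
        intro i hi
        simp only [ha]
        rw [hi3 s i hi, ← hrsq, ← div_pow, ← div_pow]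
        nlinarith [sq_nonneg (t (i + 1) / r ^ (s + 1) - r ^ (s + 1) / Δ s)]
      refine (sum_le_sum h1).trans ?_
      rw [sum_add_distrib, ← mul_sum, ← sum_div, sum_const, nsmul_eq_mul, hcard]
      have h2 : ∑ i ∈ Ico (q s) (q (s + 1)), t (i + 1) ^ 2 ≤
          ∑ k ∈ Icc 1 (q (s + 1)), t k ^ 2 := by
        rw [sum_Icc_shift (fun k => t k ^ 2),
          ← sum_range_add_sum_Ico _ (hq.monotone (Nat.le_succ s))]
        have : 0 ≤ ∑ k ∈ range (q s), t (k + 1) ^ 2 := sum_nonneg fun i _ => sq_nonneg _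
        linarith
      have h3 : Δ s * (2 * (2 ^ (s + 1) / Δ s ^ 2)) = 2 * (2 ^ (s + 1) / Δ s) := by
        have := (hΔpos s).ne'
        field_simp
      rw [h3]
      have h4 := div_le_div_of_nonneg_right h2 (show (0 : ℝ) ≤ 2 ^ (s + 1) by positivity)
      linarith
    have hs3 := (hs2.mul_left 2).add (hs1.mul_left 2)
    refine summable_of_sum_range_le (c := ∑' s : ℕ,
      (2 * ((∑ k ∈ Icc 1 (q (s + 1)), t k ^ 2) / 2 ^ (s + 1)) + 2 * (2 ^ (s + 1) / Δ s)))
      (fun n => sq_nonneg _) (fun n => ?_)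
    have h1 : ∑ i ∈ range n, a i ^ 2 ≤ ∑ i ∈ range (q n), a i ^ 2 :=
      sum_le_sum_of_subset_of_nonneg (range_subset_range.2 (hq.id_le n))
        (fun i _ _ => sq_nonneg _)
    rw [← sum_blocks (fun i => a i ^ 2) q hq0 hq.monotone n] at h1
    refine h1.trans ((sum_le_sum fun s _ => hblock s).trans ?_)
    refine hs3.sum_le_tsum _ (fun s _ => ?_)
    have := hΔpos s
    have : 0 ≤ ∑ k ∈ Icc 1 (q (s + 1)), t k ^ 2 := sum_nonneg fun i _ => sq_nonneg _
    positivity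
  · intro n hn
    have h1 : 1 < idx n + 1 := hq.lt_iff_lt.1 (lt_of_le_of_lt hn (hi1 n))
    obtain ⟨s, hs⟩ : ∃ s, idx n = s + 1 := ⟨idx n - 1, by omega⟩
    have h2 : r ^ (s + 1) ≤ ∑ i ∈ range n, a i := by
      have h3 : ∑ i ∈ Ico (q s) (q (s + 1)), a i ≤ ∑ i ∈ range n, a i := by
        refine sum_le_sum_of_subset_of_nonneg (fun i hi => ?_) (fun i _ _ => ha0 i)
        rw [Finset.mem_Ico] at hi
        have := hi2 n
        rw [hs] at this
        exact mem_range.2 (by omega)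
      refine le_trans ?_ h3
      have h4 : ∀ i ∈ Ico (q s) (q (s + 1)), r ^ (s + 1) / Δ s ≤ a i := by
        intro i hi
        simp only [ha]
        rw [hi3 s i hi]
        have := ht0 i
        have : 0 ≤ t (i + 1) / r ^ (s + 1) := by positivity
        linarith
      refine le_trans (le_of_eq ?_) (sum_le_sum h4)
      rw [sum_const, nsmul_eq_mul, hcard]
      have := (hΔpos s).ne'
      field_simp
    have h5 : t (n + 1) / r ^ (s + 1 + 1) ≤ a n := by
      simp only [ha]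
      rw [hs]
      have := hΔpos (s + 1)
      have : 0 ≤ r ^ (s + 1 + 1) / Δ (s + 1) := by positivity
      linarith
    have h6 : t (n + 1) / r ^ (s + 1 + 1) * r ^ (s + 1) ≤ a n * ∑ i ∈ range n, a i :=
      mul_le_mul h5 h2 (by positivity) (ha0 n)
    have h7 : t (n + 1) / r ^ (s + 1 + 1) * r ^ (s + 1) = t (n + 1) / r := by
      field_simp
      ring
    rw [h7, div_le_iff₀ hr0] at h6
    have h8 : 0 ≤ a n * ∑ i ∈ range n, a i := mul_nonneg (ha0 n) (sum_nonneg fun i _ => ha0 i)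
    nlinarith

lemma sched2 (t : ℕ → ℝ) (ht0 : ∀ n, 0 ≤ t (n + 1)) (ht1 : ∀ n, t (n + 1) ≤ 1) (hV : InV t) :
    ∃ (b : ℕ → ℝ) (R : ℝ), (∀ n, 0 ≤ b n) ∧ 1 ≤ R ∧ (∀ n, ∑ i ∈ range n, b i ^ 2 ≤ 1 / 128) ∧
      ∀ n, 120 * t (n + 1) ≤ b n * (R + ∑ i ∈ range n, b i) := by
  obtain ⟨a, ha0, hs, N, hN⟩ := sched1 t ht0 hV
  have htail := tendsto_sum_nat_add (fun n => a n ^ 2)
  obtain ⟨M, hM1, hM2⟩ : ∃ M, N ≤ M ∧ ∑' k, a (k + M) ^ 2 ≤ 1 / 65536 := by
    have h1 := htail.eventually (ge_mem_nhds (show (0 : ℝ) < 1 / 65536 by norm_num))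
    obtain ⟨M, hM⟩ := (h1.and (eventually_ge_atTop N)).exists
    exact ⟨M, hM.2, hM.1⟩
  set SM : ℝ := ∑ i ∈ range M, a i with hSM
  have hSM0 : 0 ≤ SM := sum_nonneg fun i _ => ha0 i
  set R : ℝ := 16 * SM + 1920 * (M + 1) with hR
  have hM0 : (0 : ℝ) ≤ M := Nat.cast_nonneg M
  have hR1 : 1 ≤ R := by nlinarith
  have hRpos : 0 < R := by linarith
  set b : ℕ → ℝ := fun n => if n < M then 120 / R else 16 * a n with hb
  have hb0 : ∀ n, 0 ≤ b n := by
    intro n
    have := ha0 n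
    simp only [hb]; split_ifs <;> positivity
  refine ⟨b, R, hb0, hR1, ?_, ?_⟩
  · intro n
    have h1 : ∑ i ∈ range n, b i ^ 2 ≤ ∑ i ∈ range (M + n), b i ^ 2 :=
      sum_le_sum_of_subset_of_nonneg (range_subset_range.2 (Nat.le_add_left n M))
        (fun i _ _ => sq_nonneg _)
    rw [sum_range_add] at h1
    have h2 : ∑ i ∈ range M, b i ^ 2 = M * (120 / R) ^ 2 := by
      rw [sum_congr rfl (g := fun _ => (120 / R) ^ 2)
        (fun i hi => by simp only [hb, mem_range.1 hi, if_true])]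
      simp
    have h3 : ∑ i ∈ range n, b (M + i) ^ 2 = 256 * ∑ i ∈ range n, a (i + M) ^ 2 := by
      rw [mul_sum]
      refine sum_congr rfl (fun i _ => ?_)
      have : ¬ (M + i < M) := by omega
      simp only [hb, this, if_false]
      rw [add_comm M i]; ring
    have h4 : ∑ i ∈ range n, a (i + M) ^ 2 ≤ ∑' k, a (k + M) ^ 2 :=
      ((summable_nat_add_iff (f := fun n => a n ^ 2) M).2 hs).sum_le_tsum _
        (fun i _ => sq_nonneg _)
    have h5 : (M : ℝ) * (120 / R) ^ 2 ≤ 1 / 256 := by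
      rw [div_pow, mul_div_assoc', div_le_div_iff₀ (by positivity) (by norm_num)]
      have : 1920 * ((M : ℝ) + 1) ≤ R := by nlinarith
      have h6 := pow_le_pow_left₀ (by positivity) this 2
      nlinarith
    linarith
  · intro n
    have hS0 : 0 ≤ ∑ i ∈ range n, b i := sum_nonneg fun i _ => hb0 i
    by_cases hn : n < M
    · have h1 : b n * R = 120 := by
        simp only [hb, hn, if_true]; field_simp
      have := ht1 n
      have := mul_nonneg (hb0 n) hS0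
      nlinarith
    · push Not at hn
      obtain ⟨k, rfl⟩ := Nat.exists_eq_add_of_le hn
      have h1 : 16 * ∑ i ∈ range (M + k), a i ≤ R + ∑ i ∈ range (M + k), b i := by
        rw [sum_range_add, sum_range_add]
        have h2 : ∑ i ∈ range k, b (M + i) = 16 * ∑ i ∈ range k, a (M + i) := by
          rw [mul_sum]
          refine sum_congr rfl (fun i _ => ?_)
          have : ¬ (M + i < M) := by omega
          simp only [hb, this, if_false]
        have h3 : 0 ≤ ∑ i ∈ range M, b i := sum_nonneg fun i _ => hb0 i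
        rw [h2]
        nlinarith
      have h2 : b (M + k) = 16 * a (M + k) := by
        have : ¬ (M + k < M) := by omega
        simp only [hb, this, if_false]
      have h3 := hN (M + k) (by omega)
      have h4 := mul_le_mul_of_nonneg_left h1 (hb0 (M + k))
      rw [h2] at h4 ⊢
      have := ht0 (M + k)
      nlinarith

lemma sched3 (t : ℕ → ℝ) (ht0 : ∀ n, 0 ≤ t (n + 1)) (ht1 : ∀ n, t (n + 1) ≤ 1) (hV : InV t) :
    ∃ (a : ℕ → ℝ) (R : ℝ), (∀ n, 0 ≤ a n) ∧ 1 ≤ R ∧ (∀ n, ∑ i ∈ range n, a i ^ 2 ≤ 1 / 64) ∧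
      ∀ j, 60 * t (2 * j + 1) ≤ a j * (R + ∑ i ∈ range j, a i) ∧
        60 * t (2 * j + 1 + 1) ≤ a j * (R + ∑ i ∈ range j, a i) := by
  obtain ⟨b, R, hb0, hR, hb2, hb⟩ := sched2 t ht0 ht1 hV
  have hpair : ∀ (g : ℕ → ℝ) (n : ℕ),
      ∑ i ∈ range n, (g (2 * i) + g (2 * i + 1)) = ∑ i ∈ range (2 * n), g i := by
    intro g n
    induction n with
    | zero => simp
    | succ n ih =>
      rw [sum_range_succ, ih, show 2 * (n + 1) = 2 * n + 1 + 1 by ring, sum_range_succ,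
        sum_range_succ]; ring
  refine ⟨fun j => b (2 * j) + b (2 * j + 1), R, fun j => add_nonneg (hb0 _) (hb0 _), hR, ?_, ?_⟩
  · intro n
    have h1 := hb2 (2 * n)
    rw [← hpair (fun i => b i ^ 2)] at h1
    have h2 : ∑ i ∈ range n, (b (2 * i) + b (2 * i + 1)) ^ 2 ≤
        2 * ∑ i ∈ range n, (b (2 * i) ^ 2 + b (2 * i + 1) ^ 2) := by
      rw [mul_sum]
      exact sum_le_sum fun i _ => by nlinarith [sq_nonneg (b (2 * i) - b (2 * i + 1))]
    linarith
  · intro j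
    simp only
    rw [hpair b j]
    have hS0 : 0 ≤ ∑ i ∈ range (2 * j), b i := sum_nonneg fun i _ => hb0 i
    have h1 := hb (2 * j)
    have h2 := hb (2 * j + 1)
    rw [sum_range_succ] at h2
    have h3 : b (2 * j) ≤ 1 := by
      have h4 := hb2 (2 * j + 1)
      rw [sum_range_succ] at h4
      have : 0 ≤ ∑ i ∈ range (2 * j), b i ^ 2 := sum_nonneg fun i _ => sq_nonneg _
      nlinarith
    have e0 := hb0 (2 * j)
    have e1 := hb0 (2 * j + 1)
    have e2 := ht0 (2 * j)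
    have e3 := ht0 (2 * j + 1)
    have e4 : 0 ≤ b (2 * j + 1) * (R + ∑ i ∈ range (2 * j), b i) := mul_nonneg e1 (by linarith)
    have e5 : 0 ≤ b (2 * j) * (R + ∑ i ∈ range (2 * j), b i) := mul_nonneg e0 (by linarith)
    have e6 : b (2 * j + 1) * b (2 * j) ≤ b (2 * j + 1) * (R + ∑ i ∈ range (2 * j), b i) :=
      mul_le_mul_of_nonneg_left (by linarith) e1
    constructor <;> nlinarith

end Pool.Agent.H468Z.WGA
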