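import Pool.Agent.H468Z.WGAState
import Pool.Agent.H468Z.WGASeq2

/-!
A divergent realization for weakness sequences in the class `𝒱`.
-/

set_option autoImplicit false

open Filter Topology Finset
open scoped InnerProductSpace

namespace Pool.Agent.H468Z.WGA

variable {H : Type} [NormedAddCommGroup H] [InnerProductSpace ℝ H]
variable {D : Set H} {E : ℕ → ℕ → H}

lemma exists_dir {M y γ : ℝ} (hy : 0 ≤ y) (hy' : 4 * y ≤ M) (hγ : 0 ≤ γ) (hγ' : 4 * γ ≤ M) :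
    ∃ p q : ℝ, p ^ 2 + q ^ 2 = 1 ∧ 0 ≤ p ∧ p ≤ 1 / 2 ∧ -1 ≤ q ∧ q ≤ -(5 / 6) ∧
      M * p + y * q = γ := by
  have hc : ContinuousOn (fun p : ℝ => M * p - y * √(1 - p ^ 2)) (Set.Icc 0 (1 / 2)) := by
    fun_prop
  have hmem : γ ∈ Set.Icc (M * 0 - y * √(1 - 0 ^ 2)) (M * (1 / 2) - y * √(1 - (1 / 2) ^ 2)) := by
    constructor
    · have := Real.sqrt_nonneg (1 - 0 ^ 2)
      nlinarith
    · have h1 : √(1 - (1 / 2 : ℝ) ^ 2) ≤ 1 := Real.sqrt_le_one.2 (by norm_num)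
      nlinarith
  obtain ⟨p, hp, hpγ⟩ := intermediate_value_Icc (show (0 : ℝ) ≤ 1 / 2 by norm_num) hc hmem
  have h1 : 0 ≤ 1 - p ^ 2 := by nlinarith [hp.1, hp.2]
  have h2 := Real.sq_sqrt h1
  have h3 := Real.sqrt_nonneg (1 - p ^ 2)
  refine ⟨p, -√(1 - p ^ 2), by nlinarith, hp.1, hp.2, ?_, ?_, ?_⟩
  · have : √(1 - p ^ 2) ≤ 1 := Real.sqrt_le_one.2 (by nlinarith)
    linarith
  · have : 5 / 6 ≤ √(1 - p ^ 2) := Real.le_sqrt_of_sq_le (by nlinarith [hp.1, hp.2])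
    linarith
  · simp only at hpγ
    linarith

lemma Tens.transfer (hT : Tens D E) {f : H} {lam M t t' γ : ℝ} (h : StX E f lam M) (hM : 0 < M)
    (hlam : 0 ≤ lam) (hf1 : ‖f‖ ^ 2 ≤ 1) (hγ : 0 ≤ γ) (hγ' : 4 * γ ≤ M)
    (ht0 : 0 ≤ t) (ht : 2 * t * M ≤ γ) (ht0' : 0 ≤ t') (ht' : 2 * t' * M ≤ γ) :
    ∃ φ₁ φ₂, Valid D t f φ₁ ∧ Valid D t' (step f φ₁) φ₂ ∧
      ‖step (step f φ₁) φ₂‖ ^ 2 = ‖f‖ ^ 2 - γ ^ 2 ∧
      StM E (step (step f φ₁) φ₂) (lam + γ / 3) M := by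
  have hnD := hT.nD_StM h.toM hM.le
  obtain ⟨s, d, i₀, j, y, hij, hi, hj, hf, hy, hy', hd, hl⟩ := h
  obtain ⟨p, q, hpq, hp0, hp1, hq0, hq1, hγe⟩ := exists_dir hy hy' hγ hγ'
  set r : ℝ := √(1 / 2) with hr
  have hr2 : r ^ 2 = 1 / 2 := Real.sq_sqrt (by norm_num)
  have hr0 : 0 ≤ r := Real.sqrt_nonneg _
  have hr1 : 0.7 ≤ r := by nlinarith
  have hr1' : r ≤ 1 := by nlinarith
  have m1 := hT.mem i₀ j hij r r p q (by linarith) hpq
  have m2 := hT.mem i₀ j hij r (-r) p (-q) (by linarith) (by linarith)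
  set φ₁ := (r * p) • E i₀ i₀ + (r * q) • E i₀ j + (r * p) • E j i₀ + (r * q) • E j j with hφ₁
  set φ₂ := (r * p) • E i₀ i₀ + (r * -q) • E i₀ j + (-r * p) • E j i₀ + (-r * -q) • E j j
    with hφ₂
  have f1 : ⟪f, E i₀ i₀⟫_ℝ = M := by
    rw [hf, inner_add_left, inner_add_left, hT.inner_diag s d i₀ i₀ hi, real_inner_smul_left,
      real_inner_smul_left, hT.inner_E, hT.inner_E]
    simp [hij.symm]
  have f2 : ⟪f, E i₀ j⟫_ℝ = 0 := by
    rw [hf, inner_add_left, inner_add_left, hT.inner_diag s d i₀ j hi, real_inner_smul_left,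
      real_inner_smul_left, hT.inner_E, hT.inner_E]
    simp [hij, hij.symm]
  have f3 : ⟪f, E j i₀⟫_ℝ = 0 := by
    rw [hf, inner_add_left, inner_add_left, hT.inner_diag s d j i₀ hj, real_inner_smul_left,
      real_inner_smul_left, hT.inner_E, hT.inner_E]
    simp [hij, hij.symm]
  have f4 : ⟪f, E j j⟫_ℝ = y := by
    rw [hf, inner_add_left, inner_add_left, hT.inner_diag s d j j hj, real_inner_smul_left,
      real_inner_smul_left, hT.inner_E, hT.inner_E]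
    simp [hij]
  have i1 : ⟪f, φ₁⟫_ℝ = r * γ := by
    simp only [hφ₁, inner_add_right, real_inner_smul_right, f1, f2, f3, f4]
    rw [← hγe]; ring
  have i2 : ⟪f, φ₂⟫_ℝ = r * γ := by
    simp only [hφ₂, inner_add_right, real_inner_smul_right, f1, f2, f3, f4]
    rw [← hγe]; ring
  have i3 : ⟪φ₁, φ₂⟫_ℝ = 0 := by
    simp only [hφ₁, hφ₂, inner_add_right, inner_add_left, real_inner_smul_right,
      real_inner_smul_left, hT.inner_E]
    simp [hij, hij.symm]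
  have i4 : ⟪step f φ₁, φ₂⟫_ℝ = r * γ := by
    rw [step, inner_sub_left, real_inner_smul_left, i3, i2]; ring
  have hrγ : 0 ≤ r * γ := mul_nonneg hr0 hγ
  have hnorm : ‖step (step f φ₁) φ₂‖ ^ 2 = ‖f‖ ^ 2 - γ ^ 2 := by
    rw [step, norm_step_sq _ _ (hT.norm_one _ m2), i4, step,
      norm_step_sq _ _ (hT.norm_one _ m1), i1, mul_pow, hr2]
    ring
  have hE : ‖f‖ ^ 2 = M ^ 2 + y ^ 2 + ∑ i ∈ s, d i ^ 2 := by
    obtain ⟨d', -, -, -, h4, h5⟩ := diag_two E s d i₀ j M y hij hi hj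
    rw [hf, h4, hT.norm_diag, h5 (fun z => z ^ 2)]
  refine ⟨φ₁, φ₂, ⟨m1, ?_⟩, ⟨m2, ?_⟩, hnorm, ?_⟩
  · rw [i1, abs_of_nonneg hrγ]
    have := mul_le_mul_of_nonneg_left hnD ht0
    nlinarith
  · rw [i4, abs_of_nonneg hrγ]
    have h1 : nD D (step f φ₁) ≤ M + r * γ := by
      refine nD_le (by linarith) (fun g hg => ?_)
      rw [step, inner_sub_left, real_inner_smul_left, i1]
      refine (abs_sub _ _).trans (add_le_add ((le_nD hT.norm_one f hg).trans hnD) ?_)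
      rw [abs_mul, abs_of_nonneg hrγ]
      have := abs_real_inner_le_norm φ₁ g
      rw [hT.norm_one _ m1, hT.norm_one _ hg] at this
      nlinarith
    have h2 := mul_le_mul_of_nonneg_left h1 ht0'
    have h3 : r * γ ≤ M / 4 := by nlinarith
    have h4 := mul_le_mul_of_nonneg_left h3 ht0'
    nlinarith
  · have e : step (step f φ₁) φ₂ = (M - γ * p) • E i₀ i₀ + (y - γ * q) • E j j + diag E s d := by
      rw [step, i4, step, i1, hf, hφ₁, hφ₂]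
      have e1 : M - γ * p = M - 2 * r ^ 2 * γ * p := by rw [hr2]; ring
      have e2 : y - γ * q = y - 2 * r ^ 2 * γ * q := by rw [hr2]; ring
      rw [e1, e2]
      module
    refine StM.of_two hij hi hj e ?_ ?_ ?_ ?_ hd ?_
    · nlinarith
    · nlinarith
    · nlinarith
    · nlinarith
    · have h1 : (M - γ * p) ^ 2 + (y - γ * q) ^ 2 = M ^ 2 + y ^ 2 - γ ^ 2 := by
        have : (M - γ * p) ^ 2 + (y - γ * q) ^ 2 =
          M ^ 2 + y ^ 2 - 2 * γ * (M * p + y * q) + γ ^ 2 * (p ^ 2 + q ^ 2) := by ring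
        rw [this, hγe, hpq]; ring
      rw [h1]
      have h2 : γ / 3 ≤ -(γ * p) - γ * q := by nlinarith
      have h3 : M ^ 2 + y ^ 2 - γ ^ 2 + ∑ i ∈ s, d i ^ 2 ≤ 1 := by nlinarith
      have h4 := mul_le_mul_of_nonneg_left h3 (show 0 ≤ γ / 3 by positivity)
      have h5 := mul_nonneg hlam (sq_nonneg γ)
      nlinarith

lemma Tens.double (hT : Tens D E) {f : H} {X A a t t' : ℝ} (hX : 0 ≤ X) (hA0 : 0 ≤ A)
    (hA : A + a ^ 2 ≤ 1 / 64) (ha : 0 ≤ a) (ht0 : 0 ≤ t) (ht1 : t ≤ 1) (ht : 60 * t ≤ a * X)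
    (ht0' : 0 ≤ t') (ht1' : t' ≤ 1) (ht' : 60 * t' ≤ a * X)
    (h1 : 1 - 32 * A ≤ ‖f‖ ^ 2) (h2 : ‖f‖ ^ 2 ≤ 1) (h3 : ∃ U, StM E f (X / 3 * (1 - 2 * A)) U) :
    ∃ φ₁ φ₂, Valid D t f φ₁ ∧ Valid D t' (step f φ₁) φ₂ ∧
      1 - 32 * (A + a ^ 2) ≤ ‖step (step f φ₁) φ₂‖ ^ 2 ∧ ‖step (step f φ₁) φ₂‖ ^ 2 ≤ 1 ∧
      ∃ U, StM E (step (step f φ₁) φ₂) ((X + a) / 3 * (1 - 2 * (A + a ^ 2))) U := by
  obtain ⟨U, hU⟩ := h3
  have ha2 := sq_nonneg a
  obtain ⟨M, hM, -, hSt⟩ := hT.normalize hU (by linarith)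
  by_cases hc : 4 * a ≤ M
  · have hl := hSt.lam_mul_le hM
    have hXM : X * M ≤ 30 := by
      have : 0 ≤ X * M := mul_nonneg hX hM.le
      nlinarith
    have k1 : 2 * t * M ≤ a := by
      have := mul_le_mul_of_nonneg_right ht hM.le
      have := mul_le_mul_of_nonneg_left hXM ha
      nlinarith
    have k2 : 2 * t' * M ≤ a := by
      have := mul_le_mul_of_nonneg_right ht' hM.le
      have := mul_le_mul_of_nonneg_left hXM ha
      nlinarith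
    obtain ⟨φ₁, φ₂, v1, v2, hn, hS⟩ := hT.transfer hSt hM
      (mul_nonneg (by positivity) (by linarith)) h2 ha hc ht0 k1 ht0' k2
    refine ⟨φ₁, φ₂, v1, v2, by linarith, by linarith, M, hS.mono ?_⟩
    have := mul_nonneg hX ha2
    have := mul_nonneg ha hA0
    have := mul_nonneg ha ha2
    nlinarith
  · push Not at hc
    have hSt' : StX E f ((X + a) / 3 * (1 - 2 * (A + a ^ 2))) M := by
      refine hSt.upgrade hM ?_
      by_cases hc2 : a * (X + a) ≤ 3 / 4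
      · right
        have e1 : (X + a) * M ≤ (X + a) * (4 * a) :=
          mul_le_mul_of_nonneg_left hc.le (by linarith)
        have e2 : 0 ≤ (X + a) * M := mul_nonneg (by linarith) hM.le
        have e3 := mul_nonneg e2 (show 0 ≤ A + a ^ 2 by linarith)
        nlinarith
      · left
        push Not at hc2
        have e1 := mul_le_mul_of_nonneg_left hc2.le ha
        have e2 := mul_nonneg ha hA0
        nlinarith
    obtain ⟨φ₁, v1, hn1, hS1⟩ := hT.kill hSt' hM ht0 ht1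
    have hM2 : M ^ 2 ≤ 16 * a ^ 2 := by nlinarith
    obtain ⟨M', hM', hMM, hSt2⟩ := hT.normalize hS1 (by linarith)
    obtain ⟨φ₂, v2, hn2, hS2⟩ := hT.kill hSt2 hM' ht0' ht1'
    have hM3 : M' ^ 2 ≤ M ^ 2 := pow_le_pow_left₀ hM'.le hMM 2
    refine ⟨φ₁, φ₂, v1, v2, by linarith, ?_, M', hS2⟩
    have := sq_nonneg M
    have := sq_nonneg M'
    linarith

theorem Tens.not_converges (hT : Tens D E) (t : ℕ → ℝ) (ht0 : ∀ n, 0 ≤ t (n + 1))
    (ht1 : ∀ n, t (n + 1) ≤ 1) (hV : InV t) : ¬ Converges D t := by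
  classical
  obtain ⟨a, R, ha0, hR, ha2, hat⟩ := sched3 t ht0 ht1 hV
  let G : ℕ → H → Prop := fun j f =>
    1 - 32 * ∑ i ∈ range j, a i ^ 2 ≤ ‖f‖ ^ 2 ∧ ‖f‖ ^ 2 ≤ 1 ∧
      ∃ U, StM E f ((R + ∑ i ∈ range j, a i) / 3 * (1 - 2 * ∑ i ∈ range j, a i ^ 2)) U
  have hG : ∀ j f, G j f → ∃ φ₁ φ₂, Valid D (t (2 * j + 1)) f φ₁ ∧
      Valid D (t (2 * j + 1 + 1)) (step f φ₁) φ₂ ∧ G (j + 1) (step (step f φ₁) φ₂) := by
    intro j f hf
    obtain ⟨h1, h2, h3⟩ := hf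
    have hA := ha2 (j + 1)
    rw [sum_range_succ] at hA
    have hS : 0 ≤ ∑ i ∈ range j, a i := sum_nonneg fun i _ => ha0 i
    obtain ⟨φ₁, φ₂, v1, v2, k1, k2, k3⟩ := hT.double (X := R + ∑ i ∈ range j, a i)
      (by linarith) (sum_nonneg fun i _ => sq_nonneg _) hA (ha0 j) (ht0 _) (ht1 _) (hat j).1
      (ht0 _) (ht1 _) (hat j).2 h1 h2 h3
    refine ⟨φ₁, φ₂, v1, v2, ?_, k2, ?_⟩
    · rw [sum_range_succ]; exact k1
    · rw [sum_range_succ, sum_range_succ, ← add_assoc]; exact k3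
  let P : ℕ → H → Prop := fun m f =>
    (∃ j, m = 2 * j ∧ G j f) ∨
      (∃ j, m = 2 * j + 1 ∧ ∃ φ, Valid D (t (m + 1)) f φ ∧ G (j + 1) (step f φ))
  have hP : ∀ m f, P m f → ∃ φ, Valid D (t (m + 1)) f φ ∧ P (m + 1) (step f φ) := by
    intro m f hf
    rcases hf with ⟨j, rfl, hf⟩ | ⟨j, rfl, φ, v, hf⟩
    · obtain ⟨φ₁, φ₂, v1, v2, k⟩ := hG j f hf
      exact ⟨φ₁, v1, Or.inr ⟨j, rfl, φ₂, v2, k⟩⟩
    · exact ⟨φ, v, Or.inl ⟨j + 1, by ring, hf⟩⟩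
  obtain ⟨f₀, hf₀⟩ : ∃ f₀, P 0 f₀ := by
    obtain ⟨n, hn⟩ := exists_nat_ge R
    have hn0 : (0 : ℝ) < n := by linarith
    have hsq : ∑ i ∈ range (n ^ 2), (1 / (n : ℝ)) ^ 2 = 1 := by
      rw [sum_const, card_range, nsmul_eq_mul]; push_cast; field_simp
    have hl : ∑ i ∈ range (n ^ 2), (1 / (n : ℝ)) = n := by
      rw [sum_const, card_range, nsmul_eq_mul]; push_cast; field_simp
    have hnorm := hT.norm_diag (range (n ^ 2)) (fun _ => 1 / (n : ℝ))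
    rw [hsq] at hnorm
    refine ⟨diag E (range (n ^ 2)) (fun _ => 1 / (n : ℝ)), Or.inl ⟨0, rfl, ?_, hnorm.le,
      1 / (n : ℝ), range (n ^ 2), fun _ => 1 / (n : ℝ), 0, rfl, ?_, ?_, ?_⟩⟩
    · rw [hnorm]; simp
    · intro i _
      exact ⟨by positivity, le_rfl⟩
    · intro i _ _ k _
      have : 0 < 1 / (n : ℝ) := by positivity
      linarith
    · rw [hsq, hl]
      simp only [range_zero, sum_empty]
      linarith
  choose nxt hnxt using hP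
  let F : (m : ℕ) → {f : H // P m f} := fun m =>
    Nat.rec (motive := fun m => {f : H // P m f}) ⟨f₀, hf₀⟩
      (fun m x => ⟨step x.1 (nxt m x.1 x.2), (hnxt m x.1 x.2).2⟩) m
  let Φ : ℕ → H := fun m => match m with
    | 0 => 0
    | m + 1 => nxt m (F m).1 (F m).2
  intro hconv
  have hreal : IsRealization D t (fun m => (F m).1) Φ := by
    intro m
    exact ⟨(hnxt m (F m).1 (F m).2).1.1, (hnxt m (F m).1 (F m).2).1.2, rfl⟩
  have hlim := hconv _ _ hreal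
  obtain ⟨N, hN⟩ :=
    (hlim.eventually (gt_mem_nhds (show (0 : ℝ) < 1 / 2 by norm_num))).exists_forall_of_atTop
  have h1 := hN (2 * N) (by omega)
  rcases (F (2 * N)).2 with ⟨j, _, hj, -⟩ | ⟨j, hj, -⟩
  · have := ha2 j
    have h0 := norm_nonneg (F (2 * N)).1
    nlinarith
  · omega

end Pool.Agent.H468Z.WGA
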