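import Pool.Agent.H468Z.WGADiv

/-!
The bilinear dictionary in `L₂([0,1]²)`.
-/

set_option autoImplicit false

open MeasureTheory Filter Topology Finset
open scoped InnerProductSpace

namespace Pool.Agent.H468Z.WGA

lemma memLp_tens (u v : L2I) :
    MemLp (fun x : unitInterval × unitInterval => u x.1 * v x.2) 2 volume := by
  have hu := Lp.memLp u
  have hv := Lp.memLp v
  have hm : AEStronglyMeasurable (fun x : unitInterval × unitInterval => u x.1 * v x.2) volume :=
    hu.1.comp_fst.mul hv.1.comp_snd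
  rw [memLp_two_iff_integrable_sq hm]
  have h1 := ((memLp_two_iff_integrable_sq hu.1).1 hu).mul_prod
    ((memLp_two_iff_integrable_sq hv.1).1 hv)
  refine h1.congr (Eventually.of_forall fun x => ?_)
  simp only [mul_pow]

/-- The tensor product of two functions. -/
noncomputable def tens (u v : L2I) : L2Sq := (memLp_tens u v).toLp _

lemma tens_ae (u v : L2I) : ∀ᵐ x ∂(volume : Measure (unitInterval × unitInterval)),
    tens u v x = u x.1 * v x.2 := (memLp_tens u v).coeFn_toLp

lemma inner_tens (u v u' v' : L2I) : ⟪tens u v, tens u' v'⟫_ℝ = ⟪u, u'⟫_ℝ * ⟪v, v'⟫_ℝ := by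
  rw [L2.inner_def, L2.inner_def, L2.inner_def, ← integral_prod_mul]
  refine integral_congr_ae ?_
  filter_upwards [tens_ae u v, tens_ae u' v'] with x h1 h2
  rw [h1, h2]
  simp only [RCLike.inner_apply, conj_trivial]
  ring

lemma norm_tens (u v : L2I) : ‖tens u v‖ = ‖u‖ * ‖v‖ := by
  have h := inner_tens u v u v
  rw [real_inner_self_eq_norm_sq, real_inner_self_eq_norm_sq, real_inner_self_eq_norm_sq,
    ← mul_pow] at h
  exact (pow_left_inj₀ (norm_nonneg _) (by positivity) two_ne_zero).1 h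

lemma mem_Pi2 {g : L2Sq} : g ∈ Pi2 ↔ ‖g‖ = 1 ∧ ∃ u v : L2I, g = tens u v := by
  refine and_congr_right fun _ => exists_congr fun u => exists_congr fun v => ⟨fun h => ?_, ?_⟩
  · refine Lp.ext ?_
    filter_upwards [h, tens_ae u v] with x h1 h2
    rw [h1, h2]
  · rintro rfl
    exact tens_ae u v

lemma tens_comb (u w v z : L2I) (a₁ a₂ b₁ b₂ : ℝ) :
    tens (a₁ • u + a₂ • w) (b₁ • v + b₂ • z) =
      (a₁ * b₁) • tens u v + (a₁ * b₂) • tens u z + (a₂ * b₁) • tens w v +
        (a₂ * b₂) • tens w z := by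
  rw [← sub_eq_zero, ← inner_self_eq_zero (𝕜 := ℝ)]
  simp only [inner_sub_left, inner_sub_right, inner_add_left, inner_add_right,
    real_inner_smul_left, real_inner_smul_right, inner_tens]
  ring

lemma tens_smul (u v : L2I) (a : ℝ) : tens (a • u) v = a • tens u v := by
  rw [← sub_eq_zero, ← inner_self_eq_zero (𝕜 := ℝ)]
  simp only [inner_sub_left, inner_sub_right, real_inner_smul_left, real_inner_smul_right,
    inner_tens]
  ring

lemma exists_orthonormal : ∃ e : ℕ → L2I, Orthonormal ℝ e := by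
  let p : ℕ → unitInterval := fun n => ⟨1 / ((n : ℝ) + 1), by positivity, by
    rw [div_le_one (by positivity)]
    have : (0 : ℝ) ≤ n := Nat.cast_nonneg n
    linarith⟩
  have hp : StrictAnti p := by
    refine strictAnti_nat_of_succ_lt (fun n => ?_)
    change 1 / (((n + 1 : ℕ) : ℝ) + 1) < 1 / ((n : ℝ) + 1)
    exact one_div_lt_one_div_of_lt (by positivity) (by push_cast; linarith)
  let A : ℕ → Set unitInterval := fun n => Set.Ioc (p (n + 1)) (p n)
  have hA : ∀ n, MeasurableSet (A n) := fun n => measurableSet_Ioc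
  have hpos : ∀ n, 0 < volume.real (A n) := by
    intro n
    have h : (p (n + 1) : ℝ) < p n := hp (Nat.lt_succ_self n)
    rw [measureReal_def, unitInterval.volume_Ioc, ENNReal.toReal_ofReal (by linarith)]
    linarith
  have hdisj : ∀ i j, i < j → A i ∩ A j = ∅ := by
    intro i j hij
    refine Set.eq_empty_of_forall_notMem (fun x hx => ?_)
    have h1 : p (i + 1) < x := hx.1.1
    have h2 : x ≤ p j := hx.2.2
    have h3 : p j ≤ p (i + 1) := hp.antitone hij
    exact absurd (h1.trans_le (h2.trans h3)) (lt_irrefl _)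
  refine ⟨fun n => (√(volume.real (A n)))⁻¹ • indicatorConstLp 2 (hA n) (measure_ne_top _ _)
    (1 : ℝ), ?_⟩
  rw [orthonormal_iff_ite]
  intro i j
  rw [real_inner_smul_left, real_inner_smul_right,
    L2.real_inner_indicatorConstLp_one_indicatorConstLp_one]
  split_ifs with h
  · subst h
    rw [Set.inter_self, ← mul_assoc, ← mul_inv, Real.mul_self_sqrt (hpos i).le,
      inv_mul_cancel₀ (hpos i).ne']
  · have : A i ∩ A j = ∅ := by
      rcases lt_or_gt_of_ne h with h | h
      · exact hdisj i j h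
      · rw [Set.inter_comm]; exact hdisj j i h
    rw [this]; simp

lemma exists_tens : ∃ E : ℕ → ℕ → L2Sq, Tens Pi2 E := by
  obtain ⟨e, he⟩ := exists_orthonormal
  have he' := orthonormal_iff_ite.1 he
  refine ⟨fun i j => tens (e i) (e j), fun g hg => hg.1, ?_, ?_, ?_⟩
  · intro i j k l
    rw [inner_tens, he', he']
    by_cases h1 : i = k <;> by_cases h2 : j = l <;> simp [h1, h2]
  · intro i j hij a₁ a₂ b₁ b₂ ha hb
    rw [← tens_comb, mem_Pi2]
    refine ⟨?_, _, _, rfl⟩
    have hn : ∀ c₁ c₂ : ℝ, c₁ ^ 2 + c₂ ^ 2 = 1 → ‖c₁ • e i + c₂ • e j‖ = 1 := by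
      intro c₁ c₂ hc
      have : ‖c₁ • e i + c₂ • e j‖ ^ 2 = 1 := by
        rw [norm_add_sq_real, real_inner_smul_left, real_inner_smul_right, he', norm_smul,
          norm_smul, he.1, he.1, if_neg hij]
        simp only [Real.norm_eq_abs, mul_one, sq_abs]
        linarith
      exact (pow_eq_one_iff_of_nonneg (norm_nonneg _) two_ne_zero).1 this
    rw [norm_tens, hn _ _ ha, hn _ _ hb, mul_one]
  · intro g hg s
    obtain ⟨hn, u, v, rfl⟩ := mem_Pi2.1 hg
    rw [norm_tens] at hn
    have h1 := he.sum_inner_products_le (s := s) u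
    have h2 := he.sum_inner_products_le (s := s) v
    have h3 := Finset.sum_mul_sq_le_sq_mul_sq s (fun i => ‖⟪e i, u⟫_ℝ‖) (fun i => ‖⟪e i, v⟫_ℝ‖)
    have h4 : ∑ i ∈ s, |⟪tens (e i) (e i), tens u v⟫_ℝ| =
        ∑ i ∈ s, ‖⟪e i, u⟫_ℝ‖ * ‖⟪e i, v⟫_ℝ‖ :=
      sum_congr rfl (fun i _ => by rw [inner_tens, abs_mul]; rfl)
    rw [h4]
    have h5 : (∑ i ∈ s, ‖⟪e i, u⟫_ℝ‖ ^ 2) * ∑ i ∈ s, ‖⟪e i, v⟫_ℝ‖ ^ 2 ≤ ‖u‖ ^ 2 * ‖v‖ ^ 2 :=
      mul_le_mul h1 h2 (sum_nonneg fun i _ => sq_nonneg _) (sq_nonneg _)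
    rw [← mul_pow, hn] at h5
    exact (pow_le_pow_iff_left₀ (sum_nonneg fun i _ => by positivity) zero_le_one two_ne_zero).1
      (h3.trans h5)

lemma eq_zero_of_orth (f : L2Sq) (h : ∀ u v : L2I, ⟪tens u v, f⟫_ℝ = 0) : f = 0 := by
  have hint : Integrable f volume := (Lp.memLp f).integrable (by norm_num)
  have hrect : ∀ (A B : Set unitInterval), MeasurableSet A → MeasurableSet B →
      ∫ x in A ×ˢ B, f x = 0 := by
    intro A B hA hB
    have h1 := h (indicatorConstLp 2 hA (measure_ne_top _ _) (1 : ℝ))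
      (indicatorConstLp 2 hB (measure_ne_top _ _) (1 : ℝ))
    rw [L2.inner_def] at h1
    rw [← h1, ← integral_indicator (hA.prod hB)]
    refine integral_congr_ae ?_
    have a1 := (Measure.quasiMeasurePreserving_fst (μ := (volume : Measure unitInterval))
      (ν := (volume : Measure unitInterval))).ae
      (indicatorConstLp_coeFn (p := 2) (hs := hA) (hμs := measure_ne_top _ _) (c := (1 : ℝ)))
    have a2 := (Measure.quasiMeasurePreserving_snd (μ := (volume : Measure unitInterval))
      (ν := (volume : Measure unitInterval))).ae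
      (indicatorConstLp_coeFn (p := 2) (hs := hB) (hμs := measure_ne_top _ _) (c := (1 : ℝ)))
    filter_upwards [tens_ae (indicatorConstLp 2 hA (measure_ne_top _ _) (1 : ℝ))
      (indicatorConstLp 2 hB (measure_ne_top _ _) (1 : ℝ)), a1, a2] with x e1 e2 e3
    rw [e1, e2, e3]
    by_cases hx : x.1 ∈ A <;> by_cases hy : x.2 ∈ B <;> simp [Set.indicator, hx, hy]
  have hall : ∀ s : Set (unitInterval × unitInterval), MeasurableSet s → ∫ x in s, f x = 0 := by
    intro s hs
    induction s, hs using MeasurableSpace.induction_on_inter generateFrom_prod.symm isPiSystem_prod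
      with
    | empty => simp
    | basic s hs =>
      obtain ⟨A, hA, B, hB, rfl⟩ := hs
      exact hrect A B hA hB
    | compl s hs ih =>
      have h1 := hrect Set.univ Set.univ MeasurableSet.univ MeasurableSet.univ
      rw [Set.univ_prod_univ, Measure.restrict_univ] at h1
      rw [setIntegral_compl hs hint, h1, ih, sub_zero]
    | iUnion g hd hm ih =>
      rw [integral_iUnion hm hd hint.integrableOn]
      simp [ih]
  refine Lp.ext ?_
  exact (hint.ae_eq_zero_of_forall_setIntegral_eq_zero (fun s hs _ => hall s hs)).trans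
    (Lp.coeFn_zero _ _ _).symm

lemma dense_Pi2 : Dense (Submodule.span ℝ Pi2 : Set L2Sq) := by
  rw [Submodule.dense_iff_topologicalClosure_eq_top, Submodule.topologicalClosure_eq_top_iff,
    Submodule.eq_bot_iff]
  intro f hf
  refine eq_zero_of_orth f (fun u v => ?_)
  refine (Submodule.mem_orthogonal _ _).1 hf _ ?_
  by_cases h0 : tens u v = 0
  · rw [h0]; exact Submodule.zero_mem _
  · have hn : ‖tens u v‖ ≠ 0 := norm_ne_zero_iff.2 h0
    have h1 : tens (‖tens u v‖⁻¹ • u) v ∈ Pi2 := by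
      refine mem_Pi2.2 ⟨?_, _, _, rfl⟩
      rw [tens_smul, norm_smul, norm_inv, norm_norm, inv_mul_cancel₀ hn]
    have h2 : tens u v = ‖tens u v‖ • tens (‖tens u v‖⁻¹ • u) v := by
      rw [tens_smul, smul_smul, mul_inv_cancel₀ hn, one_smul]
    rw [h2]
    exact Submodule.smul_mem _ _ (Submodule.subset_span h1)

theorem converges_iff (t : ℕ → ℝ) (ht : ∀ k, 1 ≤ k → 0 ≤ t k ∧ t k ≤ 1) :
    Converges Pi2 t ↔ ¬ InV t := by
  have ht0 : ∀ n, 0 ≤ t (n + 1) := fun n => (ht (n + 1) (by omega)).1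
  have ht1 : ∀ n, t (n + 1) ≤ 1 := fun n => (ht (n + 1) (by omega)).2
  constructor
  · intro hc hV
    obtain ⟨E, hE⟩ := exists_tens
    exact hE.not_converges t ht0 ht1 hV hc
  · intro hV
    refine converges_of (fun g hg => hg.1) dense_Pi2 t (fun a ha hs δ hδ N => ?_)
    by_contra hc
    push Not at hc
    exact hV (inV_of t a ht0 ht1 ha hs δ hδ N hc)

end Pool.Agent.H468Z.WGA
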