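import Pool.Agent.H468Z.WGADefs

/-!
The class `𝒱` and the `ℓ₂` criterion.
-/

set_option autoImplicit false

open Filter Topology Finset

namespace Pool.Agent.H468Z.WGA

lemma sum_Icc_shift (g : ℕ → ℝ) (n : ℕ) : ∑ k ∈ Icc 1 n, g k = ∑ k ∈ range n, g (k + 1) := by
  induction n with
  | zero => simp
  | succ n ih => rw [Finset.sum_Icc_succ_top (by omega), ih, sum_range_succ]

lemma sum_blocks (g : ℕ → ℝ) (q : ℕ → ℕ) (hq0 : q 0 = 0) (hq : Monotone q) (n : ℕ) :
    ∑ s ∈ range n, ∑ i ∈ Ico (q s) (q (s + 1)), g i = ∑ i ∈ range (q n), g i := by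
  induction n with
  | zero => simp [hq0]
  | succ n ih =>
    rw [sum_range_succ, ih, sum_range_add_sum_Ico _ (hq (Nat.le_succ n))]

lemma inV_core (t b : ℕ → ℝ) (hb : ∀ n, 0 ≤ b n) (hs : Summable (fun n => b n ^ 2))
    (hdiv : Tendsto (fun n => ∑ i ∈ range n, b i) atTop atTop)
    (ht0 : ∀ n, 0 ≤ t (n + 1)) (ht : ∀ n, t (n + 1) ≤ b n * ∑ i ∈ range (n + 1), b i) :
    InV t := by
  classical
  set S : ℕ → ℝ := fun n => ∑ i ∈ range n, b i with hS
  have hSmono : Monotone S := by
    refine monotone_nat_of_le_succ (fun n => ?_)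
    simp only [hS, sum_range_succ]; linarith [hb n]
  have hS0 : ∀ n, 0 ≤ S n := fun n => sum_nonneg fun i _ => hb i
  set T : ℝ := ∑' n, b n ^ 2 with hT
  have hpart : ∀ n, ∑ i ∈ range n, b i ^ 2 ≤ T := fun n =>
    hs.sum_le_tsum _ (fun i _ => sq_nonneg _)
  set β : ℝ := T + 1 with hβ
  have hT0 : 0 ≤ T := tsum_nonneg fun n => sq_nonneg _
  have hβpos : 0 < β := by positivity
  have hbβ : ∀ n, b n ≤ β := by
    intro n
    have h1 : b n ^ 2 ≤ T := hs.le_tsum n (fun i _ => sq_nonneg _)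
    nlinarith [sq_nonneg (b n - 1)]
  set r : ℝ := √2 with hr
  have hr2 : r ^ 2 = 2 := Real.sq_sqrt (by norm_num)
  have hr0 : 0 ≤ r := Real.sqrt_nonneg _
  have hr1 : 1.4 ≤ r := by nlinarith
  set x : ℕ → ℝ := fun s => 10 * β * r ^ s with hx
  have hxβ : ∀ s, 10 * β ≤ x s := by
    intro s
    have : 1 ≤ r ^ s := one_le_pow₀ (by linarith)
    simp only [hx]; nlinarith
  have hxsucc : ∀ s, x (s + 1) = r * x s := by intro s; simp only [hx]; ring
  have hxsq : ∀ s, x s ^ 2 = 100 * β ^ 2 * 2 ^ s := by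
    intro s
    simp only [hx]
    rw [mul_pow, ← pow_mul, mul_comm s 2, pow_mul, hr2]; ring
  have hex : ∀ s, ∃ n, x s ≤ S n := fun s => (hdiv.eventually_ge_atTop (x s)).exists
  set q : ℕ → ℕ := fun s => if s = 0 then 0 else Nat.find (hex s) with hq
  have hq0 : q 0 = 0 := by simp [hq]
  have hlow : ∀ s, x (s + 1) ≤ S (q (s + 1)) := by
    intro s
    simp only [hq, Nat.succ_ne_zero, if_false]
    exact Nat.find_spec (hex (s + 1))
  have hup : ∀ s, S (q s) ≤ x s + β := by
    intro s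
    by_cases h0 : s = 0
    · subst h0
      rw [hq0]; simp only [hS, range_zero, sum_empty]; linarith [hxβ 0]
    · simp only [hq, h0, if_false]
      rcases hn : Nat.find (hex s) with _ | n
      · simp only [hS, range_zero, sum_empty]; linarith [hxβ s]
      · have h1 : ¬ x s ≤ S n := Nat.find_min (hex s) (by omega)
        push Not at h1
        have h2 : S (n + 1) = S n + b n := by simp only [hS, sum_range_succ]
        linarith [hbβ n]
  have hgap : ∀ s, 0.3 * x s ≤ S (q (s + 1)) - S (q s) := by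
    intro s
    have h1 := hlow s
    have h2 := hup s
    have h3 := hxβ s
    rw [hxsucc] at h1
    nlinarith
  have hstrict : StrictMono q := by
    refine strictMono_nat_of_lt_succ (fun s => ?_)
    by_contra hc
    push Not at hc
    have h1 := hSmono hc
    have h2 := hgap s
    have h3 := hxβ s
    linarith
  set w : ℕ → ℝ := fun s => ∑ i ∈ Ico (q s) (q (s + 1)), b i ^ 2 with hw
  have hw0 : ∀ s, 0 ≤ w s := fun s => sum_nonneg fun i _ => sq_nonneg _
  have hwsum : ∀ n, ∑ s ∈ range n, w s ≤ T := by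
    intro n
    simp only [hw]
    rw [sum_blocks (fun i => b i ^ 2) q hq0 hstrict.monotone n]
    exact hpart _
  have hws : Summable w := summable_of_sum_range_le hw0 hwsum
  refine ⟨q, hq0, hstrict, ?_, ?_⟩
  · refine Summable.of_nonneg_of_le (fun s => ?_) (fun s => ?_) (hws.mul_left (2 / (9 * β ^ 2)))
    · have : (q s : ℝ) < q (s + 1) := by exact_mod_cast hstrict (Nat.lt_succ_self s)
      have : 0 < (q (s + 1) : ℝ) - q s := by linarith
      positivity
    · have hlt : (q s : ℝ) < q (s + 1) := by exact_mod_cast hstrict (Nat.lt_succ_self s)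
      have hΔ : 0 < (q (s + 1) : ℝ) - q s := by linarith
      have h1 : S (q (s + 1)) - S (q s) = ∑ i ∈ Ico (q s) (q (s + 1)), b i := by
        simp only [hS]
        rw [← sum_range_add_sum_Ico _ (hstrict.monotone (Nat.le_succ s))]; ring
      have h2 : (∑ i ∈ Ico (q s) (q (s + 1)), b i) ^ 2 ≤ ((q (s + 1) : ℝ) - q s) * w s := by
        have := sq_sum_le_card_mul_sum_sq (s := Ico (q s) (q (s + 1))) (f := b)
        rw [Nat.card_Ico, Nat.cast_sub (hstrict.monotone (Nat.le_succ s))] at this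
        exact this
      have h3 : (0.3 * x s) ^ 2 ≤ (∑ i ∈ Ico (q s) (q (s + 1)), b i) ^ 2 := by
        rw [← h1]
        exact pow_le_pow_left₀ (by linarith [hxβ s]) (hgap s) 2
      have h4 : 9 * β ^ 2 * 2 ^ s ≤ ((q (s + 1) : ℝ) - q s) * w s := by
        have := hxsq s
        nlinarith
      rw [div_le_iff₀ hΔ, div_mul_eq_mul_div, div_mul_eq_mul_div, le_div_iff₀ (by positivity),
        pow_succ]
      nlinarith
  · set u : ℕ → ℝ := fun s => (∑ k ∈ Icc 1 (q s), t k ^ 2) / 2 ^ s with hu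
    have hu0 : ∀ s, 0 ≤ u s := fun s =>
      div_nonneg (sum_nonneg fun i _ => sq_nonneg _) (by positivity)
    have hrec : ∀ s, u (s + 1) ≤ u s / 2 + 121 * β ^ 2 * w s := by
      intro s
      have h1 : ∑ k ∈ Icc 1 (q (s + 1)), t k ^ 2 = ∑ k ∈ Icc 1 (q s), t k ^ 2 +
          ∑ i ∈ Ico (q s) (q (s + 1)), t (i + 1) ^ 2 := by
        rw [sum_Icc_shift (fun k => t k ^ 2), sum_Icc_shift (fun k => t k ^ 2),
          sum_range_add_sum_Ico _ (hstrict.monotone (Nat.le_succ s))]
      have h2 : ∑ i ∈ Ico (q s) (q (s + 1)), t (i + 1) ^ 2 ≤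
          121 * β ^ 2 * 2 ^ (s + 1) * w s := by
        simp only [hw]
        rw [mul_sum]
        refine sum_le_sum (fun i hi => ?_)
        have hi' : i + 1 ≤ q (s + 1) := (Finset.mem_Ico.1 hi).2
        have h3 : S (i + 1) ≤ 1.1 * x (s + 1) := by
          have := hSmono hi'
          have := hup (s + 1)
          have := hxβ (s + 1)
          linarith
        have h4 : t (i + 1) ≤ b i * (1.1 * x (s + 1)) :=
          (ht i).trans (mul_le_mul_of_nonneg_left h3 (hb i))
        have h5 := pow_le_pow_left₀ (ht0 i) h4 2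
        have h6 := hxsq (s + 1)
        calc t (i + 1) ^ 2 ≤ (b i * (1.1 * x (s + 1))) ^ 2 := h5
          _ = 1.21 * x (s + 1) ^ 2 * b i ^ 2 := by ring
          _ = 121 * β ^ 2 * 2 ^ (s + 1) * b i ^ 2 := by rw [h6]; ring
      simp only [hu]
      rw [h1, add_div, div_div, ← pow_succ]
      have : (∑ i ∈ Ico (q s) (q (s + 1)), t (i + 1) ^ 2) / 2 ^ (s + 1) ≤ 121 * β ^ 2 * w s := by
        rw [div_le_iff₀ (by positivity)]; linarith
      linarith
    have hind : ∀ n, ∑ s ∈ range n, u (s + 1) + u n ≤ 242 * β ^ 2 * ∑ s ∈ range n, w s := by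
      intro n
      induction n with
      | zero => simp [hu, hq0]
      | succ n ih =>
        rw [sum_range_succ, sum_range_succ]
        have := hrec n
        linarith
    refine summable_of_sum_range_le (c := 242 * β ^ 2 * T) (fun s => hu0 (s + 1)) (fun n => ?_)
    have h1 := hind n
    have h2 := mul_le_mul_of_nonneg_left (hwsum n) (show 0 ≤ 242 * β ^ 2 by positivity)
    have h3 := hu0 n
    exact le_trans (by linarith) h2

lemma inV_of (t a : ℕ → ℝ) (ht0 : ∀ n, 0 ≤ t (n + 1)) (ht1 : ∀ n, t (n + 1) ≤ 1)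
    (ha : ∀ n, 0 ≤ a n) (hs : Summable (fun n => a n ^ 2)) (δ : ℝ) (hδ : 0 < δ) (N : ℕ)
    (h : ∀ n, N ≤ n → δ * t (n + 1) ≤ a n * (1 + ∑ i ∈ range (n + 1), a i)) : InV t := by
  set κ : ℝ := N + 1 with hκ
  have hκ1 : 1 ≤ κ := by have : (0 : ℝ) ≤ N := Nat.cast_nonneg N; linarith
  set c : ℝ := 1 + 1 / δ with hc
  have hc1 : 1 ≤ c := by have : 0 < 1 / δ := by positivity
                         linarith
  have hcδ : 1 ≤ c * δ := by rw [hc, add_mul, one_div, inv_mul_cancel₀ hδ.ne']; linarith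
  set b : ℕ → ℝ := fun n => c * (a n + κ * (1 / ((n : ℝ) + 1))) with hb
  have hb0 : ∀ n, 0 ≤ b n := fun n => by have := ha n; simp only [hb]; positivity
  have hab : ∀ n, c * a n ≤ b n := by
    intro n
    have : 0 ≤ κ * (1 / ((n : ℝ) + 1)) := by positivity
    simp only [hb]; nlinarith
  have hSb : ∀ n, ∑ i ∈ range n, b i =
      c * (∑ i ∈ range n, a i + κ * ∑ i ∈ range n, 1 / ((i : ℝ) + 1)) := by
    intro n
    simp only [hb]
    rw [← mul_sum, sum_add_distrib, ← mul_sum]
  refine inV_core t b hb0 ?_ ?_ ht0 ?_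
  · have h1 : Summable (fun n : ℕ => (1 / ((n : ℝ) + 1)) ^ 2) := by
      have := (summable_nat_add_iff 1).2 (Real.summable_one_div_nat_pow.2 (one_lt_two))
      refine this.congr (fun n => ?_)
      push_cast; rw [one_div_pow]
    refine Summable.of_nonneg_of_le (fun n => sq_nonneg _) (fun n => ?_)
      ((hs.mul_left (2 * c ^ 2)).add (h1.mul_left (2 * c ^ 2 * κ ^ 2)))
    simp only [hb]
    have := sq_nonneg (a n - κ * (1 / ((n : ℝ) + 1)))
    have h2 : (a n + κ * (1 / ((n : ℝ) + 1))) ^ 2 ≤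
      2 * a n ^ 2 + 2 * κ ^ 2 * (1 / ((n : ℝ) + 1)) ^ 2 := by nlinarith
    have h3 := mul_le_mul_of_nonneg_left h2 (sq_nonneg c)
    calc (c * (a n + κ * (1 / ((n : ℝ) + 1)))) ^ 2
        = c ^ 2 * (a n + κ * (1 / ((n : ℝ) + 1))) ^ 2 := by ring
      _ ≤ _ := h3
      _ = _ := by ring
  · refine tendsto_atTop_mono (fun n => ?_) Real.tendsto_sum_range_one_div_nat_succ_atTop
    rw [hSb]
    have h1 : 0 ≤ ∑ i ∈ range n, a i := sum_nonneg fun i _ => ha i
    have h2 : 0 ≤ ∑ i ∈ range n, 1 / ((i : ℝ) + 1) := sum_nonneg fun i _ => by positivity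
    have h3 : ∑ i ∈ range n, 1 / ((i : ℝ) + 1) ≤ κ * ∑ i ∈ range n, 1 / ((i : ℝ) + 1) := by
      nlinarith
    nlinarith
  · intro n
    by_cases hn : N ≤ n
    · have h1 := h n hn
      have h2 : 1 ≤ ∑ i ∈ range (n + 1), 1 / ((i : ℝ) + 1) := by
        rw [sum_range_succ']
        have : 0 ≤ ∑ i ∈ range n, 1 / (((i + 1 : ℕ) : ℝ) + 1) :=
          sum_nonneg fun i _ => by positivity
        simp only [Nat.cast_zero, zero_add, div_one]
        linarith
      have h3 : 0 ≤ ∑ i ∈ range (n + 1), a i := sum_nonneg fun i _ => ha i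
      have h4 : 1 + ∑ i ∈ range (n + 1), a i ≤ ∑ i ∈ range (n + 1), b i := by
        rw [hSb]
        have : 1 ≤ κ * ∑ i ∈ range (n + 1), 1 / ((i : ℝ) + 1) := by nlinarith
        nlinarith
      have h5 : c * a n * (1 + ∑ i ∈ range (n + 1), a i) ≤ b n * ∑ i ∈ range (n + 1), b i :=
        mul_le_mul (hab n) h4 (by linarith) (hb0 n)
      have h6 := mul_le_mul_of_nonneg_left h1 (show 0 ≤ c by linarith)
      have h7 := ht0 n
      nlinarith
    · push Not at hn
      have h1 : 1 ≤ κ * (1 / ((n : ℝ) + 1)) := by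
        rw [mul_one_div, le_div_iff₀ (by positivity), hκ]
        have : (n : ℝ) < N := by exact_mod_cast hn
        linarith
      have h2 : 1 ≤ b n := by
        have := ha n
        simp only [hb]; nlinarith
      have h3 : b n ≤ ∑ i ∈ range (n + 1), b i := by
        rw [sum_range_succ]
        have : 0 ≤ ∑ i ∈ range n, b i := sum_nonneg fun i _ => hb0 i
        linarith
      have := ht1 n
      nlinarith

end Pool.Agent.H468Z.WGA
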