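import Pool.Agent.H468Z.WGAConv

/-!
Diagonal states and the two moves (removal of the largest entry, transfer).
-/

set_option autoImplicit false

open Filter Topology Finset
open scoped InnerProductSpace

namespace Pool.Agent.H468Z.WGA

variable {H : Type} [NormedAddCommGroup H] [InnerProductSpace ℝ H]

/-- A dictionary containing the unit tensors built on an orthonormal family of matrix units. -/
structure Tens (D : Set H) (E : ℕ → ℕ → H) : Prop where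
  norm_one : ∀ g ∈ D, ‖g‖ = 1
  inner_E : ∀ i j k l, ⟪E i j, E k l⟫_ℝ = if i = k ∧ j = l then 1 else 0
  mem : ∀ i j, i ≠ j → ∀ a₁ a₂ b₁ b₂ : ℝ, a₁ ^ 2 + a₂ ^ 2 = 1 → b₁ ^ 2 + b₂ ^ 2 = 1 →
    (a₁ * b₁) • E i i + (a₁ * b₂) • E i j + (a₂ * b₁) • E j i + (a₂ * b₂) • E j j ∈ D
  sum_le : ∀ g ∈ D, ∀ s : Finset ℕ, ∑ i ∈ s, |⟪E i i, g⟫_ℝ| ≤ 1

/-- A diagonal element. -/
def diag (E : ℕ → ℕ → H) (s : Finset ℕ) (d : ℕ → ℝ) : H := ∑ i ∈ s, d i • E i i

/-- One step of the algorithm. -/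
noncomputable def step (f φ : H) : H := f - ⟪f, φ⟫_ℝ • φ

/-- An admissible choice. -/
def Valid (D : Set H) (t : ℝ) (f φ : H) : Prop := φ ∈ D ∧ t * nD D f ≤ |⟪f, φ⟫_ℝ|

/-- The state invariant, with an upper bound for the entries. -/
def StM (E : ℕ → ℕ → H) (f : H) (lam M : ℝ) : Prop :=
  ∃ (s : Finset ℕ) (d : ℕ → ℝ) (j : ℕ), f = diag E s d ∧ (∀ i ∈ s, 0 ≤ d i ∧ d i ≤ M) ∧
    (∀ i ∈ s, i ≠ j → ∀ k ∈ s, d k ≤ 4 * d i) ∧ lam * ∑ i ∈ s, d i ^ 2 ≤ ∑ i ∈ s, d i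

/-- The state invariant in normal form: a largest entry `M` and a small entry `y`. -/
def StX (E : ℕ → ℕ → H) (f : H) (lam M : ℝ) : Prop :=
  ∃ (s : Finset ℕ) (d : ℕ → ℝ) (i₀ j : ℕ) (y : ℝ), i₀ ≠ j ∧ i₀ ∉ s ∧ j ∉ s ∧
    f = M • E i₀ i₀ + y • E j j + diag E s d ∧ 0 ≤ y ∧ 4 * y ≤ M ∧
    (∀ i ∈ s, M ≤ 4 * d i ∧ d i ≤ M) ∧
    lam * (M ^ 2 + y ^ 2 + ∑ i ∈ s, d i ^ 2) ≤ M + y + ∑ i ∈ s, d i

variable {D : Set H} {E : ℕ → ℕ → H}

lemma Tens.diag_mem (hT : Tens D E) (i : ℕ) : E i i ∈ D := by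
  have := hT.mem i (i + 1) (by omega) 1 0 1 0 (by norm_num) (by norm_num)
  simpa using this

lemma Tens.inner_diag (hT : Tens D E) (s : Finset ℕ) (d : ℕ → ℝ) (k l : ℕ) (hk : k ∉ s) :
    ⟪diag E s d, E k l⟫_ℝ = 0 := by
  rw [diag, sum_inner]
  refine sum_eq_zero (fun i hi => ?_)
  have : i ≠ k := fun h => hk (h ▸ hi)
  rw [real_inner_smul_left, hT.inner_E]
  simp [this]

lemma Tens.norm_diag (hT : Tens D E) (s : Finset ℕ) (d : ℕ → ℝ) :
    ‖diag E s d‖ ^ 2 = ∑ i ∈ s, d i ^ 2 := by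
  classical
  induction s using Finset.induction_on with
  | empty => simp [diag]
  | insert k s hk ih =>
    have e : diag E (insert k s) d = diag E s d + d k • E k k := by
      rw [diag, sum_insert hk, add_comm]; rfl
    rw [e, norm_add_sq_real, ih, real_inner_smul_right, hT.inner_diag s d k k hk, norm_smul,
      hT.norm_one _ (hT.diag_mem k), sum_insert hk, Real.norm_eq_abs, mul_one, sq_abs]
    ring

lemma Tens.nD_diag (hT : Tens D E) (s : Finset ℕ) (d : ℕ → ℝ) (M : ℝ) (hM : 0 ≤ M)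
    (hd : ∀ i ∈ s, 0 ≤ d i ∧ d i ≤ M) : nD D (diag E s d) ≤ M := by
  refine nD_le hM (fun g hg => ?_)
  rw [diag, sum_inner]
  refine (abs_sum_le_sum_abs _ _).trans ?_
  have h1 : ∑ i ∈ s, |⟪d i • E i i, g⟫_ℝ| ≤ ∑ i ∈ s, M * |⟪E i i, g⟫_ℝ| := by
    refine sum_le_sum (fun i hi => ?_)
    rw [real_inner_smul_left, abs_mul, abs_of_nonneg (hd i hi).1]
    exact mul_le_mul_of_nonneg_right (hd i hi).2 (abs_nonneg _)
  rw [← mul_sum] at h1
  have h2 := mul_le_mul_of_nonneg_left (hT.sum_le g hg s) hM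
  linarith

lemma diag_two (E : ℕ → ℕ → H) (s : Finset ℕ) (d : ℕ → ℝ) (i₀ j : ℕ) (x y : ℝ) (hij : i₀ ≠ j)
    (hi : i₀ ∉ s) (hj : j ∉ s) :
    ∃ d' : ℕ → ℝ, d' i₀ = x ∧ d' j = y ∧ (∀ i ∈ s, d' i = d i) ∧
      x • E i₀ i₀ + y • E j j + diag E s d = diag E (insert i₀ (insert j s)) d' ∧
      ∀ g : ℝ → ℝ, ∑ i ∈ insert i₀ (insert j s), g (d' i) = g x + g y + ∑ i ∈ s, g (d i) := by
  classical
  set d' : ℕ → ℝ := fun i => if i = i₀ then x else if i = j then y else d i with hd'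
  have h1 : d' i₀ = x := by simp [hd']
  have h2 : d' j = y := by simp [hd', hij.symm]
  have h3 : ∀ i ∈ s, d' i = d i := by
    intro i hi'
    have a1 : i ≠ i₀ := fun h => hi (h ▸ hi')
    have a2 : i ≠ j := fun h => hj (h ▸ hi')
    simp [hd', a1, a2]
  have hn : i₀ ∉ insert j s := by simp [hij, hi]
  refine ⟨d', h1, h2, h3, ?_, fun g => ?_⟩
  · rw [diag, diag, sum_insert hn, sum_insert hj, h1, h2, add_assoc]
    congr 2
    exact sum_congr rfl (fun i hi' => by rw [h3 i hi'])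
  · rw [sum_insert hn, sum_insert hj, h1, h2, add_assoc]
    congr 2
    exact sum_congr rfl (fun i hi' => by rw [h3 i hi'])

lemma StM.of_two {f : H} {lam M x y : ℝ} {s : Finset ℕ} {d : ℕ → ℝ} {i₀ j : ℕ} (hij : i₀ ≠ j)
    (hi : i₀ ∉ s) (hj : j ∉ s) (hf : f = x • E i₀ i₀ + y • E j j + diag E s d)
    (hx : M ≤ 4 * x) (hx' : x ≤ M) (hy : 0 ≤ y) (hy' : y ≤ M)
    (hd : ∀ i ∈ s, M ≤ 4 * d i ∧ d i ≤ M)
    (hl : lam * (x ^ 2 + y ^ 2 + ∑ i ∈ s, d i ^ 2) ≤ x + y + ∑ i ∈ s, d i) :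
    StM E f lam M := by
  obtain ⟨d', h1, h2, h3, h4, h5⟩ := diag_two E s d i₀ j x y hij hi hj
  have hM : 0 ≤ M := hy.trans hy'
  have hall : ∀ i ∈ insert i₀ (insert j s), 0 ≤ d' i ∧ d' i ≤ M := by
    intro i hi'
    simp only [mem_insert] at hi'
    rcases hi' with rfl | rfl | hi'
    · rw [h1]; constructor <;> linarith
    · rw [h2]; exact ⟨hy, hy'⟩
    · rw [h3 i hi']; have := hd i hi'; constructor <;> linarith
  refine ⟨insert i₀ (insert j s), d', j, hf.trans h4, hall, ?_, ?_⟩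
  · intro i hi' hne k hk
    have hk' := (hall k hk).2
    simp only [mem_insert] at hi'
    rcases hi' with rfl | rfl | hi'
    · rw [h1]; linarith
    · exact absurd rfl hne
    · rw [h3 i hi']; have := hd i hi'; linarith
  · rw [h5 (fun z => z ^ 2), h5 (fun z => z)]
    exact hl

lemma Tens.normalize (hT : Tens D E) {f : H} {lam U : ℝ} (h : StM E f lam U) (hf : 0 < ‖f‖ ^ 2) :
    ∃ M, 0 < M ∧ M ≤ U ∧ StX E f lam M := by
  classical
  obtain ⟨s, d, j, rfl, h1, h2, h3⟩ := h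
  rw [hT.norm_diag] at hf
  have hne : s.Nonempty := by
    rcases s.eq_empty_or_nonempty with rfl | h
    · simp at hf
    · exact h
  obtain ⟨i₀, hi₀, hmax⟩ := s.exists_max_image d hne
  have hM : 0 < d i₀ := by
    by_contra hc
    push Not at hc
    have : ∑ i ∈ s, d i ^ 2 = 0 := sum_eq_zero (fun i hi => by
      have : d i = 0 := le_antisymm ((hmax i hi).trans hc) (h1 i hi).1
      rw [this]; ring)
    linarith
  refine ⟨d i₀, hM, (h1 i₀ hi₀).2, ?_⟩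
  by_cases hj : j ∈ s ∧ 4 * d j < d i₀
  · have hij : i₀ ≠ j := by
      rintro rfl
      linarith [hj.2]
    have hjs : j ∈ s.erase i₀ := mem_erase.2 ⟨hij.symm, hj.1⟩
    refine ⟨(s.erase i₀).erase j, d, i₀, j, d j, hij, by simp, by simp, ?_, (h1 j hj.1).1,
      hj.2.le, ?_, ?_⟩
    · rw [diag, diag, add_assoc, add_sum_erase _ (fun i => d i • E i i) hjs,
        add_sum_erase _ (fun i => d i • E i i) hi₀]
    · intro i hi
      simp only [mem_erase] at hi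
      exact ⟨h2 i hi.2.2 hi.1 i₀ hi₀, hmax i hi.2.2⟩
    · rw [add_assoc, add_assoc, add_sum_erase _ (fun i => d i ^ 2) hjs,
        add_sum_erase _ (fun i => d i ^ 2) hi₀, add_sum_erase _ d hjs, add_sum_erase _ d hi₀]
      exact h3
  · obtain ⟨j', hj'⟩ := Infinite.exists_notMem_finset s
    have hij : i₀ ≠ j' := fun h => hj' (h ▸ hi₀)
    refine ⟨s.erase i₀, d, i₀, j', 0, hij, by simp, by simp [hj'], ?_, le_rfl, by linarith,
      ?_, ?_⟩
    · rw [diag, diag, zero_smul, add_zero, add_sum_erase _ (fun i => d i • E i i) hi₀]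
    · intro i hi
      simp only [mem_erase] at hi
      refine ⟨?_, hmax i hi.2⟩
      by_cases hij' : i = j
      · subst hij'
        by_contra hc
        exact hj ⟨hi.2, by linarith⟩
      · exact h2 i hi.2 hij' i₀ hi₀
    · have e1 := add_sum_erase s (fun i => d i ^ 2) hi₀
      have e2 := add_sum_erase s d hi₀
      have e3 : d i₀ ^ 2 + 0 ^ 2 + ∑ i ∈ s.erase i₀, d i ^ 2 = ∑ i ∈ s, d i ^ 2 := by
        rw [← e1]; ring
      rw [e3, add_zero, e2]
      exact h3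

lemma StX.toM {f : H} {lam M : ℝ} (h : StX E f lam M) : StM E f lam M := by
  obtain ⟨s, d, i₀, j, y, hij, hi, hj, hf, hy, hy', hd, hl⟩ := h
  exact StM.of_two hij hi hj hf (by linarith) le_rfl hy (by linarith) hd hl

lemma Tens.nD_StM (hT : Tens D E) {f : H} {lam M : ℝ} (h : StM E f lam M) (hM : 0 ≤ M) :
    nD D f ≤ M := by
  obtain ⟨s, d, j, rfl, h1, -, -⟩ := h
  exact hT.nD_diag s d M hM h1

lemma StM.mono {f : H} {lam lam' M : ℝ} (h : StM E f lam M) (hl : lam' ≤ lam) :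
    StM E f lam' M := by
  obtain ⟨s, d, j, hf, h1, h2, h3⟩ := h
  exact ⟨s, d, j, hf, h1, h2,
    (mul_le_mul_of_nonneg_right hl (sum_nonneg fun i _ => sq_nonneg _)).trans h3⟩

lemma StX.lam_mul_le {f : H} {lam M : ℝ} (h : StX E f lam M) (hM : 0 < M) : lam * M ≤ 5 := by
  obtain ⟨s, d, i₀, j, y, hij, hi, hj, hf, hy, hy', hd, hl⟩ := h
  have h1 : M * ∑ i ∈ s, d i ≤ 4 * ∑ i ∈ s, d i ^ 2 := by
    rw [mul_sum, mul_sum]
    refine sum_le_sum (fun i hi' => ?_)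
    have := hd i hi'
    nlinarith
  have h2 : 0 ≤ ∑ i ∈ s, d i ^ 2 := sum_nonneg fun i _ => sq_nonneg _
  have h3 : 0 < M ^ 2 + y ^ 2 + ∑ i ∈ s, d i ^ 2 := by positivity
  have h4 := mul_le_mul_of_nonneg_left hl hM.le
  have h5 : (lam * M) * (M ^ 2 + y ^ 2 + ∑ i ∈ s, d i ^ 2) ≤
      5 * (M ^ 2 + y ^ 2 + ∑ i ∈ s, d i ^ 2) := by nlinarith
  exact le_of_mul_le_mul_right h5 h3

lemma StX.upgrade {f : H} {lam lam' M : ℝ} (h : StX E f lam M) (hM : 0 < M)
    (hl' : lam' ≤ lam ∨ lam' * M ≤ 1) : StX E f lam' M := by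
  obtain ⟨s, d, i₀, j, y, hij, hi, hj, hf, hy, hy', hd, hl⟩ := h
  refine ⟨s, d, i₀, j, y, hij, hi, hj, hf, hy, hy', hd, ?_⟩
  have h2 : 0 ≤ ∑ i ∈ s, d i ^ 2 := sum_nonneg fun i _ => sq_nonneg _
  have h3 : 0 < M ^ 2 + y ^ 2 + ∑ i ∈ s, d i ^ 2 := by positivity
  rcases hl' with h | h
  · exact (mul_le_mul_of_nonneg_right h h3.le).trans hl
  · have h1 : ∑ i ∈ s, d i ^ 2 ≤ M * ∑ i ∈ s, d i := by
      rw [mul_sum]
      refine sum_le_sum (fun i hi' => ?_)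
      have := hd i hi'
      nlinarith
    have h4 : M * (lam' * (M ^ 2 + y ^ 2 + ∑ i ∈ s, d i ^ 2)) ≤ M * (M + y + ∑ i ∈ s, d i) := by
      have := mul_le_mul_of_nonneg_right h h3.le
      nlinarith
    exact le_of_mul_le_mul_left h4 hM

lemma Tens.kill (hT : Tens D E) {f : H} {lam M t : ℝ} (h : StX E f lam M) (hM : 0 < M)
    (ht0 : 0 ≤ t) (ht1 : t ≤ 1) :
    ∃ φ, Valid D t f φ ∧ ‖step f φ‖ ^ 2 = ‖f‖ ^ 2 - M ^ 2 ∧ StM E (step f φ) lam M := by
  classical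
  have hnD := hT.nD_StM h.toM hM.le
  obtain ⟨s, d, i₀, j, y, hij, hi, hj, hf, hy, hy', hd, hl⟩ := h
  have hin : ⟪f, E i₀ i₀⟫_ℝ = M := by
    rw [hf, inner_add_left, inner_add_left, hT.inner_diag s d i₀ i₀ hi, real_inner_smul_left,
      real_inner_smul_left, hT.inner_E, hT.inner_E]
    simp [hij.symm]
  refine ⟨E i₀ i₀, ⟨hT.diag_mem i₀, ?_⟩, ?_, ?_⟩
  · rw [hin, abs_of_pos hM]
    have := nD_nonneg D f
    nlinarith
  · rw [step, norm_step_sq _ _ (hT.norm_one _ (hT.diag_mem i₀)), hin]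
  · have e : step f (E i₀ i₀) = y • E j j + diag E s d := by
      rw [step, hin, hf]; abel
    set d' : ℕ → ℝ := fun i => if i = j then y else d i with hd'
    have h2 : d' j = y := by simp [hd']
    have h3 : ∀ i ∈ s, d' i = d i := by
      intro i hi'
      have a2 : i ≠ j := fun h => hj (h ▸ hi')
      simp [hd', a2]
    have hall : ∀ i ∈ insert j s, 0 ≤ d' i ∧ d' i ≤ M := by
      intro i hi'
      simp only [mem_insert] at hi'
      rcases hi' with rfl | hi'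
      · rw [h2]; constructor <;> linarith
      · rw [h3 i hi']; have := hd i hi'; constructor <;> linarith
    refine ⟨insert j s, d', j, ?_, hall, ?_, ?_⟩
    · rw [e, diag, diag, sum_insert hj, h2]
      congr 1
      exact sum_congr rfl (fun i hi' => by rw [h3 i hi'])
    · intro i hi' hne k hk
      have hk' := (hall k hk).2
      simp only [mem_insert] at hi'
      rcases hi' with rfl | hi'
      · exact absurd rfl hne
      · rw [h3 i hi']; have := hd i hi'; linarith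
    · rw [sum_insert hj, sum_insert hj, h2,
        sum_congr rfl (g := fun i => d i ^ 2) (fun i hi' => by rw [h3 i hi']),
        sum_congr rfl (g := d) h3]
      have h1 : ∑ i ∈ s, d i ^ 2 ≤ M * ∑ i ∈ s, d i := by
        rw [mul_sum]
        refine sum_le_sum (fun i hi' => ?_)
        have := hd i hi'
        nlinarith
      have h5 : 0 ≤ ∑ i ∈ s, d i ^ 2 := sum_nonneg fun i _ => sq_nonneg _
      have h6 : 0 < M ^ 2 + y ^ 2 + ∑ i ∈ s, d i ^ 2 := by positivity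
      have h7 : 0 ≤ y ^ 2 + ∑ i ∈ s, d i ^ 2 := by positivity
      have h8 := mul_le_mul_of_nonneg_right hl h7
      have h9 : y ^ 2 + ∑ i ∈ s, d i ^ 2 ≤ M * (y + ∑ i ∈ s, d i) := by nlinarith
      have h10 : (lam * (y ^ 2 + ∑ i ∈ s, d i ^ 2)) * (M ^ 2 + y ^ 2 + ∑ i ∈ s, d i ^ 2) ≤
          (y + ∑ i ∈ s, d i) * (M ^ 2 + y ^ 2 + ∑ i ∈ s, d i ^ 2) := by
        have := mul_le_mul_of_nonneg_left h9 hM.le
        have h11 : 0 ≤ y + ∑ i ∈ s, d i := by
          by_contra hc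
          push Not at hc
          nlinarith
        have h12 := mul_le_mul_of_nonneg_left h9 h11
        nlinarith
      exact le_of_mul_le_mul_right h10 h6

end Pool.Agent.H468Z.WGA
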